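import Pool.Agent.Lib.MP_7ad46c_co.Prof

/-!
The pairing bound: one point of each orbit of a reflection.
-/

set_option autoImplicit false

namespace Pool.Agent.Lib.MP_7ad46c_co

open Finset Real

noncomputable def cap (x : ℝ) : ℝ := max (cos x + 1 / 2) 0

lemma cap_cont : Continuous cap := by unfold cap; fun_prop

lemma cap_per : Function.Periodic cap (2 * π) := fun x => by unfold cap; rw [cos_add_two_pi]

lemma cos_23 : cos (2 * π / 3) = -(1 / 2) := by
  rw [show 2 * π / 3 = π - π / 3 by ring, cos_pi_sub, cos_pi_div_three]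

lemma sin_23 : sin (2 * π / 3) = √3 / 2 := by
  rw [show 2 * π / 3 = π - π / 3 by ring, sin_pi_sub, sin_pi_div_three]

lemma int_lin (s t : ℝ) : ∫ x in s..t, (cos x + 1 / 2) = sin t - sin s + (t - s) / 2 := by
  rw [intervalIntegral.integral_add (by simp) (by simp)]
  simp
  ring

lemma cap_int (t : ℝ) : ∫ x in t..t + 2 * π, cap x = √3 + 2 * π / 3 := by
  have hp := pi_pos
  rw [cap_per.intervalIntegral_add_eq t (-(2 * π / 3)),
    ← intervalIntegral.integral_add_adjacent_intervals (b := 2 * π / 3)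
      (cap_cont.intervalIntegrable _ _) (cap_cont.intervalIntegrable _ _)]
  have h1 : ∫ x in (-(2 * π / 3))..(2 * π / 3), cap x =
      ∫ x in (-(2 * π / 3))..(2 * π / 3), (cos x + 1 / 2) := by
    refine intervalIntegral.integral_congr fun x hx => ?_
    rw [Set.uIcc_of_le (by linarith)] at hx
    have := cos_le_cos_of_nonneg_of_le_pi (abs_nonneg x) (y := 2 * π / 3) (by linarith)
      (abs_le.2 hx)
    rw [cos_abs, cos_23] at this
    exact max_eq_left (by linarith)
  have h2 : ∫ x in (2 * π / 3)..(-(2 * π / 3) + 2 * π), cap x =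
      ∫ _ in (2 * π / 3)..(-(2 * π / 3) + 2 * π), (0 : ℝ) := by
    refine intervalIntegral.integral_congr fun x hx => ?_
    rw [Set.uIcc_of_le (by linarith)] at hx
    have := cos_le_cos_of_nonneg_of_le_pi (abs_nonneg (x - π)) (y := π / 3) (by linarith)
      (abs_le.2 ⟨by linarith [hx.1], by linarith [hx.2]⟩)
    rw [cos_abs, cos_pi_div_three, cos_sub_pi] at this
    exact max_eq_right (by linarith)
  rw [h1, h2, int_lin, sin_neg, sin_23]
  simp

lemma cap_cell (t x : ℝ) (hx : 0 ≤ x) :
    2 * x * cap t ≤ (∫ y in (t - x)..(t + x), cap y) + x ^ 3 / 3 := by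
  rcases le_total (cos t + 1 / 2) 0 with h | h
  · have h1 : cap t = 0 := max_eq_right h
    have h2 : 0 ≤ ∫ y in (t - x)..(t + x), cap y :=
      intervalIntegral.integral_nonneg (by linarith) fun u _ => le_max_right _ _
    have h3 : 0 ≤ x ^ 3 / 3 := by positivity
    rw [h1]
    linarith
  · have h1 : cap t = cos t + 1 / 2 := max_eq_left h
    have h2 : ∫ y in (t - x)..(t + x), (cos y + 1 / 2) ≤ ∫ y in (t - x)..(t + x), cap y :=
      intervalIntegral.integral_mono_on (by linarith)
        ((by fun_prop : Continuous fun y => cos y + 1 / 2).intervalIntegrable _ _)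
        (cap_cont.intervalIntegrable _ _) fun u _ => le_max_left _ _
    rw [int_lin, sin_add, sin_sub] at h2
    have h3 := sin_ge_sub_cube hx
    have h4 := sin_le hx
    have h5 := mul_le_mul_of_nonneg_right (cos_le_one t) (sub_nonneg.2 h4)
    rw [h1]
    linarith

lemma cap_sum {d : ℕ} (hd : 0 < d) (t : ℝ) :
    ∑ p ∈ range d, cap (t + 2 * π * p / d) ≤ d * (√3 / (2 * π) + 1 / 3) + π ^ 2 / (6 * d) := by
  have hd' : (0 : ℝ) < d := by exact_mod_cast hd
  have hp := pi_pos
  have hx : 0 < π / d := by positivity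
  have h1 := intervalIntegral.sum_integral_adjacent_intervals (μ := MeasureTheory.volume)
    (f := cap) (a := fun k : ℕ => t - π / d + 2 * π * k / d) (n := d)
    (fun k _ => cap_cont.intervalIntegrable _ _)
  have e : t - π / d + 2 * π * d / d = (t - π / d + 2 * π * (0 : ℕ) / d) + 2 * π := by
    field_simp; simp
  rw [e, cap_int] at h1
  have h2 : ∑ p ∈ range d, 2 * (π / d) * cap (t + 2 * π * p / d) ≤ ∑ k ∈ range d,
      ((∫ y in (t - π / d + 2 * π * k / d)..(t - π / d + 2 * π * (k + 1 : ℕ) / d), cap y) +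
        (π / d) ^ 3 / 3) := by
    refine sum_le_sum fun p _ => ?_
    have := cap_cell (t + 2 * π * p / d) (π / d) hx.le
    rwa [show t + 2 * π * p / d - π / d = t - π / d + 2 * π * p / d by ring,
      show t + 2 * π * p / d + π / d = t - π / d + 2 * π * (p + 1 : ℕ) / d by
        push_cast; ring] at this
  rw [sum_add_distrib, h1, ← mul_sum, sum_const, card_range, nsmul_eq_mul] at h2
  refine le_of_mul_le_mul_left (h2.trans (le_of_eq ?_)) (show 0 < 2 * (π / d) by positivity)
  field_simp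
  ring

/-- The reflection attached to the fibre `c`. -/
def rf (d r c p : ℕ) : ℕ := (3 * d - r - c - p) % d

lemma rf_mod {d r c v : ℕ} (hr : r ≤ 2) (hc : c < d) (hv : v < d) :
    (v + rf d r c v + c + r) % d = 0 := by
  unfold rf
  have h1 : (v + (3 * d - r - c - v) % d + c + r) % d = (v + (3 * d - r - c - v) + c + r) % d := by
    have e : ∀ x, v + x + c + r = x + (v + c + r) := fun x => by ring
    rw [e, e, Nat.mod_add_mod]
  rw [h1, show v + (3 * d - r - c - v) + c + r = 3 * d by omega]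
  simp

lemma mod_cancel {d x y z : ℕ} (hx : x < d) (hy : y < d) (h1 : (x + z) % d = 0)
    (h2 : (y + z) % d = 0) : x = y :=
  (Nat.ModEq.add_right_cancel' z (h1.trans h2.symm)).eq_of_lt_of_lt hx hy

lemma rf_rf {d r c v : ℕ} (hr : r ≤ 2) (hc : c < d) (hv : v < d) :
    rf d r c (rf d r c v) = v := by
  have hw : rf d r c v < d := Nat.mod_lt _ (by omega)
  have h1 := rf_mod hr hc hv
  have h2 := rf_mod hr hc hw
  refine mod_cancel (z := rf d r c v + c + r) (Nat.mod_lt _ (by omega)) hv ?_ ?_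
  · rw [← h2]; congr 1; unfold rf; ring
  · rw [← h1]; congr 1; ring

lemma cos_rf {d r c v : ℕ} (hr : r ≤ 2) (hc : c < d) (hv : v < d) :
    cos (ang d (3 * rf d r c v + r) + ang d (3 * c + r) / 2) =
      cos (ang d (3 * v + r) + ang d (3 * c + r) / 2) := by
  obtain ⟨q, hq⟩ := Nat.dvd_of_mod_eq_zero (rf_mod hr hc hv)
  have hd' : (d : ℝ) ≠ 0 := by exact_mod_cast (show d ≠ 0 by omega)
  have hq' : (rf d r c v : ℝ) = d * q - v - c - r := by
    have : (v : ℝ) + rf d r c v + c + r = d * q := by exact_mod_cast hq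
    linarith
  have : ang d (3 * rf d r c v + r) + ang d (3 * c + r) / 2 =
      -(ang d (3 * v + r) + ang d (3 * c + r) / 2) + q * (2 * π) := by
    unfold ang
    push_cast
    rw [hq']
    field_simp
    ring
  rw [this, cos_add_nat_mul_two_pi, cos_neg]

lemma pair_bound {d h r m c : ℕ} {a : ℕ → ℕ} (P : Prof d h r a m) (hr : r ≤ 2) (hodd : d % 2 = 1)
    (hc : c < d) (hac : 1 ≤ a c) (W : ℕ → ℝ) (hW : ∀ p, p < d → W (rf d r c p) = W p)
    (hW1 : ∀ p, W p ≤ 3 / 2) :
    2 * ∑ p ∈ range d, (a p : ℝ) * W p ≤ h * ∑ p ∈ range d, max (W p) 0 + 9 / 2 := by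
  have hlt : ∀ p, rf d r c p < d := fun p => Nat.mod_lt _ (by omega)
  have h1 : ∑ p ∈ range d, (a p : ℝ) * W p = ∑ p ∈ range d, (a (rf d r c p) : ℝ) * W p := by
    refine sum_nbij' (rf d r c) (rf d r c) (fun p _ => mem_range.2 (hlt p))
      (fun p _ => mem_range.2 (hlt p)) (fun p hp => rf_rf hr hc (mem_range.1 hp))
      (fun p hp => rf_rf hr hc (mem_range.1 hp)) fun p hp => ?_
    rw [rf_rf hr hc (mem_range.1 hp), hW p (mem_range.1 hp)]
  have h2 : ∀ p ∈ range d, (a p : ℝ) * W p + (a (rf d r c p) : ℝ) * W p ≤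
      h * max (W p) 0 + 3 / 2 * (((if p = c then 1 else 0) + (if rf d r c p = c then 1 else 0) +
        (if p = rf d r c p then 1 else 0) : ℕ) : ℝ) := by
    intro p hp
    have b1 := P.pair c p _ hc (mem_range.1 hp) (hlt p) hac (rf_mod hr hc (mem_range.1 hp))
    rw [add_assoc h, add_assoc h] at b1
    generalize (if p = c then 1 else 0) + (if rf d r c p = c then 1 else 0) +
        (if p = rf d r c p then 1 else 0) = e at *
    have b2 : (a p : ℝ) + a (rf d r c p) ≤ h + e := by exact_mod_cast b1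
    have b3 := mul_le_mul_of_nonneg_left (le_max_left (W p) 0)
      (show (0 : ℝ) ≤ a p + a (rf d r c p) by positivity)
    have b4 := mul_le_mul_of_nonneg_right b2 (le_max_right (W p) 0)
    have b5 := mul_le_mul_of_nonneg_left (max_le (hW1 p) (by norm_num : (0 : ℝ) ≤ 3 / 2))
      (Nat.cast_nonneg (α := ℝ) e)
    linarith
  have h3 := sum_le_sum h2
  rw [sum_add_distrib, ← h1, sum_add_distrib, ← mul_sum, ← mul_sum, ← Nat.cast_sum,
    sum_add_distrib, sum_add_distrib, ← card_filter, ← card_filter, ← card_filter] at h3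
  have c1 : #{p ∈ range d | p = c} ≤ 1 :=
    card_le_one.2 fun x hx y hy => (mem_filter.1 hx).2.trans (mem_filter.1 hy).2.symm
  have c2 : #{p ∈ range d | rf d r c p = c} ≤ 1 := card_le_one.2 fun x hx y hy => by
    rw [mem_filter, mem_range] at hx hy
    rw [← rf_rf hr hc hx.1, ← rf_rf hr hc hy.1, hx.2, hy.2]
  have c3 : #{p ∈ range d | p = rf d r c p} ≤ 1 := card_le_one.2 fun x hx y hy => by
    rw [mem_filter, mem_range] at hx hy
    have e1 := rf_mod hr hc hx.1
    have e2 := rf_mod hr hc hy.1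
    rw [← hx.2] at e1
    rw [← hy.2] at e2
    have e3 : 2 * x + (c + r) ≡ 2 * y + (c + r) [MOD d] := by
      unfold Nat.ModEq
      rw [show 2 * x + (c + r) = x + x + c + r by ring, show 2 * y + (c + r) = y + y + c + r by ring,
        e1, e2]
    have e4 := Nat.ModEq.cancel_left_of_coprime
      (show Nat.gcd d 2 = 1 from (Nat.coprime_two_right.2 (Nat.odd_iff.2 hodd)))
      (Nat.ModEq.add_right_cancel' _ e3)
    exact e4.eq_of_lt_of_lt hx.1 hy.1
  have c4 : ((#{p ∈ range d | p = c} + #{p ∈ range d | rf d r c p = c} +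
      #{p ∈ range d | p = rf d r c p} : ℕ) : ℝ) ≤ 3 := by exact_mod_cast (by omega)
  linarith

lemma center_bound {d h r m c : ℕ} {a : ℕ → ℕ} (P : Prof d h r a m) (hr : r ≤ 2)
    (hodd : d % 2 = 1) (hc : c < d) (hac : 1 ≤ a c) :
    |PX d r a * cos (ang d (3 * c + r) / 2) - PY d r a * sin (ang d (3 * c + r) / 2)| ≤
      9 / 4 + h / 2 * (d * (√3 / (2 * π) + 1 / 3) + π ^ 2 / (6 * d)) - m / 2 := by
  have hd : 0 < d := by omega
  have hd' : (d : ℝ) ≠ 0 := by exact_mod_cast hd.ne'
  set w := ang d (3 * c + r) / 2 with hw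
  have hm : (m : ℝ) = ∑ p ∈ range d, (a p : ℝ) := by rw [← P.sum]; push_cast; rfl
  have e1 : ∀ s : ℝ, ∑ p ∈ range d, (a p : ℝ) * (s * cos (ang d (3 * p + r) + w) + 1 / 2) =
      -s * (PX d r a * cos w - PY d r a * sin w) + m / 2 := by
    intro s
    rw [hm]
    unfold PX PY
    simp only [sum_mul, sum_div, ← sum_sub_distrib, mul_sum, ← sum_add_distrib]
    exact sum_congr rfl fun p _ => by rw [cos_add]; ring
  have e2 : ∀ p : ℕ, ang d (3 * p + r) + w = (ang d r + w) + 2 * π * p / d := by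
    intro p; unfold ang; push_cast; field_simp; ring
  have hh : (0 : ℝ) ≤ h := Nat.cast_nonneg h
  have b1 := pair_bound P hr hodd hc hac (fun p => 1 * cos (ang d (3 * p + r) + w) + 1 / 2)
    (fun p hp => by simp only [hw, cos_rf hr hc hp])
    (fun p => by have := cos_le_one (ang d (3 * p + r) + w); linarith)
  have b2 := pair_bound P hr hodd hc hac (fun p => -1 * cos (ang d (3 * p + r) + w) + 1 / 2)
    (fun p hp => by simp only [hw, cos_rf hr hc hp])
    (fun p => by have := neg_one_le_cos (ang d (3 * p + r) + w); linarith)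
  rw [e1] at b1 b2
  have s1 : ∑ p ∈ range d, max (1 * cos (ang d (3 * p + r) + w) + 1 / 2) 0 ≤ _ :=
    le_trans (le_of_eq (sum_congr rfl fun p _ => by rw [one_mul, e2]; rfl))
      (cap_sum hd (ang d r + w))
  have s2 : ∑ p ∈ range d, max (-1 * cos (ang d (3 * p + r) + w) + 1 / 2) 0 ≤ _ :=
    le_trans (le_of_eq (sum_congr rfl fun p _ => by
      unfold cap
      rw [e2, show ang d r + w + π + 2 * π * p / d = (ang d r + w + 2 * π * p / d) + π by ring,
        cos_add_pi, neg_one_mul])) (cap_sum hd (ang d r + w + π))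
  have t1 := mul_le_mul_of_nonneg_left s1 hh
  have t2 := mul_le_mul_of_nonneg_left s2 hh
  rw [abs_le]
  constructor <;> linarith

end Pool.Agent.Lib.MP_7ad46c_co
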