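import Pool.Agent.Lib.MP_7ad46c_co.Anal1

/-!
Large parameters: the support lies in an arc shorter than two thirds of the circle.
-/

set_option autoImplicit false

namespace Pool.Agent.Lib.MP_7ad46c_co

open Finset Real

lemma sin_le_abs_cos {x e : ℝ} (he0 : 0 ≤ e) (he1 : e ≤ π / 3) (h1 : e ≤ |x - π / 2|)
    (h2 : |x - π / 2| ≤ 2 * π / 3) : sin e ≤ |cos x| := by
  have hp := pi_pos
  have e1 : |cos x| = sin |x - π / 2| := by
    rw [show cos x = -sin (x - π / 2) by rw [sin_sub_pi_div_two, neg_neg], abs_neg,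
      abs_sin_eq_sin_abs_of_abs_le_pi (by linarith)]
  rw [e1]
  rcases le_total |x - π / 2| (π / 2) with h | h
  · exact sin_le_sin_of_le_of_le_pi_div_two (by linarith) h h1
  · rw [← sin_pi_sub |x - π / 2|]
    exact sin_le_sin_of_le_of_le_pi_div_two (by linarith) (by linarith) (by linarith)

lemma polar {X Y b : ℝ} (hX : 0 < X) (hb : 0 < b)
    (hc : b * (X ^ 2 + Y ^ 2) ≤ X ^ 3 - 3 * X * Y ^ 2) :
    ∃ R ψ : ℝ, b ≤ R ∧ |ψ| ≤ π / 6 ∧ X = R * cos ψ ∧ Y = R * sin ψ := by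
  have h1 := Complex.norm_mul_cos_arg ⟨X, Y⟩
  have h2 := Complex.norm_mul_sin_arg ⟨X, Y⟩
  have h3 := Complex.abs_arg_le_pi ⟨X, Y⟩
  have h0 := norm_nonneg (⟨X, Y⟩ : ℂ)
  generalize ‖(⟨X, Y⟩ : ℂ)‖ = R at *
  generalize Complex.arg ⟨X, Y⟩ = ψ at *
  change R * cos ψ = X at h1
  change R * sin ψ = Y at h2
  have hR : R ^ 2 = X ^ 2 + Y ^ 2 := by
    rw [← h1, ← h2]; linear_combination (-R ^ 2) * cos_sq_add_sin_sq ψ
  have hbX : b ≤ X := by
    have hX2 : 0 < X ^ 2 := by positivity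
    refine le_of_mul_le_mul_right ?_ hX2
    nlinarith [mul_nonneg hb.le (sq_nonneg Y), mul_nonneg hX.le (sq_nonneg Y)]
  have hXR : X ≤ R := by
    have := mul_le_mul_of_nonneg_left (cos_le_one ψ) h0
    linarith
  refine ⟨R, ψ, hbX.trans hXR, ?_, h1.symm, h2.symm⟩
  by_contra hlt
  have hp := pi_pos
  have h4 := cos_le_cos_of_nonneg_of_le_pi (x := π / 6) (by linarith) h3 (not_le.1 hlt).le
  rw [cos_abs, cos_pi_div_six] at h4
  have h5 : X ≤ R * (√3 / 2) := by rw [← h1]; exact mul_le_mul_of_nonneg_left h4 h0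
  have h6 := mul_self_le_mul_self hX.le h5
  have h7 : √3 * √3 = 3 := mul_self_sqrt (by norm_num)
  have h8 : X ^ 2 ≤ 3 * Y ^ 2 := by nlinarith
  have h9 : 0 < b * (X ^ 2 + Y ^ 2) := by positivity
  nlinarith [mul_le_mul_of_nonneg_left h8 hX.le]

lemma numeric {d h y : ℝ} (hc : (h = 1 ∧ 353 ≤ d) ∨ (3 ≤ h ∧ 147 ≤ d))
    (hy : y = π * (3 * h + 1) / (3 * (d * h))) :
    9 / 4 + h / 2 * (d * (√3 / (2 * π) + 1 / 3) + π ^ 2 / (6 * d)) - (d * h + 8) / 6 <
      (d * h - 7) / 6 * sin (π / 3 - y) := by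
  have p1 := pi_gt_d6
  have p2 := pi_lt_d6
  have hd : 147 ≤ d := by rcases hc with h1 | h1 <;> linarith [h1.2]
  have hh : 1 ≤ h := by rcases hc with h1 | h1 <;> linarith [h1.1]
  have hn : 147 ≤ d * h := by nlinarith
  have s1 : 1.7320508 < √3 := Real.lt_sqrt_of_sq_lt (by norm_num)
  have s2 : √3 < 1.7320509 := (Real.sqrt_lt' (by norm_num)).2 (by norm_num)
  have hy0 : 0 ≤ y := by rw [hy]; positivity
  have hny : d * h * y = π * (3 * h + 1) / 3 := by rw [hy]; field_simp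
  have q1 : √3 / (2 * π) ≤ 0.275665 := by rw [div_le_iff₀ (by positivity)]; linarith
  have q2 : d * h * (√3 / (2 * π)) ≤ d * h * 0.275665 :=
    mul_le_mul_of_nonneg_left q1 (by positivity)
  have q3 : 0.8660254 - 0.4331 * y ^ 2 - y / 2 ≤ sin (π / 3 - y) := by
    rw [sin_sub, sin_pi_div_three, cos_pi_div_three]
    have a1 := one_sub_sq_div_two_le_cos (x := y)
    have a2 := sin_le hy0
    have a3 := mul_le_mul_of_nonneg_left a1 (show 0 ≤ √3 / 2 by positivity)
    nlinarith [sq_nonneg y]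
  have q4 := mul_le_mul_of_nonneg_left q3 (show 0 ≤ (d * h - 7) / 6 by linarith)
  have q5 : π ^ 2 ≤ 9.8697 := by nlinarith
  have q6 : π * (3 * h + 1) ≤ 3.141593 * (3 * h + 1) :=
    mul_le_mul_of_nonneg_right p2.le (by positivity)
  refine lt_of_lt_of_le ?_ q4
  have key : ∀ D y0 : ℝ, 0 < D → D ≤ d → y ≤ y0 →
      11 / 12 + h * (9.8697 / (12 * D)) + 7 / 6 * 0.8660254 +
        3.141593 * (3 * h + 1) / 3 * (1 / 12 + 0.4331 / 6 * y0) < 0.006505 * (D * h) →
      9 / 4 + h / 2 * (d * (√3 / (2 * π) + 1 / 3) + π ^ 2 / (6 * d)) - (d * h + 8) / 6 <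
        (d * h - 7) / 6 * (0.8660254 - 0.4331 * y ^ 2 - y / 2) := by
    intro D y0 hD hDd hy1 hin
    have r1 : π ^ 2 / (6 * d) ≤ 9.8697 / (6 * D) := by gcongr
    have r2 := mul_le_mul_of_nonneg_left r1 (show 0 ≤ h / 2 by positivity)
    have r3 : D * h ≤ d * h := by gcongr
    have r4 : d * h * y * (1 / 12 + 0.4331 / 6 * y) ≤
        3.141593 * (3 * h + 1) / 3 * (1 / 12 + 0.4331 / 6 * y0) := by
      rw [hny]; gcongr
    have r5 : h / 2 * (9.8697 / (6 * D)) = h * (9.8697 / (12 * D)) := by field_simp; ring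
    nlinarith [sq_nonneg y]
  rcases hc with ⟨rfl, h2⟩ | ⟨h1, h2⟩
  · refine key 353 0.011867 (by norm_num) h2 ?_ (by norm_num)
    rw [hy, div_le_iff₀ (by positivity)]
    linarith
  · refine key 147 0.023747 (by norm_num) h2 ?_ (by linarith)
    rw [hy, div_le_iff₀ (by positivity)]
    nlinarith

theorem analytic {d h r m : ℕ} {a : ℕ → ℕ} (P : Prof d h r a m) (hr : r ≤ 2) (hodd : d % 2 = 1)
    (hc : (h = 1 ∧ 353 ≤ d) ∨ (3 ≤ h ∧ 147 ≤ d)) : Concl d h a m := by
  have hp := pi_pos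
  have hd : 147 ≤ d := by omega
  have hh : 1 ≤ h := by omega
  have hbig := P.big
  have hne : ((range d).filter fun p => 0 < a p).Nonempty := by
    by_contra hcon
    rw [not_nonempty_iff_eq_empty, filter_eq_empty_iff] at hcon
    have := P.sum
    rw [sum_eq_zero fun p hp => by have := hcon hp; omega] at this
    omega
  set S := (range d).filter fun p => 0 < a p
  have hlo := mem_filter.1 (S.min'_mem hne)
  have hhi := mem_filter.1 (S.max'_mem hne)
  have hle := S.min'_le _ (S.max'_mem hne)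
  refine ⟨S.min' hne, S.max' hne - S.min' hne + 1, fun p hp hap => ?_, Or.inr ?_⟩
  · have hpS : p ∈ S := mem_filter.2 ⟨mem_range.2 hp, hap⟩
    have := S.min'_le p hpS
    have := S.le_max' p hpS
    omega
  generalize S.min' hne = lo at *
  generalize S.max' hne = hi at *
  obtain ⟨l, rfl⟩ := Nat.exists_eq_add_of_le hle
  rw [Nat.add_sub_cancel_left]
  by_contra hcon
  have hcon' : 2 * (m : ℝ) ≤ (l + 2) * h + 6 := by
    have : 2 * m ≤ (l + 2) * h + 6 := by
      have : (l + 1 + 1) * h = (l + 2) * h := rfl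
      omega
    exact_mod_cast this
  have hd' : (147 : ℝ) ≤ d := by exact_mod_cast hd
  have hh' : (1 : ℝ) ≤ h := by exact_mod_cast hh
  have hbig' : (d : ℝ) * h + 8 ≤ 3 * m := by exact_mod_cast hbig
  have hn : (147 : ℝ) ≤ d * h := by nlinarith
  have hcube := P.cube (beta_gen hbig P.lt)
  push_cast at hcube
  obtain ⟨R, ψ, hR, hψ, hX, hY⟩ := polar P.pos (by linarith) hcube
  have hnum := numeric (d := d) (h := h) (by
    rcases hc with ⟨h1, h2⟩ | ⟨h1, h2⟩
    · left; exact ⟨by exact_mod_cast h1, by exact_mod_cast h2⟩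
    · right; exact ⟨by exact_mod_cast h1, by exact_mod_cast h2⟩) rfl
  set y : ℝ := π * (3 * h + 1) / (3 * (d * h)) with hy
  have hy0 : 0 ≤ y := by positivity
  have hy1 : y ≤ π / 3 := by
    rw [hy, div_le_div_iff₀ (by positivity) (by norm_num)]
    have : (3 * h + 1 : ℝ) ≤ d * h := by nlinarith
    nlinarith
  have key : ∀ c, c ∈ range d ∧ 0 < a c → |ang d (3 * c + r) / 2 + ψ - π / 2| < π / 3 - y := by
    intro c hcS
    have hcd := mem_range.1 hcS.1
    by_contra hge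
    have hb := center_bound P hr hodd hcd hcS.2
    have w0 : 0 ≤ ang d (3 * c + r) / 2 := by unfold ang; positivity
    have w1 : ang d (3 * c + r) / 2 ≤ π := by
      unfold ang
      have : ((3 * c + r : ℕ) : ℝ) ≤ 3 * d := by exact_mod_cast (by omega : 3 * c + r ≤ 3 * d)
      rw [div_div, div_le_iff₀ (by positivity)]
      nlinarith
    obtain ⟨ψ1, ψ2⟩ := abs_le.1 hψ
    have h1 := sin_le_abs_cos (by linarith) (by linarith) (not_lt.1 hge)
      (abs_le.2 ⟨by linarith, by linarith⟩)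
    rw [hX, hY, show R * cos ψ * cos (ang d (3 * c + r) / 2) - R * sin ψ * sin (ang d (3 * c + r) / 2)
      = R * cos (ang d (3 * c + r) / 2 + ψ) by rw [cos_add]; ring, abs_mul,
      abs_of_nonneg (by linarith : 0 ≤ R)] at hb
    have h2 : 0 ≤ sin (π / 3 - y) := sin_nonneg_of_nonneg_of_le_pi (by linarith) (by linarith)
    have h3 := mul_le_mul hR h1 h2 (by linarith)
    linarith
  have k1 := (abs_lt.1 (key lo hlo)).1
  have k2 := (abs_lt.1 (key (lo + l) hhi)).2
  have e1 : ang d (3 * (lo + l) + r) / 2 - ang d (3 * lo + r) / 2 = π * (l * h) / (d * h) := by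
    unfold ang; push_cast; field_simp; ring
  have e2 : 2 * (π / 3 - y) = π * ((2 * (d * h) - 6 * h - 2) / 3) / (d * h) := by
    rw [hy]; field_simp; ring
  have e3 : π * ((2 * (d * h) - 6 * h - 2) / 3) / (d * h) ≤ π * (l * h) / (d * h) := by
    gcongr
    linarith
  linarith

end Pool.Agent.Lib.MP_7ad46c_co
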