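import Pool.Agent.Lib.MP_7ad46c_co.Cert1
import Pool.Agent.Lib.MP_7ad46c_co.Cert2
import Pool.Agent.Lib.MP_7ad46c_co.Cert3
import Pool.Agent.Lib.MP_7ad46c_co.Cert4
import Pool.Agent.Lib.MP_7ad46c_co.Cert5
import Pool.Agent.Lib.MP_7ad46c_co.Cert6

set_option autoImplicit false
set_option maxRecDepth 20000

namespace Pool.Agent.Lib.MP_7ad46c_co.Chk

def J3 (d H : ℕ) (uni : Bool) : Prop := JobOK d 0 H uni ∧ JobOK d 1 H uni ∧ JobOK d 2 H uni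

theorem famA_list : ∀ d ∈ [21, 25, 27, 33, 35, 39, 45, 49, 51, 55, 57, 63, 65, 69, 75, 77, 81, 85, 87, 91, 93, 95, 99, 105, 111, 115, 117, 119, 121, 123, 125, 129, 133, 135, 141, 143, 145, 147, 153, 155, 159, 161, 165, 169, 171, 175, 177, 183, 185, 187, 189, 195, 201, 203, 205, 207, 209, 213, 215, 217, 219, 221, 225, 231, 235, 237, 243, 245, 247, 249, 253, 255, 259, 261, 265, 267, 273, 275, 279, 285, 287, 289, 291, 295, 297, 299, 301, 303, 305, 309, 315, 319, 321, 323, 325, 327, 329, 333, 335, 339, 341, 343, 345, 351], J3 d 1 false :=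
  List.forall_mem_cons.2 ⟨⟨j21_0_1_0, j21_1_1_0, j21_2_1_0⟩,
  List.forall_mem_cons.2 ⟨⟨j25_0_1_0, j25_1_1_0, j25_2_1_0⟩,
  List.forall_mem_cons.2 ⟨⟨j27_0_1_0, j27_1_1_0, j27_2_1_0⟩,
  List.forall_mem_cons.2 ⟨⟨j33_0_1_0, j33_1_1_0, j33_2_1_0⟩,
  List.forall_mem_cons.2 ⟨⟨j35_0_1_0, j35_1_1_0, j35_2_1_0⟩,
  List.forall_mem_cons.2 ⟨⟨j39_0_1_0, j39_1_1_0, j39_2_1_0⟩,
  List.forall_mem_cons.2 ⟨⟨j45_0_1_0, j45_1_1_0, j45_2_1_0⟩,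
  List.forall_mem_cons.2 ⟨⟨j49_0_1_0, j49_1_1_0, j49_2_1_0⟩,
  List.forall_mem_cons.2 ⟨⟨j51_0_1_0, j51_1_1_0, j51_2_1_0⟩,
  List.forall_mem_cons.2 ⟨⟨j55_0_1_0, j55_1_1_0, j55_2_1_0⟩,
  List.forall_mem_cons.2 ⟨⟨j57_0_1_0, j57_1_1_0, j57_2_1_0⟩,
  List.forall_mem_cons.2 ⟨⟨j63_0_1_0, j63_1_1_0, j63_2_1_0⟩,
  List.forall_mem_cons.2 ⟨⟨j65_0_1_0, j65_1_1_0, j65_2_1_0⟩,
  List.forall_mem_cons.2 ⟨⟨j69_0_1_0, j69_1_1_0, j69_2_1_0⟩,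
  List.forall_mem_cons.2 ⟨⟨j75_0_1_0, j75_1_1_0, j75_2_1_0⟩,
  List.forall_mem_cons.2 ⟨⟨j77_0_1_0, j77_1_1_0, j77_2_1_0⟩,
  List.forall_mem_cons.2 ⟨⟨j81_0_1_0, j81_1_1_0, j81_2_1_0⟩,
  List.forall_mem_cons.2 ⟨⟨j85_0_1_0, j85_1_1_0, j85_2_1_0⟩,
  List.forall_mem_cons.2 ⟨⟨j87_0_1_0, j87_1_1_0, j87_2_1_0⟩,
  List.forall_mem_cons.2 ⟨⟨j91_0_1_0, j91_1_1_0, j91_2_1_0⟩,
  List.forall_mem_cons.2 ⟨⟨j93_0_1_0, j93_1_1_0, j93_2_1_0⟩,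
  List.forall_mem_cons.2 ⟨⟨j95_0_1_0, j95_1_1_0, j95_2_1_0⟩,
  List.forall_mem_cons.2 ⟨⟨j99_0_1_0, j99_1_1_0, j99_2_1_0⟩,
  List.forall_mem_cons.2 ⟨⟨j105_0_1_0, j105_1_1_0, j105_2_1_0⟩,
  List.forall_mem_cons.2 ⟨⟨j111_0_1_0, j111_1_1_0, j111_2_1_0⟩,
  List.forall_mem_cons.2 ⟨⟨j115_0_1_0, j115_1_1_0, j115_2_1_0⟩,
  List.forall_mem_cons.2 ⟨⟨j117_0_1_0, j117_1_1_0, j117_2_1_0⟩,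
  List.forall_mem_cons.2 ⟨⟨j119_0_1_0, j119_1_1_0, j119_2_1_0⟩,
  List.forall_mem_cons.2 ⟨⟨j121_0_1_0, j121_1_1_0, j121_2_1_0⟩,
  List.forall_mem_cons.2 ⟨⟨j123_0_1_0, j123_1_1_0, j123_2_1_0⟩,
  List.forall_mem_cons.2 ⟨⟨j125_0_1_0, j125_1_1_0, j125_2_1_0⟩,
  List.forall_mem_cons.2 ⟨⟨j129_0_1_0, j129_1_1_0, j129_2_1_0⟩,
  List.forall_mem_cons.2 ⟨⟨j133_0_1_0, j133_1_1_0, j133_2_1_0⟩,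
  List.forall_mem_cons.2 ⟨⟨j135_0_1_0, j135_1_1_0, j135_2_1_0⟩,
  List.forall_mem_cons.2 ⟨⟨j141_0_1_0, j141_1_1_0, j141_2_1_0⟩,
  List.forall_mem_cons.2 ⟨⟨j143_0_1_0, j143_1_1_0, j143_2_1_0⟩,
  List.forall_mem_cons.2 ⟨⟨j145_0_1_0, j145_1_1_0, j145_2_1_0⟩,
  List.forall_mem_cons.2 ⟨⟨j147_0_1_0, j147_1_1_0, j147_2_1_0⟩,
  List.forall_mem_cons.2 ⟨⟨j153_0_1_0, j153_1_1_0, j153_2_1_0⟩,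
  List.forall_mem_cons.2 ⟨⟨j155_0_1_0, j155_1_1_0, j155_2_1_0⟩,
  List.forall_mem_cons.2 ⟨⟨j159_0_1_0, j159_1_1_0, j159_2_1_0⟩,
  List.forall_mem_cons.2 ⟨⟨j161_0_1_0, j161_1_1_0, j161_2_1_0⟩,
  List.forall_mem_cons.2 ⟨⟨j165_0_1_0, j165_1_1_0, j165_2_1_0⟩,
  List.forall_mem_cons.2 ⟨⟨j169_0_1_0, j169_1_1_0, j169_2_1_0⟩,
  List.forall_mem_cons.2 ⟨⟨j171_0_1_0, j171_1_1_0, j171_2_1_0⟩,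
  List.forall_mem_cons.2 ⟨⟨j175_0_1_0, j175_1_1_0, j175_2_1_0⟩,
  List.forall_mem_cons.2 ⟨⟨j177_0_1_0, j177_1_1_0, j177_2_1_0⟩,
  List.forall_mem_cons.2 ⟨⟨j183_0_1_0, j183_1_1_0, j183_2_1_0⟩,
  List.forall_mem_cons.2 ⟨⟨j185_0_1_0, j185_1_1_0, j185_2_1_0⟩,
  List.forall_mem_cons.2 ⟨⟨j187_0_1_0, j187_1_1_0, j187_2_1_0⟩,
  List.forall_mem_cons.2 ⟨⟨j189_0_1_0, j189_1_1_0, j189_2_1_0⟩,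
  List.forall_mem_cons.2 ⟨⟨j195_0_1_0, j195_1_1_0, j195_2_1_0⟩,
  List.forall_mem_cons.2 ⟨⟨j201_0_1_0, j201_1_1_0, j201_2_1_0⟩,
  List.forall_mem_cons.2 ⟨⟨j203_0_1_0, j203_1_1_0, j203_2_1_0⟩,
  List.forall_mem_cons.2 ⟨⟨j205_0_1_0, j205_1_1_0, j205_2_1_0⟩,
  List.forall_mem_cons.2 ⟨⟨j207_0_1_0, j207_1_1_0, j207_2_1_0⟩,
  List.forall_mem_cons.2 ⟨⟨j209_0_1_0, j209_1_1_0, j209_2_1_0⟩,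
  List.forall_mem_cons.2 ⟨⟨j213_0_1_0, j213_1_1_0, j213_2_1_0⟩,
  List.forall_mem_cons.2 ⟨⟨j215_0_1_0, j215_1_1_0, j215_2_1_0⟩,
  List.forall_mem_cons.2 ⟨⟨j217_0_1_0, j217_1_1_0, j217_2_1_0⟩,
  List.forall_mem_cons.2 ⟨⟨j219_0_1_0, j219_1_1_0, j219_2_1_0⟩,
  List.forall_mem_cons.2 ⟨⟨j221_0_1_0, j221_1_1_0, j221_2_1_0⟩,
  List.forall_mem_cons.2 ⟨⟨j225_0_1_0, j225_1_1_0, j225_2_1_0⟩,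
  List.forall_mem_cons.2 ⟨⟨j231_0_1_0, j231_1_1_0, j231_2_1_0⟩,
  List.forall_mem_cons.2 ⟨⟨j235_0_1_0, j235_1_1_0, j235_2_1_0⟩,
  List.forall_mem_cons.2 ⟨⟨j237_0_1_0, j237_1_1_0, j237_2_1_0⟩,
  List.forall_mem_cons.2 ⟨⟨j243_0_1_0, j243_1_1_0, j243_2_1_0⟩,
  List.forall_mem_cons.2 ⟨⟨j245_0_1_0, j245_1_1_0, j245_2_1_0⟩,
  List.forall_mem_cons.2 ⟨⟨j247_0_1_0, j247_1_1_0, j247_2_1_0⟩,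
  List.forall_mem_cons.2 ⟨⟨j249_0_1_0, j249_1_1_0, j249_2_1_0⟩,
  List.forall_mem_cons.2 ⟨⟨j253_0_1_0, j253_1_1_0, j253_2_1_0⟩,
  List.forall_mem_cons.2 ⟨⟨j255_0_1_0, j255_1_1_0, j255_2_1_0⟩,
  List.forall_mem_cons.2 ⟨⟨j259_0_1_0, j259_1_1_0, j259_2_1_0⟩,
  List.forall_mem_cons.2 ⟨⟨j261_0_1_0, j261_1_1_0, j261_2_1_0⟩,
  List.forall_mem_cons.2 ⟨⟨j265_0_1_0, j265_1_1_0, j265_2_1_0⟩,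
  List.forall_mem_cons.2 ⟨⟨j267_0_1_0, j267_1_1_0, j267_2_1_0⟩,
  List.forall_mem_cons.2 ⟨⟨j273_0_1_0, j273_1_1_0, j273_2_1_0⟩,
  List.forall_mem_cons.2 ⟨⟨j275_0_1_0, j275_1_1_0, j275_2_1_0⟩,
  List.forall_mem_cons.2 ⟨⟨j279_0_1_0, j279_1_1_0, j279_2_1_0⟩,
  List.forall_mem_cons.2 ⟨⟨j285_0_1_0, j285_1_1_0, j285_2_1_0⟩,
  List.forall_mem_cons.2 ⟨⟨j287_0_1_0, j287_1_1_0, j287_2_1_0⟩,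
  List.forall_mem_cons.2 ⟨⟨j289_0_1_0, j289_1_1_0, j289_2_1_0⟩,
  List.forall_mem_cons.2 ⟨⟨j291_0_1_0, j291_1_1_0, j291_2_1_0⟩,
  List.forall_mem_cons.2 ⟨⟨j295_0_1_0, j295_1_1_0, j295_2_1_0⟩,
  List.forall_mem_cons.2 ⟨⟨j297_0_1_0, j297_1_1_0, j297_2_1_0⟩,
  List.forall_mem_cons.2 ⟨⟨j299_0_1_0, j299_1_1_0, j299_2_1_0⟩,
  List.forall_mem_cons.2 ⟨⟨j301_0_1_0, j301_1_1_0, j301_2_1_0⟩,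
  List.forall_mem_cons.2 ⟨⟨j303_0_1_0, j303_1_1_0, j303_2_1_0⟩,
  List.forall_mem_cons.2 ⟨⟨j305_0_1_0, j305_1_1_0, j305_2_1_0⟩,
  List.forall_mem_cons.2 ⟨⟨j309_0_1_0, j309_1_1_0, j309_2_1_0⟩,
  List.forall_mem_cons.2 ⟨⟨j315_0_1_0, j315_1_1_0, j315_2_1_0⟩,
  List.forall_mem_cons.2 ⟨⟨j319_0_1_0, j319_1_1_0, j319_2_1_0⟩,
  List.forall_mem_cons.2 ⟨⟨j321_0_1_0, j321_1_1_0, j321_2_1_0⟩,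
  List.forall_mem_cons.2 ⟨⟨j323_0_1_0, j323_1_1_0, j323_2_1_0⟩,
  List.forall_mem_cons.2 ⟨⟨j325_0_1_0, j325_1_1_0, j325_2_1_0⟩,
  List.forall_mem_cons.2 ⟨⟨j327_0_1_0, j327_1_1_0, j327_2_1_0⟩,
  List.forall_mem_cons.2 ⟨⟨j329_0_1_0, j329_1_1_0, j329_2_1_0⟩,
  List.forall_mem_cons.2 ⟨⟨j333_0_1_0, j333_1_1_0, j333_2_1_0⟩,
  List.forall_mem_cons.2 ⟨⟨j335_0_1_0, j335_1_1_0, j335_2_1_0⟩,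
  List.forall_mem_cons.2 ⟨⟨j339_0_1_0, j339_1_1_0, j339_2_1_0⟩,
  List.forall_mem_cons.2 ⟨⟨j341_0_1_0, j341_1_1_0, j341_2_1_0⟩,
  List.forall_mem_cons.2 ⟨⟨j343_0_1_0, j343_1_1_0, j343_2_1_0⟩,
  List.forall_mem_cons.2 ⟨⟨j345_0_1_0, j345_1_1_0, j345_2_1_0⟩,
  List.forall_mem_cons.2 ⟨⟨j351_0_1_0, j351_1_1_0, j351_2_1_0⟩,
  List.forall_mem_nil _⟩⟩⟩⟩⟩⟩⟩⟩⟩⟩⟩⟩⟩⟩⟩⟩⟩⟩⟩⟩⟩⟩⟩⟩⟩⟩⟩⟩⟩⟩⟩⟩⟩⟩⟩⟩⟩⟩⟩⟩⟩⟩⟩⟩⟩⟩⟩⟩⟩⟩⟩⟩⟩⟩⟩⟩⟩⟩⟩⟩⟩⟩⟩⟩⟩⟩⟩⟩⟩⟩⟩⟩⟩⟩⟩⟩⟩⟩⟩⟩⟩⟩⟩⟩⟩⟩⟩⟩⟩⟩⟩⟩⟩⟩⟩⟩⟩⟩⟩⟩⟩⟩⟩⟩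

theorem primes_list : ∀ d ∈ [17, 19, 23, 29, 31, 37, 41, 43, 47, 53, 59, 61, 67, 71, 73, 79, 83, 89, 97, 101, 103, 107, 109, 113, 127, 131, 137, 139, 149, 151, 157, 163, 167, 173, 179, 181, 191, 193, 197, 199, 211, 223, 227, 229, 233, 239, 241, 251, 257, 263, 269, 271, 277, 281, 283, 293, 307, 311, 313, 317, 331, 337, 347, 349], Nat.Prime d := by
  simp only [List.forall_mem_cons]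
  norm_num

theorem famA (d : ℕ) (h1 : 17 ≤ d) (h2 : d ≤ 351) (h3 : d % 2 = 1) (h4 : ¬ d.Prime) : J3 d 1 false :=
  famA_list d (((by decide +kernel : ∀ d, d ≤ 351 → 17 ≤ d → d % 2 = 1 → d ∈ [21, 25, 27, 33, 35, 39, 45, 49, 51, 55, 57, 63, 65, 69, 75, 77, 81, 85, 87, 91, 93, 95, 99, 105, 111, 115, 117, 119, 121, 123, 125, 129, 133, 135, 141, 143, 145, 147, 153, 155, 159, 161, 165, 169, 171, 175, 177, 183, 185, 187, 189, 195, 201, 203, 205, 207, 209, 213, 215, 217, 219, 221, 225, 231, 235, 237, 243, 245, 247, 249, 253, 255, 259, 261, 265, 267, 273, 275, 279, 285, 287, 289, 291, 295, 297, 299, 301, 303, 305, 309, 315, 319, 321, 323, 325, 327, 329, 333, 335, 339, 341, 343, 345, 351] ∨ d ∈ [17, 19, 23, 29, 31, 37, 41, 43, 47, 53, 59,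 61, 67, 71, 73, 79, 83, 89, 97, 101, 103, 107, 109, 113, 127, 131, 137, 139, 149, 151, 157, 163, 167, 173, 179, 181, 191, 193, 197, 199, 211, 223, 227, 229, 233, 239, 241, 251, 257, 263, 269, 271, 277, 281, 283, 293, 307, 311, 313, 317, 331, 337, 347, 349]) d h2 h1 h3).resolve_right fun h => h4 (primes_list d h))

theorem famB_list : ∀ d ∈ [19, 21, 23, 25, 27, 29, 31, 33, 35, 37, 39, 41, 43, 45, 47, 49, 51, 53, 55, 57, 59, 61, 63, 65, 67, 69, 71, 73, 75, 77, 79, 81, 83, 85, 87, 89, 91, 93, 95, 97, 99, 101, 103, 105, 107, 109, 111, 113, 115, 117, 119, 121, 123, 125, 127, 129, 131, 133, 135, 137, 139, 141, 143, 145], J3 d 3 true :=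
  List.forall_mem_cons.2 ⟨⟨j19_0_3_1, j19_1_3_1, j19_2_3_1⟩,
  List.forall_mem_cons.2 ⟨⟨j21_0_3_1, j21_1_3_1, j21_2_3_1⟩,
  List.forall_mem_cons.2 ⟨⟨j23_0_3_1, j23_1_3_1, j23_2_3_1⟩,
  List.forall_mem_cons.2 ⟨⟨j25_0_3_1, j25_1_3_1, j25_2_3_1⟩,
  List.forall_mem_cons.2 ⟨⟨j27_0_3_1, j27_1_3_1, j27_2_3_1⟩,
  List.forall_mem_cons.2 ⟨⟨j29_0_3_1, j29_1_3_1, j29_2_3_1⟩,
  List.forall_mem_cons.2 ⟨⟨j31_0_3_1, j31_1_3_1, j31_2_3_1⟩,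
  List.forall_mem_cons.2 ⟨⟨j33_0_3_1, j33_1_3_1, j33_2_3_1⟩,
  List.forall_mem_cons.2 ⟨⟨j35_0_3_1, j35_1_3_1, j35_2_3_1⟩,
  List.forall_mem_cons.2 ⟨⟨j37_0_3_1, j37_1_3_1, j37_2_3_1⟩,
  List.forall_mem_cons.2 ⟨⟨j39_0_3_1, j39_1_3_1, j39_2_3_1⟩,
  List.forall_mem_cons.2 ⟨⟨j41_0_3_1, j41_1_3_1, j41_2_3_1⟩,
  List.forall_mem_cons.2 ⟨⟨j43_0_3_1, j43_1_3_1, j43_2_3_1⟩,
  List.forall_mem_cons.2 ⟨⟨j45_0_3_1, j45_1_3_1, j45_2_3_1⟩,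
  List.forall_mem_cons.2 ⟨⟨j47_0_3_1, j47_1_3_1, j47_2_3_1⟩,
  List.forall_mem_cons.2 ⟨⟨j49_0_3_1, j49_1_3_1, j49_2_3_1⟩,
  List.forall_mem_cons.2 ⟨⟨j51_0_3_1, j51_1_3_1, j51_2_3_1⟩,
  List.forall_mem_cons.2 ⟨⟨j53_0_3_1, j53_1_3_1, j53_2_3_1⟩,
  List.forall_mem_cons.2 ⟨⟨j55_0_3_1, j55_1_3_1, j55_2_3_1⟩,
  List.forall_mem_cons.2 ⟨⟨j57_0_3_1, j57_1_3_1, j57_2_3_1⟩,
  List.forall_mem_cons.2 ⟨⟨j59_0_3_1, j59_1_3_1, j59_2_3_1⟩,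
  List.forall_mem_cons.2 ⟨⟨j61_0_3_1, j61_1_3_1, j61_2_3_1⟩,
  List.forall_mem_cons.2 ⟨⟨j63_0_3_1, j63_1_3_1, j63_2_3_1⟩,
  List.forall_mem_cons.2 ⟨⟨j65_0_3_1, j65_1_3_1, j65_2_3_1⟩,
  List.forall_mem_cons.2 ⟨⟨j67_0_3_1, j67_1_3_1, j67_2_3_1⟩,
  List.forall_mem_cons.2 ⟨⟨j69_0_3_1, j69_1_3_1, j69_2_3_1⟩,
  List.forall_mem_cons.2 ⟨⟨j71_0_3_1, j71_1_3_1, j71_2_3_1⟩,
  List.forall_mem_cons.2 ⟨⟨j73_0_3_1, j73_1_3_1, j73_2_3_1⟩,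
  List.forall_mem_cons.2 ⟨⟨j75_0_3_1, j75_1_3_1, j75_2_3_1⟩,
  List.forall_mem_cons.2 ⟨⟨j77_0_3_1, j77_1_3_1, j77_2_3_1⟩,
  List.forall_mem_cons.2 ⟨⟨j79_0_3_1, j79_1_3_1, j79_2_3_1⟩,
  List.forall_mem_cons.2 ⟨⟨j81_0_3_1, j81_1_3_1, j81_2_3_1⟩,
  List.forall_mem_cons.2 ⟨⟨j83_0_3_1, j83_1_3_1, j83_2_3_1⟩,
  List.forall_mem_cons.2 ⟨⟨j85_0_3_1, j85_1_3_1, j85_2_3_1⟩,
  List.forall_mem_cons.2 ⟨⟨j87_0_3_1, j87_1_3_1, j87_2_3_1⟩,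
  List.forall_mem_cons.2 ⟨⟨j89_0_3_1, j89_1_3_1, j89_2_3_1⟩,
  List.forall_mem_cons.2 ⟨⟨j91_0_3_1, j91_1_3_1, j91_2_3_1⟩,
  List.forall_mem_cons.2 ⟨⟨j93_0_3_1, j93_1_3_1, j93_2_3_1⟩,
  List.forall_mem_cons.2 ⟨⟨j95_0_3_1, j95_1_3_1, j95_2_3_1⟩,
  List.forall_mem_cons.2 ⟨⟨j97_0_3_1, j97_1_3_1, j97_2_3_1⟩,
  List.forall_mem_cons.2 ⟨⟨j99_0_3_1, j99_1_3_1, j99_2_3_1⟩,
  List.forall_mem_cons.2 ⟨⟨j101_0_3_1, j101_1_3_1, j101_2_3_1⟩,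
  List.forall_mem_cons.2 ⟨⟨j103_0_3_1, j103_1_3_1, j103_2_3_1⟩,
  List.forall_mem_cons.2 ⟨⟨j105_0_3_1, j105_1_3_1, j105_2_3_1⟩,
  List.forall_mem_cons.2 ⟨⟨j107_0_3_1, j107_1_3_1, j107_2_3_1⟩,
  List.forall_mem_cons.2 ⟨⟨j109_0_3_1, j109_1_3_1, j109_2_3_1⟩,
  List.forall_mem_cons.2 ⟨⟨j111_0_3_1, j111_1_3_1, j111_2_3_1⟩,
  List.forall_mem_cons.2 ⟨⟨j113_0_3_1, j113_1_3_1, j113_2_3_1⟩,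
  List.forall_mem_cons.2 ⟨⟨j115_0_3_1, j115_1_3_1, j115_2_3_1⟩,
  List.forall_mem_cons.2 ⟨⟨j117_0_3_1, j117_1_3_1, j117_2_3_1⟩,
  List.forall_mem_cons.2 ⟨⟨j119_0_3_1, j119_1_3_1, j119_2_3_1⟩,
  List.forall_mem_cons.2 ⟨⟨j121_0_3_1, j121_1_3_1, j121_2_3_1⟩,
  List.forall_mem_cons.2 ⟨⟨j123_0_3_1, j123_1_3_1, j123_2_3_1⟩,
  List.forall_mem_cons.2 ⟨⟨j125_0_3_1, j125_1_3_1, j125_2_3_1⟩,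
  List.forall_mem_cons.2 ⟨⟨j127_0_3_1, j127_1_3_1, j127_2_3_1⟩,
  List.forall_mem_cons.2 ⟨⟨j129_0_3_1, j129_1_3_1, j129_2_3_1⟩,
  List.forall_mem_cons.2 ⟨⟨j131_0_3_1, j131_1_3_1, j131_2_3_1⟩,
  List.forall_mem_cons.2 ⟨⟨j133_0_3_1, j133_1_3_1, j133_2_3_1⟩,
  List.forall_mem_cons.2 ⟨⟨j135_0_3_1, j135_1_3_1, j135_2_3_1⟩,
  List.forall_mem_cons.2 ⟨⟨j137_0_3_1, j137_1_3_1, j137_2_3_1⟩,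
  List.forall_mem_cons.2 ⟨⟨j139_0_3_1, j139_1_3_1, j139_2_3_1⟩,
  List.forall_mem_cons.2 ⟨⟨j141_0_3_1, j141_1_3_1, j141_2_3_1⟩,
  List.forall_mem_cons.2 ⟨⟨j143_0_3_1, j143_1_3_1, j143_2_3_1⟩,
  List.forall_mem_cons.2 ⟨⟨j145_0_3_1, j145_1_3_1, j145_2_3_1⟩,
  List.forall_mem_nil _⟩⟩⟩⟩⟩⟩⟩⟩⟩⟩⟩⟩⟩⟩⟩⟩⟩⟩⟩⟩⟩⟩⟩⟩⟩⟩⟩⟩⟩⟩⟩⟩⟩⟩⟩⟩⟩⟩⟩⟩⟩⟩⟩⟩⟩⟩⟩⟩⟩⟩⟩⟩⟩⟩⟩⟩⟩⟩⟩⟩⟩⟩⟩⟩

theorem famB (d : ℕ) (h1 : 19 ≤ d) (h2 : d ≤ 145) (h3 : d % 2 = 1) : J3 d 3 true :=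
  famB_list d ((by decide +kernel : ∀ d, d ≤ 145 → 19 ≤ d → d % 2 = 1 → d ∈ [19, 21, 23, 25, 27, 29, 31, 33, 35, 37, 39, 41, 43, 45, 47, 49, 51, 53, 55, 57, 59, 61, 63, 65, 67, 69, 71, 73, 75, 77, 79, 81, 83, 85, 87, 89, 91, 93, 95, 97, 99, 101, 103, 105, 107, 109, 111, 113, 115, 117, 119, 121, 123, 125, 127, 129, 131, 133, 135, 137, 139, 141, 143, 145]) d h2 h1 h3)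

theorem famC_list : ∀ d ∈ [7, 9, 11, 13, 15, 17], J3 d 3 false :=
  List.forall_mem_cons.2 ⟨⟨j7_0_3_0, j7_1_3_0, j7_2_3_0⟩,
  List.forall_mem_cons.2 ⟨⟨j9_0_3_0, j9_1_3_0, j9_2_3_0⟩,
  List.forall_mem_cons.2 ⟨⟨j11_0_3_0, j11_1_3_0, j11_2_3_0⟩,
  List.forall_mem_cons.2 ⟨⟨j13_0_3_0, j13_1_3_0, j13_2_3_0⟩,
  List.forall_mem_cons.2 ⟨⟨j15_0_3_0, j15_1_3_0, j15_2_3_0⟩,
  List.forall_mem_cons.2 ⟨⟨j17_0_3_0, j17_1_3_0, j17_2_3_0⟩,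
  List.forall_mem_nil _⟩⟩⟩⟩⟩⟩

theorem famC (d : ℕ) (h1 : 7 ≤ d) (h2 : d ≤ 17) (h3 : d % 2 = 1) : J3 d 3 false :=
  famC_list d ((by decide +kernel : ∀ d, d ≤ 17 → 7 ≤ d → d % 2 = 1 → d ∈ [7, 9, 11, 13, 15, 17]) d h2 h1 h3)

theorem famD_list : ∀ d ∈ [11, 13, 15, 17], J3 d 5 true :=
  List.forall_mem_cons.2 ⟨⟨j11_0_5_1, j11_1_5_1, j11_2_5_1⟩,
  List.forall_mem_cons.2 ⟨⟨j13_0_5_1, j13_1_5_1, j13_2_5_1⟩,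
  List.forall_mem_cons.2 ⟨⟨j15_0_5_1, j15_1_5_1, j15_2_5_1⟩,
  List.forall_mem_cons.2 ⟨⟨j17_0_5_1, j17_1_5_1, j17_2_5_1⟩,
  List.forall_mem_nil _⟩⟩⟩⟩

theorem famD (d : ℕ) (h1 : 11 ≤ d) (h2 : d ≤ 17) (h3 : d % 2 = 1) : J3 d 5 true :=
  famD_list d ((by decide +kernel : ∀ d, d ≤ 17 → 11 ≤ d → d % 2 = 1 → d ∈ [11, 13, 15, 17]) d h2 h1 h3)

theorem famE_list : ∀ d ∈ [7, 9], J3 d 5 false :=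
  List.forall_mem_cons.2 ⟨⟨j7_0_5_0, j7_1_5_0, j7_2_5_0⟩,
  List.forall_mem_cons.2 ⟨⟨j9_0_5_0, j9_1_5_0, j9_2_5_0⟩,
  List.forall_mem_nil _⟩⟩

theorem famE (d : ℕ) (h1 : 7 ≤ d) (h2 : d ≤ 9) (h3 : d % 2 = 1) : J3 d 5 false :=
  famE_list d ((by decide +kernel : ∀ d, d ≤ 9 → 7 ≤ d → d % 2 = 1 → d ∈ [7, 9]) d h2 h1 h3)

theorem famF_list : ∀ d ∈ [5, 7, 9], J3 d 7 true :=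
  List.forall_mem_cons.2 ⟨⟨j5_0_7_1, j5_1_7_1, j5_2_7_1⟩,
  List.forall_mem_cons.2 ⟨⟨j7_0_7_1, j7_1_7_1, j7_2_7_1⟩,
  List.forall_mem_cons.2 ⟨⟨j9_0_7_1, j9_1_7_1, j9_2_7_1⟩,
  List.forall_mem_nil _⟩⟩⟩

theorem famF (d : ℕ) (h1 : 5 ≤ d) (h2 : d ≤ 9) (h3 : d % 2 = 1) : J3 d 7 true :=
  famF_list d ((by decide +kernel : ∀ d, d ≤ 9 → 5 ≤ d → d % 2 = 1 → d ∈ [5, 7, 9]) d h2 h1 h3)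

end Pool.Agent.Lib.MP_7ad46c_co.Chk
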