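import Pool.Agent.Lib.MP_7ad46c_co.ChkB

/-!
Soundness of the trigonometric tables and of a whole job.
-/

set_option autoImplicit false

namespace Pool.Agent.Lib.MP_7ad46c_co.Chk

open Finset Complex

noncomputable def ez (d j : ℕ) : ℂ := exp (ang d j * I)

lemma norm_ez (d j : ℕ) : ‖ez d j‖ = 1 := norm_exp_ofReal_mul_I _

lemma ez_add (d i j : ℕ) : ez d (i + j) = ez d i * ez d j := by
  unfold ez ang
  rw [← Complex.exp_add]
  congr 1
  push_cast
  ring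

lemma ez_re (d j : ℕ) : (ez d j).re = Real.cos (ang d j) := exp_ofReal_mul_I_re _
lemma ez_im (d j : ℕ) : (ez d j).im = Real.sin (ang d j) := exp_ofReal_mul_I_im _

lemma floor_near {q : ℚ} (hq : 0 ≤ q) : |((⌊q⌋₊ : ℕ) : ℝ) - q| ≤ 1 := by
  have h1 : ((⌊q⌋₊ : ℕ) : ℝ) ≤ q := by exact_mod_cast Nat.floor_le hq
  have h2 : (q : ℝ) < (⌊q⌋₊ : ℕ) + 1 := by exact_mod_cast Nat.lt_floor_add_one q
  rw [abs_le]; constructor <;> linarith

lemma taylor {x : ℝ} (h0 : 0 ≤ x) (h1 : x ≤ 7 / 10) :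
    ‖exp (x * I) - (((1 - x ^ 2 / 2 + x ^ 4 / 24 - x ^ 6 / 720 + x ^ 8 / 40320 : ℝ) : ℂ) +
      ((x - x ^ 3 / 6 + x ^ 5 / 120 - x ^ 7 / 5040 + x ^ 9 / 362880 : ℝ) : ℂ) * I)‖ ≤
      x * (13 / 1000000000) := by
  have hn : ‖(x : ℂ) * I‖ = x := by simp [abs_of_nonneg h0]
  have h := Complex.exp_bound (x := x * I) (by rw [hn]; linarith) (n := 10) (by norm_num)
  have e : ∑ m ∈ range 10, ((x : ℂ) * I) ^ m / (m.factorial : ℂ) =
      (((1 - x ^ 2 / 2 + x ^ 4 / 24 - x ^ 6 / 720 + x ^ 8 / 40320 : ℝ) : ℂ) +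
      ((x - x ^ 3 / 6 + x ^ 5 / 120 - x ^ 7 / 5040 + x ^ 9 / 362880 : ℝ) : ℂ) * I) := by
    simp only [sum_range_succ, range_zero, sum_empty, Nat.factorial]
    push_cast
    have i2 : I ^ 2 = -1 := I_sq
    linear_combination (x ^ 2 / 2 + x ^ 3 / 6 * I + x ^ 4 / 24 * (I ^ 2 - 1) +
      x ^ 5 / 120 * (I ^ 3 - I) + x ^ 6 / 720 * (I ^ 4 - I ^ 2 + 1) +
      x ^ 7 / 5040 * (I ^ 5 - I ^ 3 + I) + x ^ 8 / 40320 * (I ^ 6 - I ^ 4 + I ^ 2 - 1) +
      x ^ 9 / 362880 * (I ^ 7 - I ^ 5 + I ^ 3 - I) : ℂ) * i2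
  rw [e, hn] at h
  refine h.trans ?_
  have h9 : x ^ 9 ≤ (7 / 10) ^ 9 := pow_le_pow_left₀ h0 h1 9
  have : x ^ 10 = x * x ^ 9 := by ring
  rw [this, mul_assoc]
  refine mul_le_mul_of_nonneg_left ?_ h0
  refine (mul_le_mul_of_nonneg_right h9 (by positivity)).trans ?_
  norm_num [Nat.factorial]

lemma base_near {d : ℕ} (h3 : 3 ≤ d) (hd : d ≤ 1000) :
    ‖((cosA d : ℂ) + (sinB d : ℂ) * I) - 2 ^ 40 * ez d 1‖ ≤ 2 ^ 40 * (1 / 10000000 / d) := by
  have hd3 : (3 : ℝ) ≤ d := by exact_mod_cast h3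
  have hd1 : (d : ℝ) ≤ 1000 := by exact_mod_cast hd
  have hd0 : (0 : ℝ) < d := by linarith
  set x : ℝ := (xq d : ℝ) with hx
  have hxe : x = 628318530718 / 300000000000 / d := by
    rw [hx]; unfold xq; push_cast; field_simp
  have hx0 : 0 ≤ x := by rw [hxe]; positivity
  have hx1 : x ≤ 7 / 10 := by rw [hxe, div_le_iff₀ hd0]; linarith
  have hq0 : (0 : ℚ) ≤ xq d := by unfold xq; positivity
  have hq1 : xq d ≤ 7 / 10 := by
    have : ((xq d : ℚ) : ℝ) ≤ ((7 / 10 : ℚ) : ℝ) := by push_cast; exact hx1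
    exact_mod_cast this
  have hA := floor_near (q := 1099511627776 *
    (1 - xq d ^ 2 / 2 + xq d ^ 4 / 24 - xq d ^ 6 / 720 + xq d ^ 8 / 40320)) (by
      have a2 : xq d ^ 2 ≤ (7 / 10) ^ 2 := pow_le_pow_left₀ hq0 hq1 2
      have a6 : xq d ^ 6 ≤ (7 / 10) ^ 6 := pow_le_pow_left₀ hq0 hq1 6
      have a4 : 0 ≤ xq d ^ 4 := by positivity
      have a8 : 0 ≤ xq d ^ 8 := by positivity
      linarith)
  have hB := floor_near (q := 1099511627776 *
    (xq d - xq d ^ 3 / 6 + xq d ^ 5 / 120 - xq d ^ 7 / 5040 + xq d ^ 9 / 362880)) (by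
      have a2 : xq d ^ 2 ≤ (7 / 10) ^ 2 := pow_le_pow_left₀ hq0 hq1 2
      have a6 : xq d ^ 6 ≤ (7 / 10) ^ 6 := pow_le_pow_left₀ hq0 hq1 6
      have b2 := mul_le_mul_of_nonneg_left a2 hq0
      have b6 := mul_le_mul_of_nonneg_left a6 hq0
      have a4 : 0 ≤ xq d ^ 5 := by positivity
      have a8 : 0 ≤ xq d ^ 9 := by positivity
      nlinarith)
  change |((cosA d : ℕ) : ℝ) - _| ≤ 1 at hA
  change |((sinB d : ℕ) : ℝ) - _| ≤ 1 at hB
  push_cast at hA hB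
  rw [← hx] at hA hB
  have hT := taylor hx0 hx1
  set cp : ℝ := 1 - x ^ 2 / 2 + x ^ 4 / 24 - x ^ 6 / 720 + x ^ 8 / 40320
  set sp : ℝ := x - x ^ 3 / 6 + x ^ 5 / 120 - x ^ 7 / 5040 + x ^ 9 / 362880
  have hP : ‖exp (x * I) - ez d 1‖ ≤ 1 / 100000000000 / d := by
    have e : exp (x * I) - ez d 1 = ez d 1 * (exp (I * ((x - ang d 1 : ℝ) : ℂ)) - 1) := by
      unfold ez
      rw [mul_sub, ← Complex.exp_add]
      congr 2
      · push_cast; ring
      · simp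
    rw [e, norm_mul, norm_ez, one_mul]
    refine Real.norm_exp_I_mul_ofReal_sub_one_le.trans ?_
    have e2 : x - ang d 1 = (628318530718 / 300000000000 - 2 * Real.pi / 3) / d := by
      rw [hxe]; unfold ang; push_cast; field_simp
    rw [e2, Real.norm_eq_abs, abs_div, abs_of_pos hd0]
    refine div_le_div_of_nonneg_right ?_ hd0.le
    have p1 := Real.pi_gt_d20
    have p2 := Real.pi_lt_d20
    rw [abs_le]; constructor <;> linarith
  have e : ((cosA d : ℂ) + (sinB d : ℂ) * I) - 2 ^ 40 * ez d 1 =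
      ((((cosA d : ℝ) - 1099511627776 * cp : ℝ) : ℂ) +
        (((sinB d : ℝ) - 1099511627776 * sp : ℝ) : ℂ) * I) -
      2 ^ 40 * (exp (x * I) - ((cp : ℂ) + (sp : ℂ) * I)) + 2 ^ 40 * (exp (x * I) - ez d 1) := by
    push_cast; ring
  rw [e]
  have n1 : ‖(((cosA d : ℝ) - 1099511627776 * cp : ℝ) : ℂ) +
      (((sinB d : ℝ) - 1099511627776 * sp : ℝ) : ℂ) * I‖ ≤ 2 := by
    refine (norm_add_le _ _).trans ?_
    rw [norm_mul, norm_I, mul_one, norm_real, norm_real, Real.norm_eq_abs, Real.norm_eq_abs]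
    linarith
  have n2 : ‖(2 : ℂ) ^ 40‖ = 2 ^ 40 := by simp
  refine (norm_add_le _ _).trans ?_
  refine (add_le_add_left (norm_sub_le _ _) _).trans ?_
  rw [norm_mul, norm_mul, n2]
  have n3 : (2 : ℝ) ≤ 2000 / d := by rw [le_div_iff₀ hd0]; linarith
  have n4 : x * (13 / 1000000000) = 628318530718 / 300000000000 * (13 / 1000000000) / d := by
    rw [hxe]; ring
  rw [n4] at hT
  have n5 : 0 < 1 / (d : ℝ) := by positivity
  rw [div_eq_mul_one_div _ (d : ℝ)] at hT hP n3 ⊢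
  linarith

def rotX (A B X Y : ℕ) : ℕ :=
  (X * A + 2199023255552 * (1099511627776 + B) - (Y * B + 2199023255552 * A)) >>> 40
def rotY (A B X Y : ℕ) : ℕ :=
  (X * B + Y * A + 2417851639229258349412352 - 2199023255552 * (A + B)) >>> 40

lemma rot_eq (A B X Y : ℕ) (k : ℕ → ℕ → ℕ) : rot A B X Y k = k (rotX A B X Y) (rotY A B X Y) := by
  unfold rot
  rw [force_eq, force_eq]
  rfl

/-- The offset pair approximates the root of unity. -/
def Near (d j X Y : ℕ) : Prop :=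
  ‖(((X : ℝ) - 2 ^ 41 : ℝ) : ℂ) + (((Y : ℝ) - 2 ^ 41 : ℝ) : ℂ) * I - 2 ^ 40 * ez d j‖ ≤
    j * (2 ^ 41 * (1 / 10000000 / d) + 2)

lemma shift_near (n k : ℕ) : ((n >>> k : ℕ) : ℝ) ≤ n / 2 ^ k ∧ (n : ℝ) / 2 ^ k - 1 ≤ (n >>> k : ℕ) := by
  rw [Nat.shiftRight_eq_div_pow]
  have h1 := Nat.div_add_mod n (2 ^ k)
  have h2 := Nat.mod_lt n (show 0 < 2 ^ k by positivity)
  have h3 : (2 : ℝ) ^ k * (n / 2 ^ k : ℕ) + (n % 2 ^ k : ℕ) = n := by exact_mod_cast h1
  have h4 : ((n % 2 ^ k : ℕ) : ℝ) < 2 ^ k := by exact_mod_cast h2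
  have h5 : (0 : ℝ) < 2 ^ k := by positivity
  have h6 := Nat.cast_nonneg (α := ℝ) (n % 2 ^ k)
  constructor
  · rw [le_div_iff₀ h5]; linarith
  · rw [sub_le_iff_le_add, div_le_iff₀ h5]; linarith

lemma err_le {d j : ℕ} (h3 : 3 ≤ d) (hd : d ≤ 1000) (hj : j ≤ 4 * d) :
    (j : ℝ) * (2 ^ 41 * (1 / 10000000 / d) + 2) ≤ 2 ^ 24 := by
  have hd3 : (3 : ℝ) ≤ d := by exact_mod_cast h3
  have hd1 : (d : ℝ) ≤ 1000 := by exact_mod_cast hd
  have hj' : (j : ℝ) ≤ 4 * d := by exact_mod_cast hj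
  refine (mul_le_mul_of_nonneg_right hj' (by positivity)).trans ?_
  have : 4 * (d : ℝ) * (2 ^ 41 * (1 / 10000000 / d) + 2) = 4 * 2 ^ 41 / 10000000 + 8 * d := by
    field_simp; ring
  rw [this]; linarith

lemma near_rot {d j X Y : ℕ} (h3 : 3 ≤ d) (hd : d ≤ 1000) (hj : j + 1 ≤ 4 * d) (h : Near d j X Y) :
    Near d (j + 1) (rotX (cosA d) (sinB d) X Y) (rotY (cosA d) (sinB d) X Y) := by
  unfold Near at *
  have hb := base_near h3 hd
  have he := err_le h3 hd (show j ≤ 4 * d by omega)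
  have he' := err_le h3 hd hj
  set ε : ℝ := 1 / 10000000 / d with hε
  have hε0 : 0 ≤ ε := by positivity
  set A := cosA d
  set B := sinB d
  set z : ℂ := (((X : ℝ) - 2 ^ 41 : ℝ) : ℂ) + (((Y : ℝ) - 2 ^ 41 : ℝ) : ℂ) * I with hz
  have n2 : ‖(2 : ℂ) ^ 40‖ = 2 ^ 40 := by simp
  have hzn : ‖z‖ ≤ 2 ^ 41 := by
    have : z = (z - 2 ^ 40 * ez d j) + 2 ^ 40 * ez d j := by ring
    rw [this]
    refine (norm_add_le _ _).trans ?_
    rw [norm_mul, n2, norm_ez]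
    linarith
  set u : ℝ := ((X - 2 ^ 41) * A - (Y - 2 ^ 41) * B) / 2 ^ 40 with hu
  set v : ℝ := ((X - 2 ^ 41) * B + (Y - 2 ^ 41) * A) / 2 ^ 40 with hv
  have hw : ‖(u : ℂ) + v * I - 2 ^ 40 * ez d (j + 1)‖ ≤ j * (2 ^ 41 * ε + 2) + 2 ^ 41 * ε := by
    have e : (u : ℂ) + v * I - 2 ^ 40 * ez d (j + 1) = (z - 2 ^ 40 * ez d j) * ez d 1 +
        z * (((A : ℂ) + (B : ℂ) * I) - 2 ^ 40 * ez d 1) / 2 ^ 40 := by
      rw [ez_add, hu, hv, hz]
      push_cast
      have i2 : I ^ 2 = -1 := I_sq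
      linear_combination (-((Y : ℂ) - 2 ^ 41) * B / 2 ^ 40) * i2
    rw [e]
    refine (norm_add_le _ _).trans ?_
    rw [norm_mul, norm_ez, mul_one, norm_div, norm_mul, n2]
    refine add_le_add h ?_
    rw [div_le_iff₀ (by positivity)]
    calc _ ≤ 2 ^ 41 * (2 ^ 40 * ε) := mul_le_mul hzn hb (norm_nonneg _) (by positivity)
      _ = _ := by ring
  have hwn : ‖(u : ℂ) + v * I‖ ≤ 2 ^ 41 := by
    have : (u : ℂ) + v * I = ((u : ℂ) + v * I - 2 ^ 40 * ez d (j + 1)) + 2 ^ 40 * ez d (j + 1) := by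
      ring
    rw [this]
    refine (norm_add_le _ _).trans ?_
    rw [norm_mul, n2, norm_ez]
    push_cast at he'
    linarith
  have hu1 : |u| ≤ 2 ^ 41 := by
    have := abs_re_le_norm ((u : ℂ) + v * I)
    simp only [add_re, ofReal_re, mul_re, I_re, mul_zero, ofReal_im, I_im, mul_one, sub_self,
      add_zero] at this
    linarith
  have hv1 : |v| ≤ 2 ^ 41 := by
    have := abs_im_le_norm ((u : ℂ) + v * I)
    simp only [add_im, ofReal_re, mul_im, I_re, mul_zero, ofReal_im, I_im, mul_one, zero_add,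
      add_zero] at this
    linarith
  have key : ∀ (p q : ℕ) (t : ℝ), |t| ≤ 2 ^ 41 → (p : ℝ) - q = 2 ^ 40 * (t + 2 ^ 41) →
      |(((p - q) >>> 40 : ℕ) : ℝ) - 2 ^ 41 - t| ≤ 1 := by
    intro p q t ht hpq
    have h1 : q ≤ p := by
      have : (q : ℝ) ≤ p := by have := (abs_le.1 ht).1; linarith
      exact_mod_cast this
    obtain ⟨a1, a2⟩ := shift_near (p - q) 40
    rw [Nat.cast_sub h1, hpq] at a1 a2
    rw [abs_le]; constructor <;> linarith
  have kx := key (X * A + 2199023255552 * (1099511627776 + B)) (Y * B + 2199023255552 * A) u hu1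
    (by rw [hu]; push_cast; ring)
  have ky := key (X * B + Y * A + 2417851639229258349412352) (2199023255552 * (A + B)) v hv1
    (by rw [hv]; push_cast; ring)
  change |((rotX A B X Y : ℕ) : ℝ) - 2 ^ 41 - u| ≤ 1 at kx
  change |((rotY A B X Y : ℕ) : ℝ) - 2 ^ 41 - v| ≤ 1 at ky
  have e : (((rotX A B X Y : ℝ) - 2 ^ 41 : ℝ) : ℂ) + (((rotY A B X Y : ℝ) - 2 ^ 41 : ℝ) : ℂ) * I -
      2 ^ 40 * ez d (j + 1) = ((((rotX A B X Y : ℝ) - 2 ^ 41 - u : ℝ) : ℂ) +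
        (((rotY A B X Y : ℝ) - 2 ^ 41 - v : ℝ) : ℂ) * I) +
      ((u : ℂ) + v * I - 2 ^ 40 * ez d (j + 1)) := by push_cast; ring
  rw [e]
  refine (norm_add_le _ _).trans ?_
  refine (add_le_add_left (norm_add_le _ _) _).trans ?_
  rw [norm_mul, norm_I, mul_one, norm_real, norm_real, Real.norm_eq_abs, Real.norm_eq_abs]
  push_cast
  linarith

lemma near_zero (d : ℕ) : Near d 0 3298534883328 2199023255552 := by
  unfold Near ez ang
  norm_num

lemma near_comp {d j X Y : ℕ} (h3 : 3 ≤ d) (hd : d ≤ 1000) (hj : j ≤ 4 * d) (h : Near d j X Y) :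
    |(X : ℝ) - 2 ^ 41 - 2 ^ 40 * Real.cos (ang d j)| ≤ 2 ^ 24 ∧
      |(Y : ℝ) - 2 ^ 41 - 2 ^ 40 * Real.sin (ang d j)| ≤ 2 ^ 24 := by
  have h1 := le_trans h (err_le h3 hd hj)
  have e : (((X : ℝ) - 2 ^ 41 : ℝ) : ℂ) + (((Y : ℝ) - 2 ^ 41 : ℝ) : ℂ) * I - 2 ^ 40 * ez d j =
      (((X : ℝ) - 2 ^ 41 - 2 ^ 40 * Real.cos (ang d j) : ℝ) : ℂ) +
        (((Y : ℝ) - 2 ^ 41 - 2 ^ 40 * Real.sin (ang d j) : ℝ) : ℂ) * I := by
    unfold ez
    rw [exp_mul_I]
    push_cast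
    ring
  rw [e] at h1
  constructor
  · have := (abs_re_le_norm _).trans h1
    simpa only [add_re, ofReal_re, mul_re, I_re, mul_zero, ofReal_im, I_im, mul_one, sub_self,
      add_zero] using this
  · have := (abs_im_le_norm _).trans h1
    simpa only [add_im, ofReal_re, mul_im, I_re, mul_zero, ofReal_im, I_im, mul_one, zero_add,
      add_zero] using this

lemma cast_sub_ge (p q : ℕ) : (p : ℝ) - q ≤ (p - q : ℕ) := by
  rcases le_total q p with h | h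
  · rw [Nat.cast_sub h]
  · have : (p : ℝ) ≤ q := by exact_mod_cast h
    have := Nat.cast_nonneg (α := ℝ) (p - q)
    linarith

lemma entP_bound {X : ℕ} {t : ℝ} (h : |(X : ℝ) - 2 ^ 41 - 2 ^ 40 * t| ≤ 2 ^ 24) :
    entP X ≤ 196610 ∧ 65536 * (1 - t) ≤ entP X := by
  have e : entP X = (3298534883328 - X) >>> 24 + 2 := rfl
  constructor
  · rw [e, Nat.shiftRight_eq_div_pow]; omega
  · have a1 := (shift_near (3298534883328 - X) 24).2
    have a2 := cast_sub_ge 3298534883328 X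
    have a3 := (abs_le.1 h).2
    rw [e]
    push_cast at a2 ⊢
    linarith

lemma entM_bound {Y : ℕ} {t : ℝ} (ht : t ≤ 1) (h : |(Y : ℝ) - 2 ^ 41 - 2 ^ 40 * t| ≤ 2 ^ 24) :
    entM Y ≤ 196610 ∧ 65536 * (1 + t) ≤ entM Y := by
  have e : entM Y = (Y - 1099511627776) >>> 24 + 2 := rfl
  obtain ⟨a3, a4⟩ := abs_le.1 h
  constructor
  · have : Y ≤ 3298551660544 := by
      have : (Y : ℝ) ≤ 3298551660544 := by linarith
      exact_mod_cast this
    rw [e, Nat.shiftRight_eq_div_pow]; omega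
  · have a1 := (shift_near (Y - 1099511627776) 24).2
    have a2 := cast_sub_ge Y 1099511627776
    rw [e]
    push_cast at a2 ⊢
    linarith

lemma pk_succ (c : ℕ → ℕ) (p x : ℕ) :
    Nat.add (pk c p) (Nat.shiftLeft x (25 * p)) = pk (Function.update c p x) (p + 1) := by
  change pk c p + x <<< (25 * p) = _
  unfold pk
  rw [sum_range_succ, Function.update_self, Nat.shiftLeft_eq]
  congr 1
  exact sum_congr rfl fun q hq => by
    rw [Function.update_of_ne (by have := mem_range.1 hq; omega)]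

lemma tab_sound {d r : ℕ} (h3 : 3 ≤ d) (hd : d ≤ 1000) (hr : r ≤ 2) (k : ℕ → ℕ → ℕ → ℕ → ℕ)
    (n : ℕ) : ∀ p X Y TC TP TM TO c sp sm, p + n = d → Near d (3 * p + r) X Y →
      Tabs d r p TC TP TM TO c sp sm → ∃ TC' TP' TM' TO' c' sp' sm',
      tab (cosA d) (sinB d) k n (25 * p) X Y TC TP TM TO = k TC' TP' TM' TO' ∧
      Tabs d r d TC' TP' TM' TO' c' sp' sm' := by
  induction n with
  | zero =>
    intro p X Y TC TP TM TO c sp sm hp _ T
    obtain rfl : p = d := by omega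
    exact ⟨_, _, _, _, _, _, _, rfl, T⟩
  | succ n ih =>
    intro p X Y TC TP TM TO c sp sm hp hN T
    have e : tab (cosA d) (sinB d) k (n + 1) (25 * p) X Y TC TP TM TO =
      rot (cosA d) (sinB d) X Y fun X1 Y1 => rot (cosA d) (sinB d) X1 Y1 fun X2 Y2 =>
        rot (cosA d) (sinB d) X2 Y2 fun X3 Y3 =>
        tab (cosA d) (sinB d) k n (25 * p + 25) X3 Y3
          (Nat.add TC (Nat.shiftLeft (entP X) (25 * p)))
          (Nat.add TP (Nat.shiftLeft (entP Y) (25 * p)))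
          (Nat.add TM (Nat.shiftLeft (entM Y) (25 * p)))
          (Nat.add TO (Nat.shiftLeft 1 (25 * p))) := rfl
    rw [e, rot_eq, rot_eq, rot_eq, show 25 * p + 25 = 25 * (p + 1) by ring]
    have N3 := near_rot h3 hd (by omega) (near_rot h3 hd (by omega) (near_rot h3 hd (by omega) hN))
    rw [show 3 * p + r + 1 + 1 + 1 = 3 * (p + 1) + r by ring] at N3
    obtain ⟨c1, c2⟩ := near_comp h3 hd (by omega) hN
    refine ih (p + 1) _ _ _ _ _ _ (Function.update c p (entP X)) (Function.update sp p (entP Y))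
      (Function.update sm p (entM Y)) (by omega) N3 ⟨?_, ?_, ?_, ?_, ?_, ?_, ?_⟩
    · rw [T.tc, pk_succ]
    · rw [T.tp, pk_succ]
    · rw [T.tm, pk_succ]
    · rw [T.tn, pk_succ]; simp
    · intro q hq
      rcases Nat.lt_succ_iff_lt_or_eq.1 hq with h | rfl
      · rw [Function.update_of_ne h.ne]; exact T.bc q h
      · rw [Function.update_self]; exact entP_bound c1
    · intro q hq
      rcases Nat.lt_succ_iff_lt_or_eq.1 hq with h | rfl
      · rw [Function.update_of_ne h.ne]; exact T.bp q h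
      · rw [Function.update_self]; exact entP_bound c2
    · intro q hq
      rcases Nat.lt_succ_iff_lt_or_eq.1 hq with h | rfl
      · rw [Function.update_of_ne h.ne]; exact T.bm q h
      · rw [Function.update_self]; exact entM_bound (Real.sin_le_one _) c2

lemma rots_sound {d : ℕ} (h3 : 3 ≤ d) (hd : d ≤ 1000) (k : ℕ → ℕ → ℕ) (n : ℕ) :
    ∀ j X Y, j + n ≤ 4 * d → Near d j X Y → ∃ X' Y',
      rots (cosA d) (sinB d) k n X Y = k X' Y' ∧ Near d (j + n) X' Y' := by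
  induction n with
  | zero => intro j X Y _ h; exact ⟨X, Y, rfl, h⟩
  | succ n ih =>
    intro j X Y hj h
    have e : rots (cosA d) (sinB d) k (n + 1) X Y =
      rot (cosA d) (sinB d) X Y (rots (cosA d) (sinB d) k n) := rfl
    rw [e, rot_eq, show j + (n + 1) = j + 1 + n by ring]
    exact ih _ _ _ (by omega) (near_rot h3 hd (by omega) h)

end Pool.Agent.Lib.MP_7ad46c_co.Chk
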