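import Pool.Agent.Lib.MP_7ad46c_co.Strip
import Pool.Agent.Lib.MP_7ad46c_co.ChkC

/-!
The Fourier step: a large coefficient in the direction opposite to the missed element.
-/

set_option autoImplicit false

namespace Pool.Agent.Lib.MP_7ad46c_co

open Finset Complex

noncomputable def ft {n : ℕ} [NeZero n] (A : Finset (ZMod n)) (j : ZMod n) : ℂ :=
  ∑ a ∈ A, ZMod.stdAddChar (j * a)

lemma orth {n : ℕ} [NeZero n] (b : ZMod n) :
    ∑ j : ZMod n, ZMod.stdAddChar (j * b) = if b = 0 then (n : ℂ) else 0 := by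
  rw [AddChar.sum_mulShift b (ZMod.isPrimitive_stdAddChar n), ZMod.card]
  split_ifs <;> simp

lemma conj_char {n : ℕ} [NeZero n] (x : ZMod n) :
    (starRingEnd ℂ) (ZMod.stdAddChar x) = ZMod.stdAddChar (-x) := by
  rw [AddChar.map_neg_eq_inv, ZMod.stdAddChar_apply, ← Circle.coe_inv_eq_conj, Circle.coe_inv]

lemma parseval {n : ℕ} [NeZero n] (A : Finset (ZMod n)) :
    ∑ j : ZMod n, normSq (ft A j) = n * #A := by
  have h : ∑ j : ZMod n, (normSq (ft A j) : ℂ) = n * #A := by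
    have e : ∀ j : ZMod n, (normSq (ft A j) : ℂ) =
        ∑ a ∈ A, ∑ b ∈ A, ZMod.stdAddChar (j * (a - b)) := by
      intro j
      rw [← mul_conj]
      unfold ft
      rw [map_sum, sum_mul_sum]
      refine sum_congr rfl fun a _ => sum_congr rfl fun b _ => ?_
      rw [conj_char, ← AddChar.map_add_eq_mul]
      congr 1; ring
    simp_rw [e]
    rw [sum_comm]
    have : ∀ a ∈ A, ∑ j : ZMod n, ∑ b ∈ A, ZMod.stdAddChar (j * (a - b)) = (n : ℂ) := by
      intro a ha
      rw [sum_comm]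
      simp_rw [orth, sub_eq_zero]
      rw [sum_ite_eq, if_pos ha]
    rw [sum_congr rfl this, sum_const, nsmul_eq_mul, mul_comm]
  exact_mod_cast h

lemma cubes {n : ℕ} [NeZero n] (hodd : Odd n) {A : Finset (ZMod n)} {g : ZMod n}
    (hg : g ∉ rsum3 A) :
    ∑ j : ZMod n, (ft A j ^ 3 * ZMod.stdAddChar (-(j * g))).re ≤ n * (3 * #A) := by
  have e : ∀ j : ZMod n, ft A j ^ 3 * ZMod.stdAddChar (-(j * g)) =
      ∑ c ∈ A, ∑ a ∈ A, ∑ b ∈ A, ZMod.stdAddChar (j * (b - (g - c - a))) := by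
    intro j
    unfold ft
    rw [pow_three, sum_mul_sum, sum_mul, sum_mul]
    refine sum_congr rfl fun c _ => ?_
    rw [mul_sum, sum_mul]
    refine sum_congr rfl fun a _ => ?_
    rw [mul_sum, sum_mul]
    refine sum_congr rfl fun b _ => ?_
    rw [← AddChar.map_add_eq_mul, ← AddChar.map_add_eq_mul, ← AddChar.map_add_eq_mul]
    congr 1; ring
  have h : ∑ j : ZMod n, ft A j ^ 3 * ZMod.stdAddChar (-(j * g)) =
      ((n * ∑ c ∈ A, #{a ∈ A | g - c - a ∈ A} : ℕ) : ℂ) := by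
    simp_rw [e]
    rw [sum_comm]
    push_cast
    rw [mul_sum]
    refine sum_congr rfl fun c _ => ?_
    rw [sum_comm, card_filter]
    push_cast
    rw [mul_sum]
    refine sum_congr rfl fun a _ => ?_
    rw [sum_comm]
    simp_rw [orth, sub_eq_zero]
    rw [sum_ite_eq']
    split_ifs <;> simp
  rw [← re_sum, h, natCast_re]
  have : ∑ c ∈ A, #{a ∈ A | g - c - a ∈ A} ≤ 3 * #A := by
    refine (sum_le_sum fun c hc => reps_three hodd hg hc).trans ?_
    rw [sum_const, smul_eq_mul, mul_comm]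
  exact_mod_cast Nat.mul_le_mul_left n this

theorem fourier {n : ℕ} [NeZero n] (hodd : Odd n) {A : Finset (ZMod n)} {g : ZMod n}
    (hg : g ∉ rsum3 A) (h0 : 0 < #A) (h1 : #A < n) : ∃ j : ZMod n, j ≠ 0 ∧ ft A j ≠ 0 ∧
      ((#A : ℝ) ^ 2 - 3 * n) * normSq (ft A j) ≤
        ((n : ℝ) - #A) * (-(ft A j ^ 3 * ZMod.stdAddChar (-(j * g))).re) := by
  by_contra hcon
  simp only [not_exists, not_and, not_le] at hcon
  have p1 := parseval A
  have p2 := cubes hodd hg
  have f0 : ft A 0 = (#A : ℝ) := by simp [ft]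
  rw [← add_sum_erase _ _ (mem_univ 0), f0] at p1 p2
  rw [normSq_ofReal] at p1
  have e : ((((#A : ℝ) : ℂ)) ^ 3 * ZMod.stdAddChar (-((0 : ZMod n) * g))).re = (#A : ℝ) ^ 3 := by
    rw [zero_mul, neg_zero, AddChar.map_zero_eq_one, mul_one, ← ofReal_pow, ofReal_re]
  rw [e] at p2
  have m0 : (0 : ℝ) < #A := by exact_mod_cast h0
  have m1 : (#A : ℝ) < n := by exact_mod_cast h1
  have hex : ∃ j ∈ (univ : Finset (ZMod n)).erase 0, ft A j ≠ 0 := by
    by_contra hc
    simp only [not_exists, not_and, not_not] at hc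
    rw [sum_eq_zero fun j hj => by rw [hc j hj, map_zero]] at p1
    nlinarith
  obtain ⟨j0, hj0, hj1⟩ := hex
  have := sum_lt_sum (s := (univ : Finset (ZMod n)).erase 0)
    (f := fun j => ((n : ℝ) - #A) * (-(ft A j ^ 3 * ZMod.stdAddChar (-(j * g))).re))
    (g := fun j => ((#A : ℝ) ^ 2 - 3 * n) * normSq (ft A j)) (fun j hj => by
      by_cases hz : ft A j = 0
      · simp [hz]
      · exact (hcon j (ne_of_mem_erase hj) hz).le) ⟨j0, hj0, hcon j0 (ne_of_mem_erase hj0) hj1⟩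
  rw [← mul_sum, ← mul_sum, sum_neg_distrib] at this
  have p3 : ∑ j ∈ (univ : Finset (ZMod n)).erase 0, normSq (ft A j) = n * #A - #A * #A := by
    linarith
  rw [p3] at this
  have p4 := mul_le_mul_of_nonneg_left p2 (sub_nonneg.2 m1.le)
  nlinarith

open Chk

lemma ez_per {d : ℕ} (hd : 0 < d) (q : ℕ) : ez d (3 * d * q) = 1 := by
  unfold ez ang
  have hd' : (d : ℂ) ≠ 0 := by exact_mod_cast hd.ne'
  rw [← exp_nat_mul_two_pi_mul_I q]
  congr 1
  push_cast
  field_simp

lemma ez_mod {d : ℕ} (hd : 0 < d) (x y : ℕ) : ez d (3 * (x % d) + y) = ez d (3 * x + y) := by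
  conv_rhs => rw [← Nat.div_add_mod x d]
  rw [show 3 * (d * (x / d) + x % d) + y = 3 * d * (x / d) + (3 * (x % d) + y) by ring,
    ez_add d (3 * d * (x / d)), ez_per hd, one_mul]

lemma char_eq {n d h : ℕ} [NeZero n] (hn : n = d * h) (y : ZMod n) :
    ZMod.stdAddChar ((h : ZMod n) * y) = ez d (3 * y.val) := by
  have hne := NeZero.ne n
  have hd : (d : ℂ) ≠ 0 := by
    have : d ≠ 0 := by rintro rfl; simp at hn; exact hne hn
    exact_mod_cast this
  have hh : (h : ℂ) ≠ 0 := by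
    have : h ≠ 0 := by rintro rfl; simp at hn; exact hne hn
    exact_mod_cast this
  have e : (h : ZMod n) * y = ((h * y.val : ℕ) : ℤ) := by
    push_cast; rw [ZMod.natCast_zmod_val]
  rw [e, ZMod.stdAddChar_coe]
  unfold ez ang
  congr 1
  have : (n : ℂ) = d * h := by exact_mod_cast hn
  rw [this]
  push_cast
  field_simp

lemma val_mod {n d : ℕ} [NeZero n] (hdn : d ∣ n) (y : ZMod n) (t : ℕ) :
    (y + (t : ZMod n)).val % d = (y.val + t) % d := by
  have := fib_add hdn y t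
  unfold fib at this
  rw [this, ZMod.val_natCast, Nat.mod_mod_of_dvd _ hdn, ← Nat.add_mod]

lemma ez_third {d : ℕ} (hd : 0 < d) : 1 + ez d d + ez d d * ez d d = 0 := by
  have hd' : (d : ℝ) ≠ 0 := by exact_mod_cast hd.ne'
  have e : ang d d = 2 * Real.pi / 3 := by unfold ang; field_simp
  have h3 : √3 * √3 = 3 := Real.mul_self_sqrt (by norm_num)
  apply Complex.ext
  · simp only [add_re, one_re, mul_re, ez_re, ez_im, e, cos_23, sin_23, zero_re]
    linarith
  · simp only [add_im, one_im, mul_im, ez_re, ez_im, e, cos_23, sin_23, zero_im]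
    ring

lemma exists_rot {S ρ : ℂ} (hρ : 1 + ρ + ρ * ρ = 0) (h : (S ^ 3).re < 0) :
    S.re < 0 ∨ (S * ρ).re < 0 ∨ (S * ρ * ρ).re < 0 := by
  by_contra hc
  simp only [not_or, not_lt] at hc
  obtain ⟨h1, h2, h3⟩ := hc
  have e : S.re + (S * ρ).re + (S * ρ * ρ).re = 0 := by
    rw [← add_re, ← add_re, show S + S * ρ + S * ρ * ρ = S * (1 + ρ + ρ * ρ) by ring, hρ]
    simp
  have h0 : S.re = 0 := by linarith
  rw [pow_three] at h
  simp [mul_re, mul_im, h0] at h

lemma prof_sum {n d r : ℕ} (hd : 0 < d) (A : Finset (ZMod n)) :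
    ∑ x ∈ A, ez d (3 * x.val + r) = -(⟨PX d r (cnt d A), PY d r (cnt d A)⟩ : ℂ) := by
  have e : ∑ x ∈ A, ez d (3 * x.val + r) = ∑ p ∈ range d, (cnt d A p : ℂ) * ez d (3 * p + r) := by
    rw [← sum_fiberwise_of_maps_to (g := fib d) (t := range d)
      (fun x _ => mem_range.2 (fib_lt hd x))]
    refine sum_congr rfl fun p _ => ?_
    rw [sum_congr rfl (g := fun _ => ez d (3 * p + r)) fun x hx => by
      rw [← (mem_filter.1 hx).2, fib, ez_mod hd], sum_const, nsmul_eq_mul]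
    rfl
  rw [e]
  apply Complex.ext
  · simp only [re_sum, neg_re, PX, ← sum_neg_distrib, mul_re, natCast_re, natCast_im, ez_re]
    exact sum_congr rfl fun p _ => by ring
  · simp only [im_sum, neg_im, PY, ← sum_neg_distrib, mul_im, natCast_re, natCast_im, ez_im]
    exact sum_congr rfl fun p _ => by ring

theorem exists_prof {n : ℕ} [NeZero n] (hn : 17 ≤ n) (hodd : Odd n) {A : Finset (ZMod n)}
    {g : ZMod n} (hg : g ∉ rsum3 A) (hA : n + 8 ≤ 3 * #A) : ∃ (d h r t : ℕ) (u : ZMod n),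
      n = d * h ∧ 1 < d ∧ r ≤ 2 ∧ IsUnit u ∧
      Prof d h r (cnt d (A.image fun x => u * x + (t : ZMod n))) #A := by
  have hlt : #A < n := by
    have h1 := cnt_pair (d := 1) (h := n) (r := 0) (one_mul n).symm hodd hg (Nat.mod_one _) 0 0 0
      one_pos
    have e : cnt 1 A 0 = #A := by
      exact congrArg card (filter_true_of_mem fun x _ => Nat.mod_one _)
    rw [e] at h1
    have := h1 (by omega) rfl
    simp at this
    omega
  obtain ⟨j, hj0, hj1, hj2⟩ := fourier hodd hg (by omega) hlt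
  obtain ⟨h, ⟨d, hd⟩, u, hu, rfl⟩ := ZMod.eq_unit_mul_divisor j
  rw [mul_comm] at hd
  have hd1 : 1 < d := by
    rcases d with _ | _ | d
    · omega
    · exfalso; apply hj0
      rw [show h = n by omega]; simp
    · omega
  have hd0 : 0 < d := by omega
  have hdn : d ∣ n := ⟨h, hd⟩
  set G := (u * g).val with hG
  have eS : ft A (u * h) = ∑ a ∈ A, ez d (3 * (u * a).val) :=
    sum_congr rfl fun a _ => by rw [← char_eq hd]; congr 1; ring
  have eG : ZMod.stdAddChar (-(u * (h : ZMod n) * g)) * ez d (3 * G) = 1 := by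
    rw [← char_eq hd, ← AddChar.map_add_eq_mul, show -(u * (h : ZMod n) * g) + (h : ZMod n) * (u * g) = 0 by ring,
      AddChar.map_zero_eq_one]
  set S := ft A (u * h) with hS
  have cube : ∀ w, (w + G) % d = 0 → (S * ez d w) ^ 3 = S ^ 3 * ZMod.stdAddChar (-(u * (h : ZMod n) * g)) := by
    intro w hw
    obtain ⟨q, hq⟩ := Nat.dvd_of_mod_eq_zero hw
    have e1 : ez d w ^ 3 * ez d (3 * G) = 1 := by
      rw [pow_three, ← ez_add, ← ez_add, ← ez_add, show w + (w + w) + 3 * G = 3 * d * q by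
        rw [mul_assoc, ← hq]; ring, ez_per hd0]
    rw [mul_pow]
    linear_combination S ^ 3 * (ZMod.stdAddChar (-(u * (h : ZMod n) * g)) * e1 - ez d w ^ 3 * eG)
  have m1 : (#A : ℝ) < n := by exact_mod_cast hlt
  have m2 : (0 : ℝ) < (#A : ℝ) ^ 2 - 3 * n := by
    have := beta_gen hA hlt
    have a1 : (17 : ℝ) ≤ n := by exact_mod_cast hn
    have := mul_pos (show (0 : ℝ) < (n - 7) / 6 by linarith) (sub_pos.2 m1)
    linarith
  have hneg : (S ^ 3 * ZMod.stdAddChar (-(u * (h : ZMod n) * g))).re < 0 := by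
    have := mul_pos m2 (normSq_pos.2 hj1)
    by_contra hc
    have := mul_nonneg (sub_pos.2 m1).le (not_lt.1 hc)
    linarith
  have w0 : ((3 * d - 1) * G + G) % d = 0 := by
    rw [← add_one_mul, Nat.sub_add_cancel (by omega), mul_comm 3 d, mul_assoc, Nat.mul_mod_right]
  obtain ⟨w, hw1, hw2⟩ : ∃ w, (w + G) % d = 0 ∧ (S * ez d w).re < 0 := by
    rcases exists_rot (S := S * ez d ((3 * d - 1) * G)) (ez_third hd0)
      (by rw [cube _ w0]; exact hneg) with h1 | h1 | h1
    · exact ⟨_, w0, h1⟩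
    · refine ⟨(3 * d - 1) * G + d, ?_, by rwa [ez_add, ← mul_assoc]⟩
      rw [add_right_comm, Nat.add_mod_right, w0]
    · refine ⟨(3 * d - 1) * G + d + d, ?_, by rwa [ez_add, ez_add, ← mul_assoc, ← mul_assoc]⟩
      rw [add_right_comm, Nat.add_mod_right, add_right_comm, Nat.add_mod_right, w0]
  refine ⟨d, h, w % 3, w / 3, u, hd, hd1, by omega, hu, ?_⟩
  have hinj := affine_inj ((w / 3 : ℕ) : ZMod n) hu
  have hg' := affine_miss ((w / 3 : ℕ) : ZMod n) hu hg
  have eZ := prof_sum (r := w % 3) hd0 (A.image fun x => u * x + ((w / 3 : ℕ) : ZMod n))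
  rw [sum_image fun x _ y _ hxy => hinj hxy] at eZ
  have eZ' : ∑ x ∈ A, ez d (3 * (u * x + ((w / 3 : ℕ) : ZMod n)).val + w % 3) = S * ez d w := by
    rw [eS, sum_mul]
    refine sum_congr rfl fun a _ => ?_
    rw [← ez_mod hd0, val_mod hdn, ez_mod hd0, ← ez_add]
    congr 1; omega
  rw [eZ'] at eZ
  have hc3 := cube w hw1
  have hns : normSq S = normSq (S * ez d w) := by
    rw [map_mul, normSq_eq_norm_sq (ez d w), norm_ez]; ring
  rw [← hc3, hns, eZ] at hj2
  rw [eZ] at hw2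
  refine ⟨fun i _ => card_fibre hd _ fun x hx => (mem_filter.1 hx).2,
    fun c i j _ hi _ hc hs => cnt_pair hd hodd hg' ?_ c i j hi hc hs, ?_, hd ▸ hA, hd ▸ hlt,
    by simpa using hw2, ?_⟩
  · unfold fib
    rw [show (3 : ZMod n) * ((w / 3 : ℕ) : ZMod n) = ((3 * (w / 3) : ℕ) : ZMod n) by push_cast; ring,
      val_mod hdn, Nat.mod_add_mod, ← hw1]
    congr 1; omega
  · rw [← card_image_of_injective A hinj]
    exact (card_eq_sum_card_fiberwise (f := fib d) (t := range d)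
      fun x _ => mem_range.2 (fib_lt hd0 x)).symm
  · rw [← hd]
    generalize PX d (w % 3) (cnt d (A.image fun x => u * x + ((w / 3 : ℕ) : ZMod n))) = X at *
    generalize PY d (w % 3) (cnt d (A.image fun x => u * x + ((w / 3 : ℕ) : ZMod n))) = Y at *
    simp only [pow_three, normSq_apply, mul_re, mul_im, neg_re, neg_im] at hj2
    linarith

end Pool.Agent.Lib.MP_7ad46c_co
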