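import Pool.Agent.Lib.MP_7ad46c_co.Anal1

/-!
Two small cases that are treated by hand.
-/

set_option autoImplicit false

namespace Pool.Agent.Lib.MP_7ad46c_co

open Finset Real

theorem spec3 {h m : ℕ} {a : ℕ → ℕ} (hh : 5 ≤ h) (P : Prof 3 h 0 a m) : Concl 3 h a m := by
  rcases Nat.eq_zero_or_pos (a 0) with h0 | h0
  · refine ⟨1, 2, fun p hp hap => ?_, Or.inl (by norm_num)⟩
    rcases Nat.eq_zero_or_pos p with rfl | h1 <;> omega
  exfalso
  have h1 := P.pair 0 1 2 (by norm_num) (by norm_num) (by norm_num) h0 (by norm_num)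
  have h2 := P.sum
  have h3 := P.big
  have h4 := P.lt
  simp only [sum_range_succ, range_zero, sum_empty] at h2
  norm_num at h1
  have hX : PX 3 0 a = -(a 0 : ℝ) + (a 1 + a 2) / 2 := by
    unfold PX ang
    simp only [sum_range_succ, range_zero, sum_empty]
    push_cast
    rw [show 2 * π * 0 / (3 * 3) = 0 by ring, show 2 * π * 3 / (3 * 3) = 2 * π / 3 by ring,
      show 2 * π * 6 / (3 * 3) = 2 * π - 2 * π / 3 by ring, cos_two_pi_sub, cos_23, cos_zero]
    ring
  have h5 : (5 : ℝ) ≤ h := by exact_mod_cast hh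
  have h6 := eta_lin (s := 0) (e := 1) P.pos (by push_cast; linarith) (P.cube (beta_gen h3 h4))
    le_rfl le_rfl (by norm_num) (by norm_num)
  have r1 : (a 1 : ℝ) + a 2 ≤ h := by exact_mod_cast h1
  have r2 : 3 * (h : ℝ) + 8 ≤ 3 * (a 0 + a 1 + a 2) := by
    exact_mod_cast (by omega : 3 * h + 8 ≤ 3 * (a 0 + a 1 + a 2))
  rw [hX] at h6
  push_cast at h6
  linarith

theorem spec5 {m : ℕ} {a : ℕ → ℕ} (P : Prof 5 5 0 a m) : Concl 5 5 a m := by
  have hp := pi_pos
  set c := cos (π / 5) with hc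
  set s := sin (π / 5) with hs
  have s5 : 2.236067 < √5 := Real.lt_sqrt_of_sq_lt (by norm_num)
  have s6 : √5 < 2.236068 := (Real.sqrt_lt' (by norm_num)).2 (by norm_num)
  have c1 : 0.809016 < c := by rw [hc, cos_pi_div_five]; linarith
  have c2 : c < 0.809017 := by rw [hc, cos_pi_div_five]; linarith
  have s0 : 0 < s := sin_pos_of_pos_of_lt_pi (by linarith) (by linarith)
  have sc : s ^ 2 + c ^ 2 = 1 := sin_sq_add_cos_sq _
  have s1 : 0.58778 < s := by nlinarith
  have s2 : s < 0.58779 := by nlinarith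
  have e1 : 2 * π * 3 / (3 * 5) = 2 * (π / 5) := by ring
  have e2 : 2 * π * 6 / (3 * 5) = π - π / 5 := by ring
  have e3 : 2 * π * 9 / (3 * 5) = π / 5 + π := by ring
  have e4 : 2 * π * 12 / (3 * 5) = 2 * π - 2 * (π / 5) := by ring
  have hX : PX 5 0 a = -(a 0 : ℝ) - (2 * c ^ 2 - 1) * (a 1 + a 4) + c * (a 2 + a 3) := by
    unfold PX ang
    simp only [sum_range_succ, range_zero, sum_empty]
    push_cast
    rw [show 2 * π * 0 / (3 * 5) = 0 by ring, e1, e2, e3, e4, cos_two_pi_sub, cos_two_mul,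
      cos_pi_sub, cos_add_pi, cos_zero]
    ring
  have hY : PY 5 0 a = -(2 * s * c) * (a 1 - a 4 : ℝ) - s * (a 2 - a 3) := by
    unfold PY ang
    simp only [sum_range_succ, range_zero, sum_empty]
    push_cast
    rw [show 2 * π * 0 / (3 * 5) = 0 by ring, e1, e2, e3, e4, sin_two_pi_sub, sin_two_mul,
      sin_pi_sub, sin_add_pi, sin_zero]
    ring
  have h2 := P.sum
  have h3 := P.big
  simp only [sum_range_succ, range_zero, sum_empty] at h2
  have hm : (11 : ℝ) ≤ m := by exact_mod_cast (by omega : 11 ≤ m)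
  have hb := P.cube (b := 23 / 7) (by push_cast; nlinarith)
  have f0 := eta_lin (s := 0) (e := 1) P.pos (by norm_num) hb
    le_rfl le_rfl (by norm_num) (by norm_num)
  have f1 := eta_lin (s := 3 / 10) (e := 99 / 100) P.pos (by norm_num) hb
    (by norm_num) (by norm_num) (by norm_num) (by norm_num)
  have f2 := eta_lin (Y := -PY 5 0 a) (b := 23 / 7) (s := 3 / 10) (e := 99 / 100) P.pos
    (by norm_num) (by rw [neg_sq]; exact hb) (by norm_num) (by norm_num) (by norm_num)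
    (by norm_num)
  rw [hX] at f0 f1 f2
  rw [hY] at f1 f2
  have k1 : 0.3090 ≤ 2 * c ^ 2 - 1 := by nlinarith
  have k2 : 0.95104 ≤ 2 * s * c := by nlinarith
  have k3 : 2 * s * c ≤ 0.95107 := by nlinarith
  generalize 2 * c ^ 2 - 1 = u at *
  generalize 2 * s * c = v at *
  have n1 := Nat.cast_nonneg (α := ℝ) (a 1)
  have n2 := Nat.cast_nonneg (α := ℝ) (a 2)
  have n3 := Nat.cast_nonneg (α := ℝ) (a 3)
  have n4 := Nat.cast_nonneg (α := ℝ) (a 4)
  have u1 := mul_le_mul_of_nonneg_right k1 n1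
  have u4 := mul_le_mul_of_nonneg_right k1 n4
  have v1 := mul_le_mul_of_nonneg_right k2 n1
  have v4 := mul_le_mul_of_nonneg_right k2 n4
  have w1 := mul_le_mul_of_nonneg_right k3 n1
  have w4 := mul_le_mul_of_nonneg_right k3 n4
  have x2 := mul_le_mul_of_nonneg_right c2.le n2
  have x3 := mul_le_mul_of_nonneg_right c2.le n3
  have y2 := mul_le_mul_of_nonneg_right s1.le n2
  have y3 := mul_le_mul_of_nonneg_right s1.le n3
  have z2 := mul_le_mul_of_nonneg_right s2.le n2
  have z3 := mul_le_mul_of_nonneg_right s2.le n3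
  have g0 : 32857 + 10000 * a 0 + 3090 * (a 1 + a 4) ≤ 8091 * (a 2 + a 3) := by
    have : (32857 + 10000 * a 0 + 3090 * (a 1 + a 4) : ℝ) ≤ 8091 * (a 2 + a 3) := by linarith
    exact_mod_cast this
  have g1 : 32528 + 10000 * a 0 + 5943 * a 1 + 236 * a 4 ≤ 6327 * a 2 + 9854 * a 3 := by
    have : (32528 + 10000 * a 0 + 5943 * a 1 + 236 * a 4 : ℝ) ≤ 6327 * a 2 + 9854 * a 3 := by
      linarith
    exact_mod_cast this
  have g2 : 32528 + 10000 * a 0 + 5943 * a 4 + 236 * a 1 ≤ 6327 * a 3 + 9854 * a 2 := by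
    have : (32528 + 10000 * a 0 + 5943 * a 4 + 236 * a 1 : ℝ) ≤ 6327 * a 3 + 9854 * a 2 := by
      linarith
    exact_mod_cast this
  have pr : ∀ c' i : Fin 5, 1 ≤ a c' → a i + a ((10 - c' - i) % 5) ≤
      5 + (if (i : ℕ) = c' then 1 else 0) + (if (10 - c' - i) % 5 = (c' : ℕ) then 1 else 0) +
        (if (i : ℕ) = (10 - c' - i) % 5 then 1 else 0) := fun c' i h1 =>
    P.pair c' i _ c'.2 i.2 (Nat.mod_lt _ (by norm_num)) h1 (by omega)
  simp only [Fin.forall_fin_succ, Fin.val_succ, Fin.val_zero, IsEmpty.forall_iff] at pr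
  norm_num at pr
  have l0 := P.le 0 (by norm_num)
  have l1 := P.le 1 (by norm_num)
  have l2 := P.le 2 (by norm_num)
  have l3 := P.le 3 (by norm_num)
  have l4 := P.le 4 (by norm_num)
  have fin : (a 3 = 0 ∧ a 4 = 0) ∨ (a 0 = 0 ∧ a 4 = 0) ∨ (a 0 = 0 ∧ a 1 = 0) := by
    generalize a 0 = a0 at *
    generalize a 1 = a1 at *
    generalize a 2 = a2 at *
    generalize a 3 = a3 at *
    generalize a 4 = a4 at *
    have h11 : 11 ≤ a0 + a1 + a2 + a3 + a4 := by omega
    clear * - pr g0 g1 g2 l0 l1 l2 l3 l4 h11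
    interval_cases a0 <;> interval_cases a1 <;> interval_cases a4 <;> omega
  rcases fin with ⟨q1, q2⟩ | ⟨q1, q2⟩ | ⟨q1, q2⟩
  · refine ⟨0, 3, fun p hp hap => ?_, Or.inl (by norm_num)⟩
    interval_cases p <;> omega
  · refine ⟨1, 3, fun p hp hap => ?_, Or.inl (by norm_num)⟩
    interval_cases p <;> omega
  · refine ⟨2, 3, fun p hp hap => ?_, Or.inl (by norm_num)⟩
    interval_cases p <;> omega

end Pool.Agent.Lib.MP_7ad46c_co
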