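import Pool.Agent.Lib.MP_7ad46c_co.Basic
import Pool.Agent.Lib.MP_7ad46c_co.Four
import Pool.Agent.Lib.MP_7ad46c_co.Anal2
import Pool.Agent.Lib.MP_7ad46c_co.Spec
import Pool.Agent.Lib.MP_7ad46c_co.CertAll

set_option autoImplicit false

namespace Pool.Agent.Lib.MP_7ad46c_co

open Finset Chk

lemma J3.use {d H h r m : ℕ} {uni : Bool} {a : ℕ → ℕ} (J : J3 d H uni) (hr : r ≤ 2)
    (hH : h = H ∨ (uni = true ∧ H ≤ h)) (P : Prof d h r a m) : Concl d h a m := by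
  obtain ⟨j0, j1, j2⟩ := J
  interval_cases r
  · exact j0 _ _ _ hH P
  · exact j1 _ _ _ hH P
  · exact j2 _ _ _ hH P

theorem concl_all {d h r m : ℕ} {a : ℕ → ℕ} (P : Prof d h r a m) (hr : r ≤ 2) (hd : 1 < d)
    (hn : 17 ≤ d * h) (hp : ¬ (d * h).Prime) (h1 : d % 2 = 1) (h2 : h % 2 = 1) :
    Concl d h a m := by
  by_cases e1 : h = 1
  · subst e1
    by_cases e2 : d ≤ 351
    · exact J3.use (famA d (by omega) e2 h1 (by rwa [mul_one] at hp)) hr (Or.inl rfl) P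
    · exact analytic P hr h1 (Or.inl ⟨rfl, by omega⟩)
  by_cases e2 : 147 ≤ d
  · exact analytic P hr h1 (Or.inr ⟨by omega, e2⟩)
  by_cases e3 : 19 ≤ d
  · exact J3.use (famB d e3 (by omega) h1) hr (Or.inr ⟨rfl, by omega⟩) P
  by_cases e4 : d = 3
  · subst e4
    interval_cases r
    · exact spec3 (by omega) P
    · exact j3_1_7_1 _ _ _ (Or.inr ⟨rfl, by omega⟩) P
    · exact j3_2_7_1 _ _ _ (Or.inr ⟨rfl, by omega⟩) P
  by_cases e5 : h = 3
  · subst e5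
    exact J3.use (famC d (by omega) (by omega) h1) hr (Or.inl rfl) P
  by_cases e6 : 11 ≤ d
  · exact J3.use (famD d e6 (by omega) h1) hr (Or.inr ⟨rfl, by omega⟩) P
  by_cases e7 : 7 ≤ h
  · exact J3.use (famF d (by omega) (by omega) h1) hr (Or.inr ⟨rfl, e7⟩) P
  obtain rfl : h = 5 := by omega
  by_cases e8 : d = 5
  · subst e8
    interval_cases r
    · exact spec5 P
    · exact j5_1_5_0 _ _ _ (Or.inl rfl) P
    · exact j5_2_5_0 _ _ _ (Or.inl rfl) P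
  · exact J3.use (famE d (by omega) (by omega) h1) hr (Or.inl rfl) P

/-- A large set that misses a restricted triple sum lies in a half arc of a cyclic quotient. -/
theorem ARC0 (n : ℕ) (hn : 17 ≤ n) (hodd : Odd n) (hp : ¬ n.Prime) (A : Finset (ZMod n)) (g : ZMod n)
    (hA : n + 8 ≤ 3 * A.card) (hg : g ∉ rsum3 A) :
    ∃ d k t : ℕ, 1 < d ∧ d ∣ n ∧ Nat.Coprime k d ∧
      ∀ a ∈ A, 2 * ((k * a.val + t) % d) < d := by
  have : NeZero n := ⟨by omega⟩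
  obtain ⟨d, h, r, t, u, hd, hd1, hr, hu, P⟩ := exists_prof hn hodd hg hA
  have hdn : d ∣ n := ⟨h, hd⟩
  have ho := Nat.odd_mul.1 (hd ▸ hodd)
  have C := concl_all P hr hd1 (hd ▸ hn) (hd ▸ hp) (Nat.odd_iff.1 ho.1) (Nat.odd_iff.1 ho.2)
  rw [← card_image_of_injective A (affine_inj (t : ZMod n) hu)] at C
  obtain ⟨s, hs⟩ := arc_of_concl hd hodd (affine_miss (t : ZMod n) hu hg) (by omega)
    ((card_pos.1 (by omega)).image _) C
  refine ⟨d, u.val, t + s, hd1, hdn, ?_, fun a ha => ?_⟩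
  · refine Nat.Coprime.coprime_dvd_right hdn ((ZMod.isUnit_iff_coprime _ _).1 ?_)
    rwa [ZMod.natCast_zmod_val]
  · have h1 := hs _ (mem_image_of_mem _ ha)
    rwa [← Nat.mod_add_mod, val_mod hdn, Nat.mod_add_mod, add_assoc, ← Nat.mod_add_mod,
      ZMod.val_mul, Nat.mod_mod_of_dvd _ hdn, Nat.mod_add_mod] at h1

theorem ARC (n : ℕ) (hn : 17 ≤ n) (hodd : Odd n) (hcomp : ¬ n.Prime)
    (_IH : ∀ h : ℕ, h ∣ n → h < n → Bd (ZMod h) (Fb h))
    (A : Finset (ZMod n)) (g : ZMod n) (hA : f n ≤ A.card) (hg : g ∉ rsum3 A) :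
    ∃ d k t : ℕ, 1 < d ∧ d ∣ n ∧ Nat.Coprime k d ∧
      ∀ a ∈ A, 2 * ((k * a.val + t) % d) < d :=
  ARC0 n hn hodd hcomp A g (by have := (f_lower hn hodd).1; omega) hg

end Pool.Agent.Lib.MP_7ad46c_co
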