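import Pool.Agent.Lib.MP_7ad46c_co.Defs

set_option autoImplicit false

namespace Pool.Agent.Lib.MP_7ad46c_co

open Finset

/-- every set that misses some restricted triple sum has at most `b` elements -/
def Bd (G : Type) [AddCommGroup G] (b : ℕ) : Prop :=
  ∀ (A : Finset G) (g : G), g ∉ rsum3 A → A.card ≤ b

/-- the bound used in the induction (odd `h`): `1,3,4,4,6,6,6,9` for `h = 1,3,…,15`,
then `f h - 1`. -/
noncomputable def Fb (h : ℕ) : ℕ :=
  if h = 1 then 1 else if h = 3 then 3 else if h ≤ 7 then 4 else if h ≤ 13 then 6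
  else if h ≤ 15 then 9 else f h - 1

lemma P2_spec {n : ℕ} (h : (P2 n).Nonempty) :
    (sInf (P2 n)).Prime ∧ sInf (P2 n) ∣ n ∧ sInf (P2 n) % 3 = 2 := Nat.sInf_mem h

/-- a number congruent to 2 mod 3 has a prime factor congruent to 2 mod 3 -/
lemma exists_prime_two (d : ℕ) (hd : d % 3 = 2) : ∃ p, p.Prime ∧ p ∣ d ∧ p % 3 = 2 := by
  induction d using Nat.strong_induction_on with
  | _ d ih =>
    have h1 : d ≠ 1 := by omega
    have h0 : d ≠ 0 := by omega
    obtain ⟨e, he⟩ := Nat.minFac_dvd d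
    have hp := Nat.minFac_prime h1
    by_cases hq : d.minFac % 3 = 2
    · exact ⟨_, hp, Nat.minFac_dvd d, hq⟩
    · have h2 := hp.two_le
      have he2 : e % 3 = 2 := by
        have : d % 3 = (d.minFac % 3 * (e % 3)) % 3 := by rw [← Nat.mul_mod, ← he]
        have a : d.minFac % 3 = 0 ∨ d.minFac % 3 = 1 := by omega
        have b : e % 3 = 0 ∨ e % 3 = 1 ∨ e % 3 = 2 := by omega
        rcases a with a | a <;> rcases b with b | b | b <;> rw [a, b] at this <;> omega
      have hlt : e < d := by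
        have : 0 < e := by omega
        nlinarith
      obtain ⟨p, h3, h4, h5⟩ := ih e hlt he2
      exact ⟨p, h3, h4.trans ⟨d.minFac, by rw [mul_comm]; exact he⟩, h5⟩

/-- structural description of `f`: three times `f` in terms of the least prime `p`. -/
lemma f_typeI {n : ℕ} (h : (P2 n).Nonempty) : ∃ p q : ℕ, p = sInf (P2 n) ∧ p.Prime ∧ p % 3 = 2 ∧
    n = p * q ∧ (∀ p', p'.Prime → p' ∣ n → p' % 3 = 2 → p ≤ p') ∧
    3 * f n = n + q + (if q = 1 then 9 else if q = 3 then 6 else 3) := by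
  obtain ⟨h1, ⟨q, hq⟩, h3⟩ := P2_spec h
  refine ⟨sInf (P2 n), q, rfl, h1, h3, hq, fun p' a b c => Nat.sInf_le ⟨a, b, c⟩, ?_⟩
  unfold f
  rw [if_pos h]
  generalize sInf (P2 n) = p at *
  have hp := h1.pos
  have e1 : n / p = q := by rw [hq]; exact Nat.mul_div_cancel_left q hp
  obtain ⟨k, hk⟩ : ∃ k, p + 1 = 3 * k := ⟨(p + 1) / 3, by omega⟩
  have e2 : n + q = 3 * (k * q) := by rw [hq]; nlinarith
  have e3 : (n = p) ↔ q = 1 := by
    constructor
    · intro h; rw [h] at hq; nlinarith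
    · intro h; rw [hq, h, mul_one]
  have e4 : (n = 3 * p) ↔ q = 3 := by
    constructor
    · intro h; rw [h] at hq; nlinarith
    · intro h; rw [hq, h, mul_comm]
  rw [e1]
  simp only [e3, e4]
  split_ifs <;> omega

lemma f_typeII {n : ℕ} (h : ¬ (P2 n).Nonempty) :
    n % 3 ≠ 2 ∧ f n = n / 3 + (if 9 ∣ n then 4 else 3) := by
  refine ⟨fun h2 => h (exists_prime_two n h2), ?_⟩
  unfold f; rw [if_neg h]

/-- `3 f(n) ≥ n + 8` etc. -/
lemma f_lower {n : ℕ} (hn : 17 ≤ n) (hodd : Odd n) :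
    n + 8 ≤ 3 * f n ∧ (n % 3 = 0 → n + 9 ≤ 3 * f n) ∧ (n % 3 = 2 → n + 10 ≤ 3 * f n) ∧
      (9 ∣ n → n + 12 ≤ 3 * f n) := by
  by_cases h : (P2 n).Nonempty
  · obtain ⟨p, q, -, hp, h3, hq, -, hf⟩ := f_typeI h
    have hqo : Odd q := (Nat.odd_mul.1 (hq ▸ hodd)).2
    have hpo : Odd p := (Nat.odd_mul.1 (hq ▸ hodd)).1
    obtain ⟨j, hj⟩ := hqo
    have hm : n % 3 = (2 * (q % 3)) % 3 := by rw [hq, Nat.mul_mod, h3]
    have h9 : 9 ∣ n → 9 ∣ q := by
      intro h9
      rw [hq] at h9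
      refine Nat.Coprime.dvd_of_dvd_mul_left ?_ h9
      have : Nat.Coprime 3 p := (Nat.coprime_primes Nat.prime_three hp).2 (by omega)
      exact Nat.Coprime.pow_left 2 this
    refine ⟨?_, ?_, ?_, ?_⟩
    · split_ifs at hf <;> omega
    · split_ifs at hf <;> omega
    · split_ifs at hf <;> omega
    · intro h; have := h9 h; split_ifs at hf <;> omega
  · obtain ⟨h1, h2⟩ := f_typeII h
    split_ifs at h2 <;> omega

lemma f_div {n d h : ℕ} (hn : n = d * h) (hpos : 0 < n) (hd : d % 3 = 2) :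
    n + h + 3 ≤ 3 * f n := by
  obtain ⟨p', a, b, c⟩ := exists_prime_two d hd
  have hb : p' ∣ n := b.trans ⟨h, hn⟩
  obtain ⟨p, q, -, hp, h3, hq, hmin, hf⟩ := f_typeI (n := n) ⟨p', a, hb, c⟩
  have h1 : p ≤ d := (hmin p' a hb c).trans (Nat.le_of_dvd (by omega) b)
  have h2 : h ≤ q := by
    by_contra hc
    have : q < h := by omega
    have : p * q < d * h := by
      calc p * q < p * h := Nat.mul_lt_mul_of_pos_left this hp.pos
        _ ≤ d * h := Nat.mul_le_mul_right _ h1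
    omega
  split_ifs at hf <;> omega

end Pool.Agent.Lib.MP_7ad46c_co
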