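import Mathlib

/-!
The checker, written with raw recursors and kernel accelerated operations.
Positions are scaled by `25`, the width of a table entry.
-/

set_option autoImplicit false

namespace Pool.Agent.Lib.MP_7ad46c_co.Chk

/-- Forces the evaluation of a natural number. -/
noncomputable def force (x : ℕ) (f : ℕ → ℕ) : ℕ :=
  Nat.rec (motive := fun _ => ℕ) (f 0) (fun n _ => f (Nat.succ n)) x

noncomputable def sel (c : Bool) (x y : ℕ) : ℕ := Bool.rec (motive := fun _ => ℕ) y x c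

/-- The entry at bit position `j`. -/
def look (X j : ℕ) : ℕ := Nat.mod (Nat.shiftRight X j) 33554432

/-- Clears the entry at bit position `j`. -/
def zap (X j : ℕ) : ℕ := Nat.xor X (Nat.shiftLeft (look X j) j)

/-- The field of ten bits at bit position `j`. -/
def fld (s j : ℕ) : ℕ := Nat.mod (Nat.shiftRight s j) 1024

/-- The sweep along a path of two reflections, two steps per round. -/
noncomputable def loop (D K1 K2 off e2 : ℕ) (k : ℕ → ℕ → ℕ → ℕ → ℕ) (n : ℕ) :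
    ℕ → ℕ → ℕ → ℕ → ℕ :=
  Nat.rec (motive := fun _ => ℕ → ℕ → ℕ → ℕ → ℕ) k
    (fun _ ih v rem acc rr => ih
      (Nat.mod (Nat.sub K1 (Nat.mod (Nat.sub K2 v) D)) D)
      (Nat.xor (Nat.xor rem (Nat.shiftLeft (Nat.mod (Nat.shiftRight rem (Nat.mod (Nat.sub K2 v) D)) 33554432) (Nat.mod (Nat.sub K2 v) D))) (Nat.shiftLeft (Nat.mod (Nat.shiftRight (Nat.xor rem (Nat.shiftLeft (Nat.mod (Nat.shiftRight rem (Nat.mod (Nat.sub K2 v) D)) 33554432) (Nat.mod (Nat.sub K2 v) D))) (Nat.mod (Nat.sub K1 (Nat.mod (Nat.sub K2 v) D)) D)) 33554432) (Nat.mod (Nat.sub K1 (Nat.mod (Nat.sub K2 v) D)) D)))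
      (Nat.add (Nat.add acc rr) (Nat.sub (Nat.sub (Nat.mod (Nat.shiftRight rem (Nat.mod (Nat.sub K2 v) D)) 33554432) off) (Nat.mul rr e2)))
      (Nat.sub (Nat.sub (Nat.mod (Nat.shiftRight (Nat.xor rem (Nat.shiftLeft (Nat.mod (Nat.shiftRight rem (Nat.mod (Nat.sub K2 v) D)) 33554432) (Nat.mod (Nat.sub K2 v) D))) (Nat.mod (Nat.sub K1 (Nat.mod (Nat.sub K2 v) D)) D)) 33554432) off) (Nat.sub (Nat.sub (Nat.mod (Nat.shiftRight rem (Nat.mod (Nat.sub K2 v) D)) 33554432) off) (Nat.mul rr e2)))) n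

/-- The part of the first weight that is charged to the fixed point. -/
noncomputable def head (D K1 K2 off V m2 rem : ℕ) : ℕ :=
  sel (Nat.beq (Nat.mod (Nat.sub K1 V) D) V)
    (Nat.sub (Nat.sub (look rem V) off)
      (Nat.mul (Nat.sub (look rem (Nat.mod (Nat.sub K2 V) D)) off) m2)) 0

noncomputable def walk (D K1 K2 off e2 V len m2 rem acc ah : ℕ) (k : ℕ → ℕ → ℕ → ℕ) : ℕ :=
  force (head D K1 K2 off V m2 rem) fun z =>
    loop D K1 K2 off e2 (fun v rem' acc' rr =>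
      sel (Bool.and (Nat.beq e2 1) (Nat.beq (Nat.mod (Nat.sub K2 v) D) v))
        (k rem' acc' (Nat.add (Nat.add ah z) rr)) (k rem' (Nat.add acc' rr) (Nat.add ah z)))
      len V (zap rem V) acc (Nat.sub (Nat.sub (look rem V) off) z)

noncomputable def walks (D K1 K2 off e2 : ℕ) (k : ℕ → ℕ → ℕ → ℕ → ℕ) (nw : ℕ) :
    ℕ → ℕ → ℕ → ℕ → ℕ :=
  Nat.rec (motive := fun _ => ℕ → ℕ → ℕ → ℕ → ℕ) k
    (fun _ ih s rem acc ah =>
      walk D K1 K2 off e2 (Nat.mod (Nat.mul 25 (fld s 0)) D) (fld s 10) (fld s 20) rem acc ah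
        (fun rem' acc' ah' => force rem' fun rem'' => force acc' fun acc'' =>
          ih (Nat.shiftRight s 30) rem'' acc'' ah')) nw

noncomputable def mem (x : ℕ) (l : List ℕ) : Bool :=
  List.rec (motive := fun _ => Bool) false
    (fun c _ ih => Bool.rec (motive := fun _ => Bool) ih true (Nat.beq c x)) l

noncomputable def sumIn (T : ℕ) (l : List ℕ) : ℕ :=
  List.rec (motive := fun _ => ℕ) 0 (fun c _ ih => Nat.add ih (look T (Nat.mul 25 c))) l

noncomputable def lenIn (l : List ℕ) : ℕ :=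
  List.rec (motive := fun _ => ℕ) 0 (fun _ _ ih => Nat.succ ih) l

noncomputable def zapIn (X : ℕ) (l : List ℕ) : ℕ :=
  List.rec (motive := fun _ => ℕ) X (fun c _ ih => zap ih (Nat.mul 25 c)) l

/-- With fibres of size one, two present elements exclude a third one. -/
noncomputable def kills (d r x M : ℕ) (l : List ℕ) : ℕ :=
  List.rec (motive := fun _ => ℕ) M (fun c _ ih =>
    force (Nat.mod (Nat.sub (Nat.sub (Nat.sub (Nat.mul 3 d) r) c) x) d) fun j =>
      sel (Bool.or (Nat.beq j c) (Nat.beq j x)) ih (zap ih (Nat.mul 25 j))) l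

def etaOK (sg e : ℕ) : Bool :=
  Bool.and (Nat.ble e 1000) (Bool.and (Nat.ble (Nat.add 48000 (Nat.mul 578 sg)) (Nat.mul 96 e))
    (Nat.ble (Nat.mul (Nat.add 1000000 (Nat.mul 1600 (Nat.sub 1000 e))) (Nat.mul sg sg))
      (Nat.mul (Nat.mul 4096 (Nat.sub 1000 e)) (Nat.add 1000 (Nat.mul 3 e)))))

/-- The data of a job. -/
structure Par where
  d : ℕ
  r : ℕ
  H : ℕ
  uni : Bool
  one : Bool
  L : ℕ
  mA : ℕ
  mB : ℕ
  bA : ℕ
  bP : ℕ
  bB : ℕ
  TC : ℕ
  TP : ℕ
  TM : ℕ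
  TO : ℕ

/-- The final inequality of a sweep. -/
def final (P : Par) (e l off ts k acc ah : ℕ) : Bool :=
  Bool.and
    (Nat.blt
      (Nat.add (Nat.mul (Nat.mul 600000 (Nat.add (Nat.mul 2 acc) ah)) P.H)
        (Nat.add (Nat.mul 600000 (Nat.add ah (Nat.mul 2 ts))) (Nat.mul (Nat.mul 4194304 e) P.bB)))
      (Nat.add (Nat.mul (Nat.mul 131072
          (Nat.add (Nat.mul (Nat.mul 32 e) P.bA) (Nat.mul (Nat.mul 1000 l) P.mA))) P.H)
        (Nat.add (Nat.mul (Nat.mul 1200000 k) off) (Nat.mul 131072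
          (Nat.add (Nat.mul (Nat.mul 32 e) P.bP) (Nat.mul (Nat.mul 1000 l) P.mB))))))
    (Bool.or (Bool.not P.uni)
      (Nat.ble (Nat.mul 600000 (Nat.add (Nat.mul 2 acc) ah)) (Nat.mul 131072
          (Nat.add (Nat.mul (Nat.mul 32 e) P.bA) (Nat.mul (Nat.mul 1000 l) P.mA)))))

/-- The weight table of a sweep. -/
noncomputable def wtab (P : Par) (sg ng l : ℕ) : ℕ :=
  Nat.add (Nat.add (Nat.mul 32 P.TC) (Nat.mul sg (sel (Nat.beq ng 0) P.TP P.TM)))
    (Nat.mul (Nat.mul l 65536) P.TO)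

noncomputable def sweep (P : Par) (s M : ℕ) (I : List ℕ) (sg ng e l c1 c2 e2 : ℕ) : ℕ :=
  sel (Bool.and (etaOK sg e) (Bool.and (Nat.ble sg 44) (Bool.and (Nat.ble l 128)
      (Bool.and (mem c1 I) (Bool.or (Nat.beq e2 0) (mem c2 I))))))
    (force (wtab P sg ng l) fun T => force (Nat.mul (Nat.add 32 sg) 65536) fun off =>
      force (Nat.mul 25 (Nat.sub (Nat.sub (Nat.mul 3 P.d) P.r) c1)) fun K1 =>
      force (Nat.mul 25 (Nat.sub (Nat.sub (Nat.mul 3 P.d) P.r) c2)) fun K2 =>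
      force (Nat.mul 25 P.d) fun D =>
      walks D K1 K2 off e2 (fun s' rem acc ah =>
        sel (Bool.and (Nat.beq rem 0) (final P e l off (sumIn T I) (lenIn I) acc ah))
          (Nat.succ s') 0)
        (fld s 70) (Nat.shiftRight s 80)
        (sel P.one (zapIn (Nat.land T M) I) (Nat.land T M)) 0 0) 0

noncomputable def window (P : Par) (s M : ℕ) : ℕ :=
  sel (Bool.and (Nat.beq (Nat.shiftRight M (Nat.mul 25 (Nat.add (fld s 10) P.L))) 0)
      (Nat.beq (Nat.mod M (Nat.pow 2 (Nat.mul 25 (fld s 10)))) 0))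
    (Nat.succ (Nat.shiftRight s 20)) 0

/-- The tree checker: `0` is failure, otherwise one plus the unread part of the certificate. -/
noncomputable def chk (P : Par) (fuel : ℕ) : ℕ → ℕ → List ℕ → ℕ :=
  Nat.rec (motive := fun _ => ℕ → ℕ → List ℕ → ℕ) (fun _ _ _ => 0)
    (fun _ ih s M I =>
      Nat.rec (motive := fun _ => ℕ) (window P s M) (fun t _ =>
        Nat.rec (motive := fun _ => ℕ)
          (force (Nat.div (fld s 10) 2) fun sg => force (Nat.mod (fld s 60) 2) fun e2 =>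
            sweep P s M I sg (Nat.mod (fld s 10) 2) (fld s 20) (fld s 30) (fld s 40) (fld s 50) e2)
          (fun x _ => sel (Bool.and (Nat.blt x P.d) (Bool.not (mem x I)))
            (Nat.rec (motive := fun _ => ℕ) 0
              (fun s2 _ => force (zap M (Nat.mul 25 x)) fun M2 => ih s2 M2 I)
              (ih (Nat.shiftRight s 10) (sel P.one (kills P.d P.r x M I) M) (x :: I))) 0) t)
        (fld s 0)) fuel

/-- One rounded rotation, in offset coordinates. -/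
noncomputable def rot (A B X Y : ℕ) (k : ℕ → ℕ → ℕ) : ℕ :=
  force (Nat.shiftRight (Nat.sub
      (Nat.add (Nat.mul X A) (Nat.mul 2199023255552 (Nat.add 1099511627776 B)))
      (Nat.add (Nat.mul Y B) (Nat.mul 2199023255552 A))) 40) fun X' =>
    force (Nat.shiftRight (Nat.sub
      (Nat.add (Nat.add (Nat.mul X B) (Nat.mul Y A)) 2417851639229258349412352)
      (Nat.mul 2199023255552 (Nat.add A B))) 40) fun Y' => k X' Y'

noncomputable def rots (A B : ℕ) (k : ℕ → ℕ → ℕ) (n : ℕ) : ℕ → ℕ → ℕ :=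
  Nat.rec (motive := fun _ => ℕ → ℕ → ℕ) k (fun _ ih X Y => rot A B X Y ih) n

def entP (X : ℕ) : ℕ := Nat.add (Nat.shiftRight (Nat.sub 3298534883328 X) 24) 2
def entM (Y : ℕ) : ℕ := Nat.add (Nat.shiftRight (Nat.sub Y 1099511627776) 24) 2

noncomputable def tab (A B : ℕ) (k : ℕ → ℕ → ℕ → ℕ → ℕ) (n : ℕ) :
    ℕ → ℕ → ℕ → ℕ → ℕ → ℕ → ℕ → ℕ :=
  Nat.rec (motive := fun _ => ℕ → ℕ → ℕ → ℕ → ℕ → ℕ → ℕ → ℕ)
    (fun _ _ _ TC TP TM TO => k TC TP TM TO)
    (fun _ ih i X Y TC TP TM TO =>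
      rot A B X Y fun X1 Y1 => rot A B X1 Y1 fun X2 Y2 => rot A B X2 Y2 fun X3 Y3 =>
        ih (Nat.add i 25) X3 Y3 (Nat.add TC (Nat.shiftLeft (entP X) i))
          (Nat.add TP (Nat.shiftLeft (entP Y) i)) (Nat.add TM (Nat.shiftLeft (entM Y) i))
          (Nat.add TO (Nat.shiftLeft 1 i))) n

def xq (d : ℕ) : ℚ := 628318530718 / (300000000000 * d)
def cosA (d : ℕ) : ℕ := ⌊1099511627776 *
  (1 - xq d ^ 2 / 2 + xq d ^ 4 / 24 - xq d ^ 6 / 720 + xq d ^ 8 / 40320)⌋₊
def sinB (d : ℕ) : ℕ := ⌊1099511627776 *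
  (xq d - xq d ^ 3 / 6 + xq d ^ 5 / 120 - xq d ^ 7 / 5040 + xq d ^ 9 / 362880)⌋₊

def m0 (n : ℕ) : ℕ := (n + 10) / 3

def mkPar (d r H : ℕ) (uni : Bool) (L TC TP TM TO : ℕ) : Par where
  d := d
  r := r
  H := H
  uni := uni
  one := !uni && H == 1
  L := L
  mA := if uni then 200 * d else 0
  mB := if uni then 1600 else 600 * m0 (d * H)
  bA := if uni then 100 * d else 0
  bP := if uni then 0 else
    600 * (m0 (d * H) * m0 (d * H) - 3 * (d * H)) / (d * H - m0 (d * H))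
  bB := if uni then 700 else 0
  TC := TC
  TP := TP
  TM := TM
  TO := TO

noncomputable def run (d r H : ℕ) (uni : Bool) (L s : ℕ) : ℕ :=
  force (cosA d) fun A => force (sinB d) fun B =>
    rots A B (fun X Y => tab A B (fun TC TP TM TO =>
      force TC fun TC => force TP fun TP => force TM fun TM => force TO fun TO =>
        chk (mkPar d r H uni L TC TP TM TO) 1000 s (Nat.mul 33554431 TO) []) d 0 X Y 0 0 0 0)
      r 3298534883328 2199023255552

end Pool.Agent.Lib.MP_7ad46c_co.Chk
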