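import Pool.Agent.Lib.MP_7ad46c_co.Chk

/-!
Soundness of the sweep.
-/

set_option autoImplicit false

namespace Pool.Agent.Lib.MP_7ad46c_co.Chk

open Finset

lemma force_eq (x : ℕ) (f : ℕ → ℕ) : force x f = f x := by cases x <;> rfl

lemma sel_eq (c : Bool) (x y : ℕ) : sel c x y = if c = true then x else y := by
  cases c <;> rfl

lemma look_eq (X j : ℕ) : look X j = X >>> j % 2 ^ 25 := rfl

lemma look_lt (X j : ℕ) : look X j < 2 ^ 25 := Nat.mod_lt _ (by norm_num)

lemma testBit_look (X j i : ℕ) :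
    (look X j).testBit i = (decide (i < 25) && X.testBit (j + i)) := by
  rw [look_eq, Nat.testBit_mod_two_pow, Nat.testBit_shiftRight]

lemma look_zap (X w p : ℕ) :
    look (zap X (25 * w)) (25 * p) = if p = w then 0 else look X (25 * p) := by
  apply Nat.eq_of_testBit_eq
  intro i
  have e : zap X (25 * w) = X ^^^ (look X (25 * w) <<< (25 * w)) := rfl
  rw [testBit_look, e, Nat.testBit_xor, Nat.testBit_shiftLeft, testBit_look]
  by_cases hi : i < 25
  · by_cases h : p = w
    · subst h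
      simp [hi]
    · rw [if_neg h, testBit_look]
      rcases lt_or_gt_of_ne h with h1 | h1
      · have : ¬ (25 * p + i ≥ 25 * w) := by omega
        simp [this]
      · have : ¬ (25 * p + i - 25 * w < 25) := by omega
        simp [this]
  · split_ifs
    · simp [hi]
    · simp [hi, testBit_look]

lemma look_land (X M j : ℕ) : look (Nat.land X M) j = look X j &&& look M j := by
  apply Nat.eq_of_testBit_eq
  intro i
  have e : Nat.land X M = X &&& M := rfl
  rw [Nat.testBit_and, testBit_look, testBit_look, testBit_look, e, Nat.testBit_and]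
  cases decide (i < 25) <;> simp

lemma look_land_full (X M j : ℕ) (h : look M j = 2 ^ 25 - 1) : look (Nat.land X M) j = look X j := by
  rw [look_land, h, Nat.and_two_pow_sub_one_eq_mod, Nat.mod_eq_of_lt (look_lt X j)]

lemma look_zero (j : ℕ) : look 0 j = 0 := by simp [look_eq]

/-- Packing of a table. -/
def pk (c : ℕ → ℕ) (n : ℕ) : ℕ := ∑ q ∈ range n, c q * 2 ^ (25 * q)

lemma pk_lt {c : ℕ → ℕ} {n : ℕ} (hc : ∀ q, q < n → c q < 2 ^ 25) : pk c n < 2 ^ (25 * n) := by
  induction n with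
  | zero => simp [pk]
  | succ n ih =>
    have h1 := ih (fun q hq => hc q (by omega))
    have h2 := hc n (by omega)
    unfold pk at *
    rw [sum_range_succ, show 25 * (n + 1) = 25 + 25 * n by ring, pow_add]
    have : (c n + 1) * 2 ^ (25 * n) ≤ 2 ^ 25 * 2 ^ (25 * n) := Nat.mul_le_mul_right _ h2
    linarith

lemma look_pk {c : ℕ → ℕ} {n p : ℕ} (hc : ∀ q, q < n → c q < 2 ^ 25) (hp : p < n) :
    look (pk c n) (25 * p) = c p := by
  induction n with
  | zero => omega
  | succ n ih =>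
    have e : pk c (n + 1) = pk c n + c n * 2 ^ (25 * n) := by unfold pk; rw [sum_range_succ]
    rw [e, look_eq, Nat.shiftRight_eq_div_pow]
    rcases Nat.lt_succ_iff_lt_or_eq.1 hp with h | h
    · obtain ⟨k, rfl⟩ : ∃ k, n = p + 1 + k := ⟨n - p - 1, by omega⟩
      have := ih (fun q hq => hc q (by omega)) h
      rw [look_eq, Nat.shiftRight_eq_div_pow] at this
      rw [show c (p + 1 + k) * 2 ^ (25 * (p + 1 + k))
          = (2 ^ 25 * (c (p + 1 + k) * 2 ^ (25 * k))) * 2 ^ (25 * p) by ring,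
        Nat.add_mul_div_right _ _ (by positivity), Nat.add_mul_mod_self_left, this]
    · subst h
      rw [Nat.add_mul_div_right _ _ (by positivity),
        Nat.div_eq_of_lt (pk_lt (fun q hq => hc q (by omega))), zero_add,
        Nat.mod_eq_of_lt (hc p (by omega))]

/-- The weight that has not been accounted for. -/
def Phi (d off : ℕ) (a : ℕ → ℕ) (rem : ℕ) : ℕ :=
  ∑ p ∈ range d, a p * (look rem (25 * p) - off)

lemma Phi_zap {d off w : ℕ} (a : ℕ → ℕ) (rem : ℕ) (hw : w < d) :
    Phi d off a rem = Phi d off a (zap rem (25 * w)) + a w * (look rem (25 * w) - off) := by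
  unfold Phi
  rw [← add_sum_erase _ _ (mem_range.2 hw), ← add_sum_erase (range d) _ (mem_range.2 hw),
    look_zap, if_pos rfl]
  have : ∑ p ∈ (range d).erase w, a p * (look (zap rem (25 * w)) (25 * p) - off)
      = ∑ p ∈ (range d).erase w, a p * (look rem (25 * p) - off) :=
    sum_congr rfl fun p hp => by rw [look_zap, if_neg (ne_of_mem_erase hp)]
  rw [this]
  simp [add_comm]

lemma Phi_zero (d off : ℕ) (a : ℕ → ℕ) : Phi d off a 0 = 0 := by
  simp [Phi, look_zero]

lemma step_ineq {x y h rr wt e : ℕ} (hx : x ≤ h) (he : e ≤ 1)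
    (hxy : e ≠ 0 → wt ≠ 0 → x + y ≤ h) : y * wt + rr * x ≤ rr * h + (wt - rr * e) * y := by
  have h0 := Nat.mul_le_mul_left rr hx
  rcases Nat.eq_zero_or_pos e with rfl | he0
  · simp only [mul_zero, Nat.sub_zero]; nlinarith
  · obtain rfl : e = 1 := by omega
    rw [mul_one]
    rcases Nat.eq_zero_or_pos wt with rfl | hw
    · simp; omega
    · have h1 := hxy one_ne_zero hw.ne'
      rcases le_total rr wt with h2 | h2
      · obtain ⟨k, rfl⟩ := Nat.exists_eq_add_of_le h2
        rw [Nat.add_sub_cancel_left]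
        nlinarith [Nat.mul_le_mul_left rr h1]
      · obtain ⟨k, rfl⟩ := Nat.exists_eq_add_of_le h2
        rw [Nat.sub_eq_zero_of_le h2]
        nlinarith [Nat.mul_le_mul_left wt h1, Nat.mul_le_mul_left k hx]

lemma step_sound {d off h k e v rem acc rr : ℕ} {a : ℕ → ℕ} (hd : 0 < d)
    (hle : ∀ p, p < d → a p ≤ h) (he : e ≤ 1)
    (hk : e ≠ 0 → ∀ v, v < d → v ≠ (k - v) % d → a v + a ((k - v) % d) ≤ h)
    (hv : v < d) (h0 : look rem (25 * v) = 0) :
    Phi d off a rem + acc * h + rr * a v ≤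
      Phi d off a (zap rem (25 * ((k - v) % d))) + (acc + rr) * h +
        (look rem (25 * ((k - v) % d)) - off - rr * e) * a ((k - v) % d) := by
  have hw : (k - v) % d < d := Nat.mod_lt _ hd
  rw [Phi_zap a rem hw]
  have := step_ineq (x := a v) (y := a ((k - v) % d)) (h := h) (rr := rr)
    (wt := look rem (25 * ((k - v) % d)) - off) (e := e) (hle v hv) he (fun h1 h2 => by
      refine hk h1 v hv (fun h3 => h2 ?_)
      rw [← h3, h0]; simp)
  nlinarith

lemma scale (d k v : ℕ) :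
    Nat.mod (Nat.sub (25 * k) (25 * v)) (25 * d) = 25 * ((k - v) % d) := by
  change (25 * k - 25 * v) % (25 * d) = _
  rw [← Nat.mul_sub, Nat.mul_mod_mul_left]

lemma loop_succ (D K1 K2 off e2 : ℕ) (k : ℕ → ℕ → ℕ → ℕ → ℕ) (n v rem acc rr w w2 : ℕ)
    (hw : Nat.mod (Nat.sub K2 v) D = w) (hw2 : Nat.mod (Nat.sub K1 w) D = w2) :
    loop D K1 K2 off e2 k (n + 1) v rem acc rr =
      loop D K1 K2 off e2 k n w2 (zap (zap rem w) w2)
        (acc + rr + (look rem w - off - rr * e2))
        (look (zap rem w) w2 - off - (look rem w - off - rr * e2)) := by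
  subst hw hw2
  rfl

/-- The constraints used by a sweep. -/
structure Edges (d h k1 k2 e2 : ℕ) (a : ℕ → ℕ) : Prop where
  pos : 0 < d
  le : ∀ p, p < d → a p ≤ h
  e : e2 ≤ 1
  e1 : ∀ v, v < d → v ≠ (k1 - v) % d → a v + a ((k1 - v) % d) ≤ h
  e2' : e2 ≠ 0 → ∀ v, v < d → v ≠ (k2 - v) % d → a v + a ((k2 - v) % d) ≤ h
  f1 : ∀ v, v < d → v = (k1 - v) % d → 2 * a v ≤ h + 1
  f2 : e2 ≠ 0 → ∀ v, v < d → v = (k2 - v) % d → 2 * a v ≤ h + 1

lemma loop_sound {d h k1 k2 e2 off : ℕ} {a : ℕ → ℕ} (E : Edges d h k1 k2 e2 a)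
    (k : ℕ → ℕ → ℕ → ℕ → ℕ) (n : ℕ) : ∀ v rem acc rr, v < d → look rem (25 * v) = 0 →
    ∃ v' rem' acc' rr', v' < d ∧
      loop (25 * d) (25 * k1) (25 * k2) off e2 k n (25 * v) rem acc rr = k (25 * v') rem' acc' rr' ∧
      Phi d off a rem + acc * h + rr * a v ≤ Phi d off a rem' + acc' * h + rr' * a v' := by
  induction n with
  | zero => intro v rem acc rr hv _; exact ⟨v, rem, acc, rr, hv, rfl, le_rfl⟩
  | succ n ih =>
    intro v rem acc rr hv h0
    rw [loop_succ _ _ _ _ _ _ _ _ _ _ _ _ _ (scale d k2 v) (scale d k1 _)]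
    have hw : (k2 - v) % d < d := Nat.mod_lt _ E.pos
    have s1 := step_sound (off := off) (acc := acc) (rr := rr) E.pos E.le E.e E.e2' hv h0
    have s2 := step_sound (off := off) (k := k1) (e := 1) (acc := acc + rr)
      (rr := look rem (25 * ((k2 - v) % d)) - off - rr * e2)
      (rem := zap rem (25 * ((k2 - v) % d))) E.pos E.le le_rfl (fun _ => E.e1) hw
      (by rw [look_zap, if_pos rfl])
    rw [mul_one] at s2
    obtain ⟨v', rem', acc', rr', a1, a2, a3⟩ := ih _ _ _ _ (Nat.mod_lt _ E.pos)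
      (show look (zap (zap rem (25 * ((k2 - v) % d))) (25 * ((k1 - (k2 - v) % d) % d)))
        (25 * ((k1 - (k2 - v) % d) % d)) = 0 by rw [look_zap, if_pos rfl])
    exact ⟨v', rem', acc', rr', a1, a2, (s1.trans s2).trans a3⟩

lemma walk_sound {d h k1 k2 e2 off : ℕ} {a : ℕ → ℕ} (E : Edges d h k1 k2 e2 a)
    (k : ℕ → ℕ → ℕ → ℕ) (v len m2 rem acc ah : ℕ) (hv : v < d) :
    ∃ rem' acc' ah',
      walk (25 * d) (25 * k1) (25 * k2) off e2 (25 * v) len m2 rem acc ah k = k rem' acc' ah' ∧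
      2 * Phi d off a rem + 2 * (acc * h) + ah * (h + 1) ≤
        2 * Phi d off a rem' + 2 * (acc' * h) + ah' * (h + 1) := by
  unfold walk
  rw [force_eq]
  set z := head (25 * d) (25 * k1) (25 * k2) off (25 * v) m2 rem with hz
  have hz1 : z ≤ look rem (25 * v) - off ∧ 2 * (z * a v) ≤ z * (h + 1) := by
    rw [hz]; unfold head
    rw [sel_eq, scale]
    split_ifs with hc
    · have h1 : v = (k1 - v) % d := by
        have := Nat.eq_of_beq_eq_true hc
        omega
      refine ⟨Nat.sub_le _ _, ?_⟩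
      have := E.f1 v hv h1
      nlinarith [Nat.mul_le_mul_left (Nat.sub (Nat.sub (look rem (25 * v)) off)
        (Nat.mul (Nat.sub (look rem (Nat.mod (Nat.sub (25 * k2) (25 * v)) (25 * d))) off) m2)) this]
    · simp
  obtain ⟨v', rem', acc', rr', a1, a2, a3⟩ := loop_sound (off := off) E (fun v rem' acc' rr =>
      sel (Bool.and (Nat.beq e2 1) (Nat.beq (Nat.mod (Nat.sub (25 * k2) v) (25 * d)) v))
        (k rem' acc' (Nat.add (Nat.add ah z) rr)) (k rem' (Nat.add acc' rr) (Nat.add ah z)))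
      len v (zap rem (25 * v)) acc (Nat.sub (Nat.sub (look rem (25 * v)) off) z) hv
      (by rw [look_zap, if_pos rfl])
  rw [a2, sel_eq, scale]
  have b1 := Phi_zap (off := off) a rem hv
  obtain ⟨u, hu⟩ := Nat.exists_eq_add_of_le hz1.1
  have b2 : Nat.sub (Nat.sub (look rem (25 * v)) off) z = u := by
    change look rem (25 * v) - off - z = u
    omega
  rw [b2] at a3
  rw [hu] at b1
  have b3 := hz1.2
  split_ifs with hc
  · refine ⟨_, _, _, rfl, ?_⟩
    rw [Bool.and_eq_true] at hc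
    have c1 := Nat.eq_of_beq_eq_true hc.1
    have c2 := Nat.eq_of_beq_eq_true hc.2
    have c3 := E.f2 (by omega) v' a1 (by omega)
    change _ ≤ _ + (ah + z + rr') * (h + 1)
    nlinarith [Nat.mul_le_mul_left rr' c3]
  · refine ⟨_, _, _, rfl, ?_⟩
    change _ ≤ _ + 2 * ((acc' + rr') * h) + (ah + z) * (h + 1)
    nlinarith [Nat.mul_le_mul_left rr' (E.le v' a1)]

lemma walks_sound {d h k1 k2 e2 off : ℕ} {a : ℕ → ℕ} (E : Edges d h k1 k2 e2 a)
    (k : ℕ → ℕ → ℕ → ℕ → ℕ) (nw : ℕ) : ∀ s rem acc ah, ∃ s' rem' acc' ah',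
      walks (25 * d) (25 * k1) (25 * k2) off e2 k nw s rem acc ah = k s' rem' acc' ah' ∧
      2 * Phi d off a rem + 2 * (acc * h) + ah * (h + 1) ≤
        2 * Phi d off a rem' + 2 * (acc' * h) + ah' * (h + 1) := by
  induction nw with
  | zero => intro s rem acc ah; exact ⟨s, rem, acc, ah, rfl, le_rfl⟩
  | succ n ih =>
    intro s rem acc ah
    have e : walks (25 * d) (25 * k1) (25 * k2) off e2 k (n + 1) s rem acc ah =
        walk (25 * d) (25 * k1) (25 * k2) off e2 ((25 * fld s 0) % (25 * d)) (fld s 10) (fld s 20)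
          rem acc ah (fun rem' acc' ah' => force rem' fun rem'' => force acc' fun acc'' =>
            walks (25 * d) (25 * k1) (25 * k2) off e2 k n (Nat.shiftRight s 30) rem'' acc'' ah') :=
      rfl
    rw [e, Nat.mul_mod_mul_left]
    obtain ⟨r1, a1, h1, b1, b2⟩ := walk_sound (off := off) E
      (fun rem' acc' ah' => force rem' fun rem'' => force acc' fun acc'' =>
            walks (25 * d) (25 * k1) (25 * k2) off e2 k n (Nat.shiftRight s 30) rem'' acc'' ah')
      (fld s 0 % d) (fld s 10) (fld s 20) rem acc ah (Nat.mod_lt _ E.pos)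
    rw [b1, force_eq, force_eq]
    obtain ⟨s', r2, a2, h2, c1, c2⟩ := ih (Nat.shiftRight s 30) r1 a1 h1
    exact ⟨s', r2, a2, h2, c1, b2.trans c2⟩

end Pool.Agent.Lib.MP_7ad46c_co.Chk
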