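import Mathlib

/-!
Fibre profiles: the sizes of the fibres of a set that misses a restricted triple sum, together
with the Fourier information.
-/

set_option autoImplicit false

namespace Pool.Agent.Lib.MP_7ad46c_co

open Finset

/-- The angle of the position `p` in the frame `r`. -/
noncomputable def ang (d j : ℕ) : ℝ := 2 * Real.pi * j / (3 * d)

noncomputable def PX (d r : ℕ) (a : ℕ → ℕ) : ℝ :=
  ∑ p ∈ range d, (a p : ℝ) * (-Real.cos (ang d (3 * p + r)))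

noncomputable def PY (d r : ℕ) (a : ℕ → ℕ) : ℝ :=
  ∑ p ∈ range d, (a p : ℝ) * (-Real.sin (ang d (3 * p + r)))

structure Prof (d h r : ℕ) (a : ℕ → ℕ) (m : ℕ) : Prop where
  le : ∀ i, i < d → a i ≤ h
  pair : ∀ c i j, c < d → i < d → j < d → 1 ≤ a c → (i + j + c + r) % d = 0 →
    a i + a j ≤ h + (if i = c then 1 else 0) + (if j = c then 1 else 0) + (if i = j then 1 else 0)
  sum : ∑ i ∈ range d, a i = m
  big : d * h + 8 ≤ 3 * m
  lt : m < d * h
  pos : 0 < PX d r a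
  four : ((m : ℝ) ^ 2 - 3 * (d * h : ℕ)) * (PX d r a ^ 2 + PY d r a ^ 2) ≤
    (((d * h : ℕ) : ℝ) - m) * (PX d r a ^ 3 - 3 * PX d r a * PY d r a ^ 2)

/-- The support lies in a short window. -/
def Concl (d h : ℕ) (a : ℕ → ℕ) (m : ℕ) : Prop :=
  ∃ lo L, (∀ p, p < d → 0 < a p → lo ≤ p ∧ p < lo + L) ∧
    (2 * L ≤ d + 1 ∨ (L + 1) * h + 7 ≤ 2 * m)

def JobOK (d r H : ℕ) (uni : Bool) : Prop :=
  ∀ h a m, (h = H ∨ (uni = true ∧ H ≤ h)) → Prof d h r a m → Concl d h a m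

lemma Prof.cube {d h r m : ℕ} {a : ℕ → ℕ} (P : Prof d h r a m) {b : ℝ}
    (hb : b * (((d * h : ℕ) : ℝ) - m) ≤ (m : ℝ) ^ 2 - 3 * (d * h : ℕ)) :
    b * (PX d r a ^ 2 + PY d r a ^ 2) ≤ PX d r a ^ 3 - 3 * PX d r a * PY d r a ^ 2 := by
  have h1 : (0 : ℝ) < ((d * h : ℕ) : ℝ) - m := by
    have := P.lt
    have : (m : ℝ) < (d * h : ℕ) := by exact_mod_cast this
    linarith
  have h2 := mul_le_mul_of_nonneg_right hb
    (show 0 ≤ PX d r a ^ 2 + PY d r a ^ 2 by positivity)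
  have h3 := P.four
  refine le_of_mul_le_mul_left ?_ h1
  linarith

lemma beta_gen {n m : ℕ} (h1 : n + 8 ≤ 3 * m) (h2 : m < n) :
    ((n : ℝ) - 7) / 6 * ((n : ℝ) - m) ≤ (m : ℝ) ^ 2 - 3 * n := by
  have a1 : (n : ℝ) + 8 ≤ 3 * m := by exact_mod_cast h1
  have a2 : (m : ℝ) < n := by exact_mod_cast h2
  obtain ⟨t, ht, rfl'⟩ : ∃ t : ℝ, 0 ≤ t ∧ (m : ℝ) = (n + 8) / 3 + t :=
    ⟨m - (n + 8) / 3, by linarith, by ring⟩
  have a3 : (4 : ℝ) ≤ n := by linarith
  rw [rfl']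
  nlinarith [mul_nonneg ht ht, mul_nonneg ht (show (0 : ℝ) ≤ n - 4 by linarith)]

lemma eta_poly {s e y : ℝ} (hs : 0 ≤ s) (he : e ≤ 1) (h1 : 3 / 2 + 578 / 1000 * s ≤ 3 * e)
    (h2 : s ^ 2 ≤ 4 * (1 - e) * (1 + 3 * e - 2 / 5 * s ^ 2)) (hy : 3 * y ^ 2 < 1) :
    e * (1 - 3 * y ^ 2) ≤ (1 + y ^ 2) * (1 + s * y) := by
  have key : 0 ≤ (1 - e) + s * y + (1 + 3 * e + s * y) * y ^ 2 := by
    rcases le_or_gt 0 y with h | h
    · have := mul_nonneg hs h
      have : 0 ≤ 1 + 3 * e + s * y := by linarith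
      positivity
    · obtain ⟨z, rfl⟩ : ∃ z, y = -z := ⟨-y, by ring⟩
      have hz : 0 < z := by linarith
      have hz1 : z ≤ 578 / 1000 := by nlinarith
      have hsz := mul_le_mul_of_nonneg_left hz1 hs
      rcases le_or_gt (2 / 5 * s) z with h3 | h3
      · have h4 : 5 / 2 ≤ 1 + 3 * e - s * z := by linarith
        have h5 := mul_le_mul_of_nonneg_right h4 (sq_nonneg z)
        have h6 := mul_le_mul_of_nonneg_right h3 hz.le
        nlinarith
      · have hs0 : 0 < s := by linarith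
        set k := 1 + 3 * e - 2 / 5 * s ^ 2 with hk
        have hk0 : 0 < k := by
          by_contra hc
          have : 4 * (1 - e) * k ≤ 0 :=
            mul_nonpos_of_nonneg_of_nonpos (by linarith) (by linarith)
          nlinarith
        have h4 : k ≤ 1 + 3 * e - s * z := by
          have := mul_le_mul_of_nonneg_left h3.le hs
          nlinarith
        have h5 := mul_le_mul_of_nonneg_right h4 (sq_nonneg z)
        have h6 : 0 ≤ (1 - e) - s * z + k * z ^ 2 := by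
          have : 0 ≤ 4 * k * ((1 - e) - s * z + k * z ^ 2) := by
            nlinarith [sq_nonneg (2 * k * z - s)]
          exact nonneg_of_mul_nonneg_right this (by linarith) |> fun h => by
            rcases le_or_gt 0 ((1 - e) - s * z + k * z ^ 2) with h7 | h7
            · exact h7
            · nlinarith [mul_pos hk0 (neg_pos.2 h7)]
        nlinarith
  nlinarith

lemma eta_lin {X Y b s e : ℝ} (hX : 0 < X) (hb : 0 < b)
    (hc : b * (X ^ 2 + Y ^ 2) ≤ X ^ 3 - 3 * X * Y ^ 2) (hs : 0 ≤ s) (he : e ≤ 1)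
    (h1 : 3 / 2 + 578 / 1000 * s ≤ 3 * e)
    (h2 : s ^ 2 ≤ 4 * (1 - e) * (1 + 3 * e - 2 / 5 * s ^ 2)) : e * b ≤ X + s * Y := by
  obtain ⟨y, rfl⟩ : ∃ y, Y = X * y := ⟨Y / X, by field_simp⟩
  have h3 : b * (1 + y ^ 2) ≤ X * (1 - 3 * y ^ 2) := by
    have hX2 : 0 < X ^ 2 := by positivity
    refine le_of_mul_le_mul_left ?_ hX2
    nlinarith
  have h4 : 0 < b * (1 + y ^ 2) := by positivity
  have h5 : 0 < 1 - 3 * y ^ 2 := by
    by_contra hc'
    have : X * (1 - 3 * y ^ 2) ≤ 0 := mul_nonpos_of_nonneg_of_nonpos hX.le (by linarith)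
    linarith
  have h6 := eta_poly hs he h1 h2 (y := y) (by linarith)
  have he0 : 0 < e := by linarith
  have h7 : 0 < 1 + s * y := by
    by_contra hc'
    have : (1 + y ^ 2) * (1 + s * y) ≤ 0 :=
      mul_nonpos_of_nonneg_of_nonpos (by positivity) (by linarith)
    have := mul_pos he0 h5
    linarith
  have h8 := mul_le_mul_of_nonneg_right h3 h7.le
  have h9 := mul_le_mul_of_nonneg_left h6 hb.le
  refine le_of_mul_le_mul_left ?_ h5
  nlinarith

end Pool.Agent.Lib.MP_7ad46c_co
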