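import Pool.Agent.Lib.MP_7ad46c_co.ChkA
import Pool.Agent.Lib.MP_7ad46c_co.Prof

/-!
Soundness of the tree checker.
-/

set_option autoImplicit false

namespace Pool.Agent.Lib.MP_7ad46c_co.Chk

open Finset

/-- Correctness of the packed tables. -/
structure Tabs (d r n TC TP TM TO : ℕ) (c sp sm : ℕ → ℕ) : Prop where
  tc : TC = pk c n
  tp : TP = pk sp n
  tm : TM = pk sm n
  tn : TO = pk (fun _ => 1) n
  bc : ∀ p, p < n → c p ≤ 196610 ∧ 65536 * (1 - Real.cos (ang d (3 * p + r))) ≤ c p
  bp : ∀ p, p < n → sp p ≤ 196610 ∧ 65536 * (1 - Real.sin (ang d (3 * p + r))) ≤ sp p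
  bm : ∀ p, p < n → sm p ≤ 196610 ∧ 65536 * (1 + Real.sin (ang d (3 * p + r))) ≤ sm p

structure Good (P : Par) (h : ℕ) (a : ℕ → ℕ) (m : ℕ) (b : ℝ) (c sp sm : ℕ → ℕ) : Prop where
  prof : Prof P.d h P.r a m
  r2 : P.r ≤ 2
  d2 : 2 ≤ P.d
  hH : h = P.H ∨ (P.uni = true ∧ P.H ≤ h)
  one : P.one = true → h = 1
  mlow : P.mA * h + P.mB ≤ 600 * m
  b0 : 0 < b
  b1 : (P.bA * h + P.bP : ℝ) - P.bB ≤ 600 * b
  b2 : b * (PX P.d P.r a ^ 2 + PY P.d P.r a ^ 2) ≤
    PX P.d P.r a ^ 3 - 3 * PX P.d P.r a * PY P.d P.r a ^ 2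
  tabs : Tabs P.d P.r P.d P.TC P.TP P.TM P.TO c sp sm

structure Inv (d : ℕ) (a : ℕ → ℕ) (M : ℕ) (I : List ℕ) : Prop where
  alive : ∀ p, p < d → 0 < a p → look M (25 * p) = 2 ^ 25 - 1
  nodup : I.Nodup
  mem : ∀ c ∈ I, c < d ∧ 1 ≤ a c

lemma mem_iff (x : ℕ) (l : List ℕ) : mem x l = true ↔ x ∈ l := by
  induction l with
  | nil => simp [mem]
  | cons c l ih =>
    have e : mem x (c :: l) = Bool.rec (motive := fun _ => Bool) (mem x l) true (Nat.beq c x) := rfl
    rw [e, List.mem_cons, ← ih]
    by_cases h : c = x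
    · subst h; simp
    · have : Nat.beq c x = false := by
        rw [← Bool.not_eq_true]; exact fun h' => h (Nat.eq_of_beq_eq_true h')
      rw [this]
      simp [Ne.symm h]

lemma sumIn_eq (T : ℕ) (l : List ℕ) : sumIn T l = (l.map fun c => look T (25 * c)).sum := by
  induction l with
  | nil => rfl
  | cons c l ih =>
    have e : sumIn T (c :: l) = sumIn T l + look T (25 * c) := rfl
    rw [e, ih, List.map_cons, List.sum_cons, add_comm]

lemma lenIn_eq (l : List ℕ) : lenIn l = l.length := by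
  induction l with
  | nil => rfl
  | cons c l ih =>
    have e : lenIn (c :: l) = lenIn l + 1 := rfl
    rw [e, ih, List.length_cons]

lemma look_zapIn (X p : ℕ) (l : List ℕ) (hp : p ∉ l) :
    look (zapIn X l) (25 * p) = look X (25 * p) := by
  induction l with
  | nil => rfl
  | cons c l ih =>
    have e : zapIn X (c :: l) = zap (zapIn X l) (25 * c) := rfl
    rw [List.mem_cons, not_or] at hp
    rw [e, look_zap, if_neg hp.1, ih hp.2]

lemma refl_mod {d r c v : ℕ} (hr : r ≤ 2) (hd : 2 ≤ d) (hc : c < d) (hv : v < d) :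
    (v + (3 * d - r - c - v) % d + c + r) % d = 0 := by
  have h1 : (v + (3 * d - r - c - v) % d + c + r) % d = (v + (3 * d - r - c - v) + c + r) % d := by
    have e : ∀ x, v + x + c + r = x + (v + c + r) := fun x => by ring
    rw [e, e, Nat.mod_add_mod]
  rw [h1, show v + (3 * d - r - c - v) + c + r = 3 * d by omega]
  simp

lemma look_kills {d h r m x M : ℕ} {a : ℕ → ℕ} (hp : Prof d h r a m) (h1 : h = 1) (hr : r ≤ 2)
    (hd : 2 ≤ d) (hx : x < d) (hax : 1 ≤ a x) (l : List ℕ) (hxl : x ∉ l)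
    (hl : ∀ c ∈ l, c < d ∧ 1 ≤ a c) {p : ℕ} (hap : 0 < a p) :
    look (kills d r x M l) (25 * p) = look M (25 * p) := by
  induction l with
  | nil => rfl
  | cons c l ih =>
    have e : kills d r x M (c :: l) = force ((3 * d - r - c - x) % d) fun j =>
      sel (Bool.or (Nat.beq j c) (Nat.beq j x)) (kills d r x M l)
        (zap (kills d r x M l) (25 * j)) := rfl
    rw [List.mem_cons, not_or] at hxl
    have ih' := ih hxl.2 (fun c' hc' => hl c' (List.mem_cons_of_mem _ hc'))
    rw [e, force_eq, sel_eq]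
    split_ifs with hc
    · exact ih'
    · rw [look_zap, if_neg, ih']
      intro hpj
      obtain ⟨hc1, hc2⟩ := hl c List.mem_cons_self
      have := hp.pair c x _ hc1 hx (Nat.mod_lt _ (by omega)) hc2 (refl_mod hr hd hc1 hx)
      rw [← hpj] at this hc
      simp only [Bool.or_eq_true, Nat.beq_eq, not_or] at hc
      rw [if_neg hxl.1, if_neg hc.1, if_neg (Ne.symm hc.2)] at this
      omega

lemma eta_sound {sg e : ℕ} (h : etaOK sg e = true) {X Y b : ℝ} (hX : 0 < X) (hb : 0 < b)
    (hc : b * (X ^ 2 + Y ^ 2) ≤ X ^ 3 - 3 * X * Y ^ 2) :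
    (e : ℝ) / 1000 * b ≤ X + (sg : ℝ) / 32 * Y := by
  simp only [etaOK, Bool.and_eq_true, Nat.ble_eq] at h
  obtain ⟨h1, h2, h3⟩ := h
  obtain ⟨k, hk⟩ := Nat.exists_eq_add_of_le h1
  have e1 : Nat.sub 1000 e = k := by change 1000 - e = k; omega
  rw [e1] at h3
  have h2' : 48000 + 578 * (sg : ℝ) ≤ 96 * e := by exact_mod_cast h2
  have h3' : (1000000 + 1600 * (k : ℝ)) * (sg * sg) ≤ 4096 * k * (1000 + 3 * e) := by
    exact_mod_cast h3
  have hk' : (k : ℝ) = 1000 - e := by
    have : (1000 : ℝ) = e + k := by exact_mod_cast hk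
    linarith
  have h1' : (e : ℝ) ≤ 1000 := by exact_mod_cast h1
  rw [hk'] at h3'
  refine eta_lin hX hb hc (by positivity) (by linarith) (by linarith) ?_
  nlinarith

lemma pk_comb (c s : ℕ → ℕ) (n sg l : ℕ) :
    32 * pk c n + sg * pk s n + l * 65536 * pk (fun _ => 1) n =
      pk (fun p => 32 * c p + sg * s p + l * 65536) n := by
  unfold pk
  rw [mul_sum, mul_sum, mul_sum, ← sum_add_distrib, ← sum_add_distrib]
  exact sum_congr rfl fun p _ => by ring

/-- The lower bound for the total weight. -/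
lemma total_ge {P : Par} {h m : ℕ} {a c sp sm : ℕ → ℕ} {b : ℝ} (G : Good P h a m b c sp sm)
    {sg ng e l : ℕ} (he : etaOK sg e = true) (hs : sg ≤ 44) (hl : l ≤ 128) :
    65536 * (32 * ((e : ℝ) / 1000 * b) + l * m) ≤
      ∑ p ∈ range P.d, (a p : ℝ) * (look (wtab P sg ng l) (25 * p) - ((32 + sg) * 65536 : ℕ)) := by
  have T := G.tabs
  have hm : (m : ℝ) = ∑ p ∈ range P.d, (a p : ℝ) := by rw [← G.prof.sum]; push_cast; rfl
  have key : ∀ (s : ℕ → ℕ) (σ : ℝ), (∀ p, p < P.d → s p ≤ 196610 ∧
      65536 * (1 - σ * Real.sin (ang P.d (3 * p + P.r))) ≤ s p) →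
      (e : ℝ) / 1000 * b ≤ PX P.d P.r a + (sg : ℝ) / 32 * (σ * PY P.d P.r a) →
      65536 * (32 * ((e : ℝ) / 1000 * b) + l * m) ≤ ∑ p ∈ range P.d, (a p : ℝ) *
        (look (32 * pk c P.d + sg * pk s P.d + l * 65536 * pk (fun _ => 1) P.d) (25 * p)
          - ((32 + sg) * 65536 : ℕ)) := by
    intro s σ hsb hin
    rw [pk_comb]
    have h1 : 65536 * (32 * (PX P.d P.r a + (sg : ℝ) / 32 * (σ * PY P.d P.r a)) + l * m) =
        ∑ p ∈ range P.d, (a p : ℝ) * (65536 * (32 * (-Real.cos (ang P.d (3 * p + P.r))) +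
          sg * (σ * -Real.sin (ang P.d (3 * p + P.r))) + l)) := by
      rw [hm]
      unfold PX PY
      simp only [mul_add, mul_sum, ← sum_add_distrib]
      exact sum_congr rfl fun p _ => by ring
    refine le_trans (by linarith) (h1.le.trans (sum_le_sum fun p hp => ?_))
    rw [mem_range] at hp
    refine mul_le_mul_of_nonneg_left ?_ (Nat.cast_nonneg _)
    rw [look_pk _ hp]
    · have a1 := (T.bc p hp).2
      have a2 := mul_le_mul_of_nonneg_left (hsb p hp).2 (Nat.cast_nonneg (α := ℝ) sg)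
      push_cast
      linarith
    · intro q hq
      have a1 := (T.bc q hq).1
      have a2 := Nat.mul_le_mul hs (hsb q hq).1
      omega
  have e0 : wtab P sg ng l = 32 * P.TC + sg * sel (Nat.beq ng 0) P.TP P.TM + l * 65536 * P.TO := rfl
  rw [e0, sel_eq, T.tc, T.tn]
  split_ifs
  · rw [T.tp]
    refine key sp 1 (by simpa using T.bp) ?_
    rw [one_mul]
    exact eta_sound he G.prof.pos G.b0 G.b2
  · rw [T.tm]
    refine key sm (-1) (by simpa using T.bm) ?_
    refine eta_sound he G.prof.pos G.b0 ?_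
    have := G.b2
    nlinarith

/-- The profile with one element removed from every fibre in the list. -/
def red (a : ℕ → ℕ) (I : List ℕ) (p : ℕ) : ℕ := a p - if p ∈ I then 1 else 0

lemma total_le {d off T M rem : ℕ} {a : ℕ → ℕ} {I : List ℕ} (V : Inv d a M I)
    (hrem : ∀ p, p < d → 0 < red a I p → look rem (25 * p) = look T (25 * p)) :
    ∑ p ∈ range d, (a p : ℝ) * (look T (25 * p) - off) ≤
      Phi d off (red a I) rem + sumIn T I - lenIn I * off := by
  have h1 : ∀ p ∈ range d, (a p : ℝ) * (look T (25 * p) - off) ≤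
      ((red a I p * (look rem (25 * p) - off) : ℕ) : ℝ) +
        if p ∈ I.toFinset then ((look T (25 * p) : ℝ) - off) else 0 := by
    intro p hp
    rw [mem_range] at hp
    have e1 : (a p : ℝ) = red a I p + if p ∈ I.toFinset then 1 else 0 := by
      unfold red
      simp only [List.mem_toFinset]
      split_ifs with h
      · rw [Nat.cast_sub (V.mem p h).2]; simp
      · simp
    have e2 : (red a I p : ℝ) * (look T (25 * p) - off) ≤
        ((red a I p * (look rem (25 * p) - off) : ℕ) : ℝ) := by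
      rcases Nat.eq_zero_or_pos (red a I p) with h | h
      · simp [h]
      · rw [hrem p hp h, Nat.cast_mul]
        refine mul_le_mul_of_nonneg_left ?_ (Nat.cast_nonneg _)
        rcases le_total off (look T (25 * p)) with h2 | h2
        · rw [Nat.cast_sub h2]
        · have : (look T (25 * p) : ℝ) ≤ off := by exact_mod_cast h2
          have := Nat.cast_nonneg (α := ℝ) (look T (25 * p) - off)
          linarith
    rw [e1, add_mul]
    split_ifs <;> linarith
  refine (sum_le_sum h1).trans (le_of_eq ?_)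
  rw [sum_add_distrib, ← Nat.cast_sum, sum_ite_mem,
    inter_eq_right.2 (fun x hx => mem_range.2 (V.mem x (List.mem_toFinset.1 hx)).1),
    sum_sub_distrib, sum_const, List.toFinset_card_of_nodup V.nodup, ← Nat.cast_sum,
    List.sum_toFinset _ V.nodup, sumIn_eq, lenIn_eq, nsmul_eq_mul]
  unfold Phi
  ring

lemma edges_red {d h r m M c1 c2 e2 : ℕ} {a : ℕ → ℕ} {I : List ℕ} (hp : Prof d h r a m)
    (hr : r ≤ 2) (hd : 2 ≤ d) (V : Inv d a M I) (h1 : c1 ∈ I) (he : e2 ≤ 1)
    (h2 : e2 ≠ 0 → c2 ∈ I) : Edges d h (3 * d - r - c1) (3 * d - r - c2) e2 (red a I) := by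
  have key : ∀ c ∈ I, ∀ v, v < d → red a I v + red a I ((3 * d - r - c - v) % d) ≤
      h + if v = (3 * d - r - c - v) % d then 1 else 0 := by
    intro c hc v hv
    obtain ⟨hc1, hc2⟩ := V.mem c hc
    have := hp.pair c v _ hc1 hv (Nat.mod_lt _ (by omega)) hc2 (refl_mod hr hd hc1 hv)
    generalize (3 * d - r - c - v) % d = w at *
    have b : ∀ x, red a I x + (if x = c then 1 else 0) ≤ a x := by
      intro x
      unfold red
      by_cases hx : x = c
      · subst hx; rw [if_pos hc, if_pos rfl]; omega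
      · rw [if_neg hx]; omega
    have b1 := b v
    have b2 := b w
    omega
  refine ⟨by omega, fun p hp' => (Nat.sub_le _ _).trans (hp.le p hp'), he, ?_, ?_, ?_, ?_⟩
  · intro v hv hne
    have := key c1 h1 v hv
    rwa [if_neg hne] at this
  · intro h0 v hv hne
    have := key c2 (h2 h0) v hv
    rwa [if_neg hne] at this
  · intro v hv hne
    have := key c1 h1 v hv
    rw [if_pos hne, ← hne] at this
    omega
  · intro h0 v hv hne
    have := key c2 (h2 h0) v hv
    rw [if_pos hne, ← hne] at this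
    omega

lemma final_sound {P : Par} {h m : ℕ} {a c sp sm : ℕ → ℕ} {b : ℝ} (G : Good P h a m b c sp sm)
    {e l off ts k acc ah : ℕ} (hf : final P e l off ts k acc ah = true) :
    (2 * (acc * h) + ah * (h + 1) + 2 * ts : ℝ) - 2 * (k * off) <
      2 * (65536 * (32 * ((e : ℝ) / 1000 * b) + l * m)) := by
  simp only [final, Bool.and_eq_true, Nat.blt_eq, Bool.or_eq_true, Bool.not_eq_true',
    Nat.ble_eq, Nat.add_eq, Nat.mul_eq] at hf
  obtain ⟨f1, f2⟩ := hf
  have f3 : 600000 * (2 * acc + ah) * h + (600000 * (ah + 2 * ts) + 4194304 * e * P.bB) <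
      131072 * (32 * e * P.bA + 1000 * l * P.mA) * h +
        (1200000 * k * off + 131072 * (32 * e * P.bP + 1000 * l * P.mB)) := by
    rcases G.hH with rfl | ⟨hu, hH⟩
    · exact f1
    · obtain ⟨t, rfl⟩ := Nat.exists_eq_add_of_le hH
      have f4 := f2.resolve_left (by simp [hu])
      have := Nat.mul_le_mul_right t f4
      rw [mul_add _ P.H, mul_add _ P.H]
      omega
  have f4 : (600000 * (2 * acc + ah) * h + (600000 * (ah + 2 * ts) + 4194304 * e * P.bB) : ℝ) <
      131072 * (32 * e * P.bA + 1000 * l * P.mA) * h +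
        (1200000 * k * off + 131072 * (32 * e * P.bP + 1000 * l * P.mB)) := by
    exact_mod_cast f3
  have g1 : (P.mA * h + P.mB : ℝ) ≤ 600 * m := by exact_mod_cast G.mlow
  have g2 := mul_le_mul_of_nonneg_left g1 (Nat.cast_nonneg (α := ℝ) l)
  have g3 := mul_le_mul_of_nonneg_left G.b1 (Nat.cast_nonneg (α := ℝ) e)
  nlinarith

lemma sweep_sound {P : Par} {h m : ℕ} {a c sp sm : ℕ → ℕ} {b : ℝ} (G : Good P h a m b c sp sm)
    {s M sg ng e l c1 c2 e2 : ℕ} {I : List ℕ} (V : Inv P.d a M I) (he2 : e2 ≤ 1) :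
    sweep P s M I sg ng e l c1 c2 e2 = 0 := by
  unfold sweep
  rw [sel_eq]
  split_ifs with hc
  swap
  · rfl
  simp only [Bool.and_eq_true, Nat.ble_eq, mem_iff, Bool.or_eq_true, Nat.beq_eq] at hc
  obtain ⟨h1, h2, h3, h4, h5⟩ := hc
  have E := edges_red (c2 := c2) G.prof G.r2 G.d2 V h4 he2 (fun h => h5.resolve_left h)
  simp only [force_eq]
  obtain ⟨s', rem', acc', ah', w1, w2⟩ := walks_sound (off := (32 + sg) * 65536) E
    (fun s' rem acc ah => sel (Bool.and (Nat.beq rem 0) (final P e l ((32 + sg) * 65536)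
      (sumIn (wtab P sg ng l) I) (lenIn I) acc ah)) (Nat.succ s') 0) (fld s 70)
    (Nat.shiftRight s 80)
    (sel P.one (zapIn (Nat.land (wtab P sg ng l) M) I) (Nat.land (wtab P sg ng l) M)) 0 0
  refine Eq.trans w1 ?_
  rw [sel_eq]
  split_ifs with hd
  swap
  · rfl
  exfalso
  rw [Bool.and_eq_true] at hd
  obtain rfl := Nat.eq_of_beq_eq_true hd.1
  have t1 := total_ge (ng := ng) G h1 h2 h3
  have t2 := total_le (T := wtab P sg ng l) (off := (32 + sg) * 65536)
    (rem := sel P.one (zapIn (Nat.land (wtab P sg ng l) M) I) (Nat.land (wtab P sg ng l) M)) V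
    (by
      intro p hp hap
      have hap' : 0 < a p := lt_of_lt_of_le hap (Nat.sub_le _ _)
      rw [sel_eq]
      split_ifs with ho
      · rw [look_zapIn, look_land_full _ _ _ (V.alive p hp hap')]
        intro hpI
        have := G.prof.le p hp
        have := G.one ho
        unfold red at hap
        rw [if_pos hpI] at hap
        omega
      · exact look_land_full _ _ _ (V.alive p hp hap'))
  have t3 := final_sound G hd.2
  rw [Phi_zero] at w2
  have w3 : (2 * Phi P.d ((32 + sg) * 65536) (red a I)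
      (sel P.one (zapIn (Nat.land (wtab P sg ng l) M) I) (Nat.land (wtab P sg ng l) M)) : ℝ) ≤
      2 * (acc' * h) + ah' * (h + 1) := by
    have : 2 * Phi P.d ((32 + sg) * 65536) (red a I)
      (sel P.one (zapIn (Nat.land (wtab P sg ng l) M) I) (Nat.land (wtab P sg ng l) M)) ≤
      2 * (acc' * h) + ah' * (h + 1) := by omega
    exact_mod_cast this
  linarith

lemma window_sound {P : Par} {a : ℕ → ℕ} {s M : ℕ} {I : List ℕ} (V : Inv P.d a M I)
    (hw : window P s M ≠ 0) : ∃ lo, ∀ p, p < P.d → 0 < a p → lo ≤ p ∧ p < lo + P.L := by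
  unfold window at hw
  rw [sel_eq] at hw
  split_ifs at hw with hc
  swap
  · exact absurd rfl hw
  rw [Bool.and_eq_true] at hc
  have h1 : M >>> (25 * (fld s 10 + P.L)) = 0 := Nat.eq_of_beq_eq_true hc.1
  have h2 : M % 2 ^ (25 * fld s 10) = 0 := Nat.eq_of_beq_eq_true hc.2
  refine ⟨fld s 10, fun p hp hap => ?_⟩
  have h3 : M.testBit (25 * p) = true := by
    have := congrArg (fun x => x.testBit 0) (V.alive p hp hap)
    simp only [testBit_look] at this
    simpa using this
  constructor
  · by_contra hlt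
    have := congrArg (fun x => x.testBit (25 * p)) h2
    simp only [Nat.testBit_mod_two_pow, h3, Nat.zero_testBit] at this
    have h4 : 25 * p < 25 * fld s 10 := by omega
    simp [h4] at this
  · by_contra hlt
    have := congrArg (fun x => x.testBit (25 * p - 25 * (fld s 10 + P.L))) h1
    simp only [Nat.testBit_shiftRight, Nat.zero_testBit] at this
    rw [show 25 * (fld s 10 + P.L) + (25 * p - 25 * (fld s 10 + P.L)) = 25 * p by omega, h3] at this
    exact absurd this (by simp)

lemma chk_sound {P : Par} {h m : ℕ} {a c sp sm : ℕ → ℕ} {b : ℝ} (G : Good P h a m b c sp sm)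
    (fuel : ℕ) : ∀ s M I, Inv P.d a M I → chk P fuel s M I ≠ 0 →
      ∃ lo, ∀ p, p < P.d → 0 < a p → lo ≤ p ∧ p < lo + P.L := by
  induction fuel with
  | zero => intro s M I _ h0; exact absurd rfl h0
  | succ n ih =>
    intro s M I V h0
    have e : chk P (n + 1) s M I = Nat.rec (motive := fun _ => ℕ) (window P s M) (fun t _ =>
        Nat.rec (motive := fun _ => ℕ)
          (force (Nat.div (fld s 10) 2) fun sg => force (Nat.mod (fld s 60) 2) fun e2 =>
            sweep P s M I sg (Nat.mod (fld s 10) 2) (fld s 20) (fld s 30) (fld s 40) (fld s 50) e2)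
          (fun x _ => sel (Bool.and (Nat.blt x P.d) (Bool.not (mem x I)))
            (Nat.rec (motive := fun _ => ℕ) 0
              (fun s2 _ => force (zap M (25 * x)) fun M2 => chk P n s2 M2 I)
              (chk P n (Nat.shiftRight s 10) (sel P.one (kills P.d P.r x M I) M) (x :: I))) 0) t)
        (fld s 0) := rfl
    rw [e] at h0
    generalize fld s 0 = t at h0
    rcases t with _ | _ | x
    · exact window_sound V h0
    · exfalso
      apply h0
      change (force (Nat.div (fld s 10) 2) fun sg => force (Nat.mod (fld s 60) 2) fun e2 =>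
        sweep P s M I sg (Nat.mod (fld s 10) 2) (fld s 20) (fld s 30) (fld s 40) (fld s 50) e2) = 0
      rw [force_eq, force_eq]
      exact sweep_sound G V (Nat.lt_succ_iff.1 (Nat.mod_lt _ two_pos))
    · change sel (Bool.and (Nat.blt x P.d) (Bool.not (mem x I)))
            (Nat.rec (motive := fun _ => ℕ) 0
              (fun s2 _ => force (zap M (25 * x)) fun M2 => chk P n s2 M2 I)
              (chk P n (Nat.shiftRight s 10) (sel P.one (kills P.d P.r x M I) M) (x :: I))) 0 ≠ 0
        at h0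
      rw [sel_eq] at h0
      split_ifs at h0 with hc
      swap
      · exact absurd rfl h0
      simp only [Bool.and_eq_true, Nat.blt_eq, Bool.not_eq_true'] at hc
      obtain ⟨hx, hxI⟩ := hc
      have hxI' : x ∉ I := fun h' => by rw [(mem_iff x I).2 h'] at hxI; exact absurd hxI (by simp)
      rcases Nat.eq_zero_or_pos (a x) with ha | ha
      · generalize chk P n (Nat.shiftRight s 10) (sel P.one (kills P.d P.r x M I) M) (x :: I) = u
          at h0
        rcases u with _ | u
        · exact absurd rfl h0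
        · change (force (zap M (25 * x)) fun M2 => chk P n u M2 I) ≠ 0 at h0
          rw [force_eq] at h0
          refine ih _ _ _ ⟨fun p hp hap => ?_, V.nodup, V.mem⟩ h0
          rw [look_zap, if_neg (by rintro rfl; omega), V.alive p hp hap]
      · refine ih (Nat.shiftRight s 10) (sel P.one (kills P.d P.r x M I) M) (x :: I)
          ⟨fun p hp hap => ?_, List.nodup_cons.2 ⟨hxI', V.nodup⟩, ?_⟩ ?_
        · rw [sel_eq]
          split_ifs with ho
          · rw [look_kills G.prof (G.one ho) G.r2 G.d2 hx ha I hxI' V.mem hap, V.alive p hp hap]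
          · exact V.alive p hp hap
        · intro c' hc'
          rcases List.mem_cons.1 hc' with rfl | h'
          · exact ⟨hx, ha⟩
          · exact V.mem c' h'
        · intro hz
          rw [hz] at h0
          exact h0 rfl

end Pool.Agent.Lib.MP_7ad46c_co.Chk
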