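import Pool.Agent.Lib.MP_7ad46c_co.ChkC

/-!
Soundness of a whole job.
-/

set_option autoImplicit false

namespace Pool.Agent.Lib.MP_7ad46c_co.Chk

open Finset

/-- The side conditions of a job. -/
def side (d r H : ℕ) (uni : Bool) (L : ℕ) : Bool :=
  decide (3 ≤ d ∧ d ≤ 1000 ∧ r ≤ 2 ∧
    (if uni = true then 8 ≤ d * H ∧ (2 * L ≤ d + 1 ∨
        (3 * ((L + 1) * H + 7) ≤ 2 * (d * H + 8) ∧ 3 * (L + 1) ≤ 2 * d))
      else m0 (d * H) < d * H ∧ 3 * (d * H) < m0 (d * H) * m0 (d * H) ∧
        (2 * L ≤ d + 1 ∨ (L + 1) * H + 7 ≤ 2 * m0 (d * H))))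

noncomputable def job (d r H : ℕ) (uni : Bool) (L s : ℕ) : Bool :=
  Bool.and (side d r H uni L) (Nat.beq (run d r H uni L s) 1)

theorem job_sound {d r H : ℕ} {uni : Bool} (L s : ℕ) (hj : job d r H uni L s = true) :
    JobOK d r H uni := by
  intro h a m hH hp
  unfold job at hj
  rw [Bool.and_eq_true] at hj
  obtain ⟨hs, hrun⟩ := hj
  have hrun' : run d r H uni L s ≠ 0 := by rw [Nat.eq_of_beq_eq_true hrun]; exact one_ne_zero
  obtain ⟨h3, hd, hr, hs⟩ := of_decide_eq_true hs
  unfold run at hrun'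
  rw [force_eq, force_eq] at hrun'
  obtain ⟨X, Y, e1, N⟩ := rots_sound h3 hd (fun X Y => tab (cosA d) (sinB d) (fun TC TP TM TO =>
      force TC fun TC => force TP fun TP => force TM fun TM => force TO fun TO =>
        chk (mkPar d r H uni L TC TP TM TO) 1000 s (Nat.mul 33554431 TO) []) d 0 X Y 0 0 0 0)
      r 0 _ _ (by omega) (near_zero d)
  rw [e1] at hrun'
  obtain ⟨TC, TP, TM, TO, c, sp, sm, e2, T⟩ := tab_sound h3 hd hr (fun TC TP TM TO =>
      force TC fun TC => force TP fun TP => force TM fun TM => force TO fun TO =>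
        chk (mkPar d r H uni L TC TP TM TO) 1000 s (Nat.mul 33554431 TO) []) d 0 X Y 0 0 0 0
      (fun _ => 0) (fun _ => 0) (fun _ => 0) (by omega) (by simpa using N)
      ⟨rfl, rfl, rfl, rfl, by simp, by simp, by simp⟩
  rw [mul_zero] at e2
  rw [e2] at hrun'
  simp only [force_eq] at hrun'
  have V : Inv d a (Nat.mul 33554431 TO) [] := by
    refine ⟨fun p hp' _ => ?_, List.nodup_nil, by simp⟩
    have : Nat.mul 33554431 TO = pk (fun _ => 33554431) d := by
      rw [T.tn]
      change 33554431 * _ = _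
      unfold pk
      rw [mul_sum]
      exact sum_congr rfl fun q _ => by ring
    rw [this, look_pk (by intro q _; norm_num) hp']
    norm_num
  have hbig := hp.big
  have hlt := hp.lt
  have key : (∃ b, Good (mkPar d r H uni L TC TP TM TO) h a m b c sp sm) ∧
      (2 * L ≤ d + 1 ∨ (L + 1) * h + 7 ≤ 2 * m) := by
    cases uni with
    | true =>
      rw [if_pos rfl] at hs
      have hH' : H ≤ h := by rcases hH with h1 | h1 <;> omega
      obtain ⟨t, rfl⟩ := Nat.exists_eq_add_of_le hH'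
      refine ⟨⟨(((d * (H + t) : ℕ) : ℝ) - 7) / 6, hp, hr, (by omega : 2 ≤ d), hH, ?_, ?_, ?_, ?_,
        hp.cube (beta_gen hbig hlt), T⟩, ?_⟩
      · intro h1; simp [mkPar] at h1
      · change 200 * d * (H + t) + 1600 ≤ 600 * m
        rw [mul_assoc]; omega
      · have : 8 ≤ d * (H + t) := hs.1.trans (Nat.mul_le_mul_left _ hH')
        have : (8 : ℝ) ≤ (d * (H + t) : ℕ) := by exact_mod_cast this
        linarith
      · change (((100 * d : ℕ) : ℝ) * (H + t : ℕ) + (0 : ℕ)) - (700 : ℕ) ≤ _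
        push_cast
        linarith
      · refine hs.2.imp id fun ⟨h1, h2⟩ => ?_
        have := Nat.mul_le_mul_right t h2
        rw [mul_add d] at hbig
        rw [mul_add (L + 1)]
        rw [mul_assoc, mul_assoc] at this
        omega
    | false =>
      rw [if_neg (by simp)] at hs
      obtain rfl : h = H := by simpa using hH
      obtain ⟨s1, s2, s3⟩ := hs
      have hm : m0 (d * h) ≤ m := by unfold m0; omega
      set n := d * h with hn
      set k := m0 n with hk
      have r1 : (k : ℝ) < n := by exact_mod_cast s1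
      have r2 : (3 * n : ℝ) < k * k := by exact_mod_cast s2
      have r3 : (k : ℝ) ≤ m := by exact_mod_cast hm
      have r4 : (0 : ℝ) < n - k := by linarith
      have r5 : 0 < ((k : ℝ) * k - 3 * n) / (n - k) := div_pos (by linarith) r4
      refine ⟨⟨((k : ℝ) * k - 3 * n) / (n - k), hp, hr, (by omega : 2 ≤ d), hH, ?_, ?_, r5, ?_,
        hp.cube ?_, T⟩, s3.imp id fun h1 => by omega⟩
      · intro h1; simpa [mkPar] using h1
      · change 0 * h + 600 * k ≤ 600 * m
        omega
      · change (((0 : ℕ) : ℝ) * h + (600 * (k * k - 3 * n) / (n - k) : ℕ)) - (0 : ℕ) ≤ _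
        have := Nat.cast_div_le (α := ℝ) (m := 600 * (k * k - 3 * n)) (n := n - k)
        rw [Nat.cast_mul, Nat.cast_sub s1.le, Nat.cast_sub s2.le] at this
        push_cast at this ⊢
        rw [← mul_div_assoc]
        linarith
      · have h1 : ((k : ℝ) * k - 3 * n) / (n - k) * (n - m) ≤
            ((k : ℝ) * k - 3 * n) / (n - k) * (n - k) :=
          mul_le_mul_of_nonneg_left (by linarith) r5.le
        rw [div_mul_cancel₀ _ r4.ne'] at h1
        have h2 : (k : ℝ) * k ≤ m * m := mul_self_le_mul_self (Nat.cast_nonneg _) r3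
        change _ * ((n : ℝ) - m) ≤ (m : ℝ) ^ 2 - 3 * n
        nlinarith
  obtain ⟨⟨b, G⟩, hL⟩ := key
  obtain ⟨lo, hlo⟩ := chk_sound G 1000 s _ _ V hrun'
  exact ⟨lo, L, hlo, hL⟩

end Pool.Agent.Lib.MP_7ad46c_co.Chk
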