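import Mathlib

set_option autoImplicit false

namespace Pool.Agent.Lib.MP_7ad46c_co

/-- The restricted three-fold sumset: sums of three pairwise distinct elements of `A`. -/
def rsum3 {G : Type} [AddCommGroup G] (A : Finset G) : Set G :=
  {g | ∃ a ∈ A, ∃ b ∈ A, ∃ c ∈ A, a ≠ b ∧ a ≠ c ∧ b ≠ c ∧ a + b + c = g}

/-- The prime divisors of `n` that are congruent to `2` modulo `3`. -/
def P2 (n : ℕ) : Set ℕ := {p | p.Prime ∧ p ∣ n ∧ p % 3 = 2}

open Classical in
/-- Bajnok's conjectured value `f(n)`. -/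
noncomputable def f (n : ℕ) : ℕ :=
  if (P2 n).Nonempty then
    (n + n / sInf (P2 n)) / 3 +
      (if n = sInf (P2 n) then 3 else if n = 3 * sInf (P2 n) then 2 else 1)
  else n / 3 + (if 9 ∣ n then 4 else 3)

end Pool.Agent.Lib.MP_7ad46c_co
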