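import Pool.Agent.Lib.MP_7ad46c_co.Pair
import Pool.Agent.Lib.MP_7ad46c_co.Core

set_option autoImplicit false

namespace Pool.Agent.Lib.MP_7ad46c_co

open Finset

variable {G : Type} [AddCommGroup G] [DecidableEq G] [Fintype G]

lemma card_fib {d : ℕ} [NeZero d] (π : G →+ ZMod d) (hπ : Function.Surjective π) {h : ℕ}
    (hG : Fintype.card G = d * h) (c : ZMod d) :
    (univ.filter fun a => π a = c).card = h := by
  have h1 : ∀ c' : ZMod d, (univ.filter fun a => π a = c').card
      = (univ.filter fun a => π a = c).card := fun c' =>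
    AddMonoidHom.card_fiber_eq_of_mem_range π (hπ c') (hπ c)
  have h2 := Finset.card_eq_sum_card_fiberwise (s := (univ : Finset G))
    (t := (univ : Finset (ZMod d))) (f := π) (fun _ _ => mem_univ _)
  simp only [h1, Finset.sum_const, Finset.card_univ, ZMod.card, smul_eq_mul] at h2
  rw [hG] at h2
  exact (Nat.eq_of_mul_eq_mul_left (NeZero.pos d) h2).symm

/-- The end analysis for a set contained in half an arc. -/
theorem end_analysis {d h F : ℕ} (hd1 : 1 < d) (hdo : Odd d) (hh : Odd h) (hn : 17 ≤ d * h)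
    (π : G →+ ZMod d) (hπ : Function.Surjective π) (hG : Fintype.card G = d * h)
    (h2 : ∀ a b : G, a + a = b + b → a = b) (hF : Bd π.ker F)
    {A : Finset G} {g : G} (hg : g ∉ rsum3 A) (s : ZMod d)
    (hA : ∀ a ∈ A, 2 * (π a + s).val < d) : Outc d h F A.card := by
  haveI : NeZero d := ⟨by omega⟩
  rcases A.eq_empty_or_nonempty with rfl | hne
  · left; simp
  obtain ⟨a0, ha0, hmin⟩ := Finset.exists_min_image A (fun a => (π a + s).val) hne
  set ht : G → ℕ := fun a => (π a - π a0).val with hht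
  have hcast : ∀ a, ((ht a : ℕ) : ZMod d) = π a - π a0 := fun a => ZMod.natCast_zmod_val _
  have hlt : ∀ a, ht a < d := fun a => ZMod.val_lt _
  have hsm : ∀ a ∈ A, 2 * ht a < d := by
    intro a ha
    have e : π a - π a0 = (π a + s) - (π a0 + s) := by ring
    have := hA a ha
    simp only [hht]
    rw [e, ZMod.val_sub (hmin a ha)]
    omega
  obtain ⟨a1, ha1, hmax⟩ := Finset.exists_max_image A ht hne
  set l := ht a1 with hl
  have hl2 : 2 * l + 1 ≤ d := hsm a1 ha1
  set Fib : ℕ → Finset G := fun t => univ.filter fun a => π a = π a0 + (t : ZMod d) with hFib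
  have cFib : ∀ t, (Fib t).card = h := fun t => card_fib π hπ hG _
  have mFib : ∀ t a, t < d → (a ∈ Fib t ↔ ht a = t) := by
    intro t a htd
    simp only [hFib, mem_filter, mem_univ, true_and, hht]
    constructor
    · intro h; rw [h, add_sub_cancel_left, ZMod.val_cast_of_lt htd]
    · intro h; rw [← h, ZMod.natCast_zmod_val]; ring
  set b : ℕ → ℕ := fun t => (A ∩ Fib t).card with hb
  set γ := (π g - (π a0 + π a0 + π a0)).val with hγ
  have hγc : ((γ : ℕ) : ZMod d) = π g - (π a0 + π a0 + π a0) := ZMod.natCast_zmod_val _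
  have hmod : ∀ x : ℕ, x % d = γ → (x : ZMod d) = π g - (π a0 + π a0 + π a0) := by
    intro x hx; rw [← hγc, ← hx, ZMod.natCast_mod]
  have hex : ∀ t, t ≤ l → 0 < b t → ∃ c ∈ A, π c = π a0 + (t : ZMod d) := by
    intro t _ hbt
    obtain ⟨c, hc⟩ := Finset.card_pos.1 hbt
    obtain ⟨h1, h3⟩ := Finset.mem_inter.1 hc
    exact ⟨c, h1, (Finset.mem_filter.1 h3).2⟩
  have sumW : ∀ (X : Finset G) (u1 u2 : ℕ), u2 ≤ d →
      (X ∩ univ.filter fun a => ht a ∈ Ico u1 u2).card = ∑ t ∈ Ico u1 u2, (X ∩ Fib t).card := by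
    intro X u1 u2 hu
    rw [Finset.card_eq_sum_card_fiberwise (f := ht) (t := Ico u1 u2)]
    · refine Finset.sum_congr rfl fun t htm => ?_
      congr 1
      ext a
      have := (Finset.mem_Ico.1 htm).2
      simp only [mem_filter, mem_inter, mem_univ, true_and, mFib t a (by omega)]
      constructor
      · rintro ⟨⟨h1, _⟩, h3⟩; exact ⟨h1, h3⟩
      · rintro ⟨h1, h3⟩; exact ⟨⟨h1, h3 ▸ htm⟩, h3⟩
    · intro a ha
      exact (Finset.mem_filter.1 (Finset.mem_inter.1 ha).2).2
  refine core d h l γ F A.card b hdo hh hn hd1 hl2 (ZMod.val_lt _) ?_ ?_ ?_ ?_ ?_ ?_ ?_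
  · intro t
    rw [← cFib t]; exact Finset.card_le_card Finset.inter_subset_right
  · refine Finset.card_pos.2 ⟨a0, Finset.mem_inter.2 ⟨ha0, ?_⟩⟩
    simp [hFib]
  · exact Finset.card_pos.2 ⟨a1, Finset.mem_inter.2 ⟨ha1, (mFib l a1 (by omega)).2 rfl⟩⟩
  · rw [← sumW A 0 (l + 1) (by omega)]
    congr 1
    symm
    rw [Finset.inter_eq_left]
    intro a ha
    have := hmax a ha
    simp only [mem_filter, mem_univ, true_and, mem_Ico]
    omega
  · intro t0 u1 u2 h0 hb0 h1 h3 h4
    obtain ⟨c, hc, hπc⟩ := hex t0 h0 hb0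
    have hx := hmod _ h4
    have := win (W := univ.filter fun a => ht a ∈ Ico u1 (u2 + 1)) hg hc ?_ 1
      (filter_le_one h2 _ _)
    · rw [sumW A u1 (u2 + 1) (by omega)] at this
      have h5 := sumW univ u1 (u2 + 1) (by omega)
      simp only [Finset.univ_inter, cFib, Finset.sum_const, Nat.card_Ico, smul_eq_mul] at h5
      rw [h5] at this
      exact this
    · intro a ha
      simp only [mem_filter, mem_univ, true_and, mem_Ico] at ha ⊢
      have h6 : g - c - a ∈ Fib (u1 + u2 - ht a) := by
        simp only [hFib, mem_filter, mem_univ, true_and, map_sub]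
        rw [Nat.cast_sub (by omega), hcast, hπc]
        push_cast at hx ⊢
        linear_combination -hx
      rw [mFib _ _ (by omega)] at h6
      omega
  · intro t0 t1 t2 h0 h1 h3 hb0 h4 h5 h6
    obtain ⟨c, hc, hπc⟩ := hex t0 h0 hb0
    have hx := hmod _ h6
    have := pair (U := Fib t1) (V := Fib t2) hg hc ?_ ?_ ?_
    · rwa [cFib] at this
    · intro a ha
      simp only [hFib, mem_filter, mem_univ, true_and, map_sub] at ha ⊢
      rw [ha, hπc]
      push_cast at hx
      linear_combination -hx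
    · intro a ha hb'
      rw [mFib _ _ (by omega)] at ha hb'
      omega
    · intro hc'
      have : c ∈ Fib t0 := by simp [hFib, hπc]
      rw [mFib _ _ (by omega)] at hc' this
      omega
  · intro t h0 h1
    by_cases hb0 : 0 < b t
    · obtain ⟨c, hc, hπc⟩ := hex t h0 hb0
      have hx := hmod _ h1
      refine hF.of_hom π.ker.subtype π.ker.subtype_injective (g := g) (c := c) ?_ ?_ ?_
      · rintro ⟨x, hx, y, hy, z, hz, h⟩
        exact hg ⟨x, (Finset.mem_inter.1 hx).1, y, (Finset.mem_inter.1 hy).1, z,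
          (Finset.mem_inter.1 hz).1, h⟩
      · intro a ha
        have := (Finset.mem_filter.1 (Finset.mem_inter.1 ha).2).2
        rw [AddSubgroup.range_subtype, AddMonoidHom.mem_ker, map_sub, this, hπc, sub_self]
      · rw [AddSubgroup.range_subtype, AddMonoidHom.mem_ker]
        simp only [map_sub, map_add, hπc]
        push_cast at hx
        linear_combination -hx
    · omega

end Pool.Agent.Lib.MP_7ad46c_co
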