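import Pool.Agent.Lib.MP_7ad46c_co.End

set_option autoImplicit false

namespace Pool.Agent.Lib.MP_7ad46c_co

open Finset

lemma invol_unique {n : ℕ} [NeZero n] {a b : ZMod n} (ha : a + a = 0) (hb : b + b = 0)
    (ha0 : a ≠ 0) (hb0 : b ≠ 0) : a = b := by
  have h1 := (ZMod.neg_eq_self_iff a).1 (neg_eq_of_add_eq_zero_left ha)
  have h2 := (ZMod.neg_eq_self_iff b).1 (neg_eq_of_add_eq_zero_left hb)
  apply ZMod.val_injective
  rcases h1 with h1 | h1
  · exact absurd h1 ha0
  rcases h2 with h2 | h2
  · exact absurd h2 hb0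
  omega

lemma filter_le_two {n : ℕ} [NeZero n] (W : Finset (ZMod n)) (x : ZMod n) :
    (W.filter fun a => a + a = x).card ≤ 2 := by
  by_contra hc
  obtain ⟨a, b, c, ha, hb, hc, h1, h2, h3⟩ := Finset.two_lt_card_iff.1 (not_le.1 hc)
  have ha := (Finset.mem_filter.1 ha).2
  have hb := (Finset.mem_filter.1 hb).2
  have hc := (Finset.mem_filter.1 hc).2
  apply h3
  have := invol_unique (a := b - a) (b := c - a) (by linear_combination hb - ha)
    (by linear_combination hc - ha) (sub_ne_zero.2 h1.symm) (sub_ne_zero.2 h2.symm)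
  linear_combination this

theorem even_bd (h : ℕ) (h8 : 8 ≤ h) (A : Finset (ZMod (2 * h))) (g : ZMod (2 * h))
    (hg : g ∉ rsum3 A) : A.card ≤ h := by
  classical
  have : NeZero (2 * h) := ⟨by omega⟩
  by_contra hc
  set π : ZMod (2 * h) →+ ZMod 2 :=
    (ZMod.castHom (Dvd.intro h rfl) (ZMod 2)).toAddMonoidHom with hπ
  have hs : Function.Surjective π := ZMod.castHom_surjective (Dvd.intro h rfl)
  have cF := card_fib π hs (h := h) (ZMod.card _)
  set U := univ.filter fun a => π a = π g with hU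
  set V := univ.filter fun a => π a = π g + 1 with hV
  have cU : U.card = h := cF _
  have cV : V.card = h := cF _
  have two : ∀ x y : ZMod 2, x = y ∨ x = y + 1 := by decide
  have hsplit : A.card ≤ (A ∩ U).card + (A ∩ V).card := by
    refine le_trans (Finset.card_le_card ?_) (Finset.card_union_le _ _)
    intro a ha
    rcases two (π a) (π g) with h1 | h1 <;> simp [hU, hV, ha, h1]
  have lU : (A ∩ U).card ≤ h := (Finset.card_le_card Finset.inter_subset_right).trans cU.le
  have lV : (A ∩ V).card ≤ h := (Finset.card_le_card Finset.inter_subset_right).trans cV.le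
  by_cases ho : (A ∩ V).card ≤ 2
  · obtain ⟨a0, ha0⟩ := Finset.card_pos.1 (show 0 < (A ∩ U).card by omega)
    obtain ⟨h1, h2⟩ := Finset.mem_inter.1 ha0
    have h2' : π a0 = π g := (Finset.mem_filter.1 h2).2
    have := win (W := U) hg h1 ?_ 2 (filter_le_two _ _)
    · omega
    · intro a ha
      have h3 : π a = π g := (Finset.mem_filter.1 ha).2
      simp only [hU, mem_filter, mem_univ, true_and, map_sub, h2', h3]
      generalize π g = x
      revert x; decide
  set O := A ∩ V with hO
  have mO : ∀ x ∈ O, x ∈ A ∧ π x = π g + 1 := fun x hx =>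
    ⟨(Finset.mem_inter.1 hx).1, (Finset.mem_filter.1 (Finset.mem_inter.1 hx).2).2⟩
  set T := (U \ A).image fun a => g - a with hT
  have cT : T.card + (A ∩ U).card ≤ h := by
    have h1 : T.card ≤ (U \ A).card := Finset.card_image_le
    have h2 := Finset.card_sdiff_add_card_inter U A
    rw [Finset.inter_comm] at h2
    omega
  have mT : ∀ y ∈ O, ∀ z ∈ O, y ≠ z → y + z ∈ T := by
    intro y hy z hz hyz
    obtain ⟨y1, y2⟩ := mO y hy
    obtain ⟨z1, z2⟩ := mO z hz
    have hπ3 : π (g - y - z) = π g := by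
      simp only [map_sub, y2, z2]
      generalize π g = x
      revert x; decide
    refine Finset.mem_image.2 ⟨g - y - z, Finset.mem_sdiff.2 ⟨by simp [hU, hπ3], fun hA => ?_⟩,
      by ring⟩
    have ne : ∀ x : ZMod 2, x + 1 ≠ x := by decide
    refine hg ⟨y, y1, z, z1, _, hA, hyz, ?_, ?_, by ring⟩
    · intro e; rw [← e, y2] at hπ3; exact ne _ hπ3
    · intro e; rw [← e, z2] at hπ3; exact ne _ hπ3
  have star : ∀ x ∈ O, ∀ y ∈ O, ∀ z ∈ O, y ≠ z → y + z - x ∈ O ∧ y + z ≠ x + x := by
    intro x hx y hy z hz hyz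
    have h1 : (O.erase x).image (fun w => x + w) ⊆ T := by
      intro u hu
      obtain ⟨w, hw, rfl⟩ := Finset.mem_image.1 hu
      exact mT x hx w (Finset.mem_of_mem_erase hw) (Finset.ne_of_mem_erase hw).symm
    have h2 : ((O.erase x).image (fun w => x + w)).card = O.card - 1 := by
      rw [Finset.card_image_of_injective _ (add_right_injective x), Finset.card_erase_of_mem hx]
    have h3 := Finset.eq_of_subset_of_card_le h1 (by omega)
    have h4 := mT y hy z hz hyz
    rw [← h3] at h4
    obtain ⟨w, hw, e⟩ := Finset.mem_image.1 h4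
    refine ⟨?_, ?_⟩
    · rw [← e, add_sub_cancel_left]; exact Finset.mem_of_mem_erase hw
    · rw [← e]; intro e2; exact Finset.ne_of_mem_erase hw (add_left_cancel e2)
  have dbl : ∀ x0 ∈ O, ∀ x1 ∈ O, ∀ x2 ∈ O, x0 ≠ x2 → x1 ≠ x2 → x0 + x0 = x1 + x1 := by
    intro x0 h0 x1 h1 x2 h2 n02 n12
    by_contra hne
    have a1 := (star x1 h1 x0 h0 x2 h2 n02).1
    have a2 := (star x2 h2 x0 h0 _ a1 (by
      intro e; apply n12; linear_combination e)).1
    refine (star x0 h0 _ a2 x1 h1 ?_).2 (by ring)
    intro e; apply hne; linear_combination e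
  obtain ⟨a, b, c, ha, hb, hc, h1, h2, h3⟩ := Finset.two_lt_card_iff.1 (not_le.1 ho)
  have e1 := dbl a ha b hb c hc h2 h3
  have e2 := dbl a ha c hc b hb h1 h3.symm
  apply h3
  have := invol_unique (a := b - a) (b := c - a) (by linear_combination -e1)
    (by linear_combination -e2) (sub_ne_zero.2 h1.symm) (sub_ne_zero.2 h2.symm)
  linear_combination this

end Pool.Agent.Lib.MP_7ad46c_co
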