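import Pool.Agent.Lib.MP_7ad46c_co.End

set_option autoImplicit false

namespace Pool.Agent.Lib.MP_7ad46c_co

open Finset

lemma lower_interval (n m : ℕ) (hm : m ≤ n) (h3 : 3 ≤ n) (h : 3 * m ≤ n + 7) :
    ∃ (A : Finset (ZMod n)) (g : ZMod n), A.card = m ∧ g ∉ rsum3 A := by
  classical
  have : NeZero n := ⟨by omega⟩
  refine ⟨(range m).image (Nat.cast : ℕ → ZMod n), ((2 : ℕ) : ZMod n), ?_, ?_⟩
  · rw [Finset.card_image_of_injOn, card_range]
    intro i hi j hj hij
    have hi := Finset.mem_range.1 (Finset.mem_coe.1 hi)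
    have hj := Finset.mem_range.1 (Finset.mem_coe.1 hj)
    have := congrArg ZMod.val hij
    rwa [ZMod.val_cast_of_lt (by omega), ZMod.val_cast_of_lt (by omega)] at this
  · rintro ⟨a, ha, b, hb, c, hc, h1, h2, h4, h5⟩
    obtain ⟨i, hi, rfl⟩ := Finset.mem_image.1 ha
    obtain ⟨j, hj, rfl⟩ := Finset.mem_image.1 hb
    obtain ⟨k, hk, rfl⟩ := Finset.mem_image.1 hc
    rw [Finset.mem_range] at hi hj hk
    have n1 : i ≠ j := fun e => h1 (by rw [e])
    have n2 : i ≠ k := fun e => h2 (by rw [e])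
    have n3 : j ≠ k := fun e => h4 (by rw [e])
    rw [← Nat.cast_add, ← Nat.cast_add, ZMod.natCast_eq_natCast_iff'] at h5
    rw [Nat.mod_eq_of_lt (show 2 < n by omega)] at h5
    by_cases hl : i + j + k < n
    · rw [Nat.mod_eq_of_lt hl] at h5; omega
    · rw [Nat.mod_eq_sub_mod (by omega), Nat.mod_eq_of_lt (by omega)] at h5; omega

lemma card_strip (d h k : ℕ) [NeZero (d * h)] (hk : k ≤ d) :
    (univ.filter fun a : ZMod (d * h) => a.val % d < k).card = k * h := by
  have hd : 0 < d := Nat.pos_of_mul_pos_right (NeZero.pos (d * h))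
  have : NeZero d := ⟨by omega⟩
  set π : ZMod (d * h) →+ ZMod d :=
    (ZMod.castHom (Dvd.intro h rfl) (ZMod d)).toAddMonoidHom with hπ
  have hs : Function.Surjective π := ZMod.castHom_surjective (Dvd.intro h rfl)
  have cF := card_fib π hs (h := h) (ZMod.card _)
  have hv : ∀ a, π a = ((a.val : ℕ) : ZMod d) := by
    intro a; simp [hπ]
  rw [Finset.card_eq_sum_card_fiberwise (f := fun a : ZMod (d * h) => a.val % d) (t := range k)]
  · refine Eq.trans (Finset.sum_congr rfl fun t ht => ?_) (by simp : ∑ _t ∈ range k, h = k * h)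
    have ht := Finset.mem_range.1 ht
    refine Eq.trans ?_ (cF (t : ZMod d))
    congr 1
    ext a
    simp only [mem_filter, mem_univ, true_and, hv, ZMod.natCast_eq_natCast_iff']
    rw [Nat.mod_eq_of_lt (show t < d by omega)]
    omega
  · intro a ha
    simpa using ha

lemma sum_mod {d h : ℕ} [NeZero (d * h)] {a b c g : ZMod (d * h)} (e : a + b + c = g) :
    (a.val + b.val + c.val) % (d * h) = g.val := by
  rw [← e, ZMod.val_add, ZMod.val_add]; simp

lemma lower_periodic (d h k : ℕ) (hh : 0 < h) (hd : d + 1 = 3 * k) :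
    ∃ (A : Finset (ZMod (d * h))) (g : ZMod (d * h)), A.card = k * h ∧ g ∉ rsum3 A := by
  have hd2 : 2 ≤ d := by omega
  have : NeZero (d * h) := ⟨by positivity⟩
  refine ⟨univ.filter fun a : ZMod (d * h) => a.val % d < k, ((d - 1 : ℕ) : ZMod (d * h)),
    card_strip d h k (by omega), ?_⟩
  rintro ⟨a, ha, b, hb, c, hc, -, -, -, h5⟩
  simp only [mem_filter, mem_univ, true_and] at ha hb hc
  have h6 := sum_mod h5
  rw [ZMod.val_cast_of_lt (by nlinarith [Nat.sub_lt (show 0 < d by omega) one_pos])] at h6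
  have h7 := congrArg (· % d) h6
  simp only [Nat.mod_mul_right_mod] at h7
  rw [Nat.add_mod, Nat.add_mod a.val, Nat.mod_add_mod,
    Nat.mod_eq_of_lt (show a.val % d + b.val % d + c.val % d < d by omega),
    Nat.mod_eq_of_lt (show d - 1 < d by omega)] at h7
  omega

lemma lower_nine (k : ℕ) (hk : 0 < k) :
    ∃ (A : Finset (ZMod (3 * k * 3))) (g : ZMod (3 * k * 3)),
      A.card = (k + 1) * 3 ∧ g ∉ rsum3 A := by
  have : NeZero (3 * k * 3) := ⟨by positivity⟩
  refine ⟨univ.filter fun a : ZMod (3 * k * 3) => a.val % (3 * k) < k + 1,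
    ((6 * k : ℕ) : ZMod (3 * k * 3)), card_strip (3 * k) 3 (k + 1) (by omega), ?_⟩
  rintro ⟨a, ha, b, hb, c, hc, h1, h2, h3, h5⟩
  simp only [mem_filter, mem_univ, true_and] at ha hb hc
  have h6 := sum_mod h5
  rw [ZMod.val_cast_of_lt (by omega)] at h6
  have n1 : a.val ≠ b.val := fun e => h1 (ZMod.val_injective _ e)
  have n2 : a.val ≠ c.val := fun e => h2 (ZMod.val_injective _ e)
  have n3 : b.val ≠ c.val := fun e => h3 (ZMod.val_injective _ e)
  have dec : ∀ x : ZMod (3 * k * 3), x.val = x.val % (3 * k) ∨ x.val = x.val % (3 * k) + 3 * k ∨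
      x.val = x.val % (3 * k) + 6 * k := by
    intro x
    have h1 := ZMod.val_lt x
    have h2 := Nat.mod_add_div x.val (3 * k)
    have h3 : x.val / (3 * k) < 3 := Nat.div_lt_of_lt_mul h1
    generalize x.val / (3 * k) = q at *
    interval_cases q <;> omega
  have h7 := Nat.mod_add_div (a.val + b.val + c.val) (3 * k * 3)
  have la := ZMod.val_lt a
  have lb := ZMod.val_lt b
  have lc := ZMod.val_lt c
  have h8 : (a.val + b.val + c.val) / (3 * k * 3) < 3 := Nat.div_lt_of_lt_mul (by omega)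
  have da := dec a
  have db := dec b
  have dc := dec c
  generalize (a.val + b.val + c.val) / (3 * k * 3) = q at *
  interval_cases q <;> omega

theorem lower (n : ℕ) (hn : 16 ≤ n) :
    ∃ (A : Finset (ZMod n)) (g : ZMod n), A.card + 1 = f n ∧ g ∉ rsum3 A := by
  by_cases h : (P2 n).Nonempty
  · obtain ⟨p, q, -, hp, h3, hq, -, hf⟩ := f_typeI h
    by_cases h1 : q = 1 ∨ q = 3
    · obtain ⟨A, g, h4, h5⟩ := lower_interval n (f n - 1) (by split_ifs at hf <;> omega)
        (by omega) (by split_ifs at hf <;> omega)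
      exact ⟨A, g, by split_ifs at hf <;> omega, h5⟩
    · rw [if_neg (by omega), if_neg (by omega)] at hf
      obtain ⟨k, hk⟩ : ∃ k, p + 1 = 3 * k := ⟨(p + 1) / 3, by omega⟩
      subst hq
      have hq0 : 0 < q := Nat.pos_of_ne_zero (by rintro rfl; omega)
      obtain ⟨A, g, h4, h5⟩ := lower_periodic p q k hq0 hk
      refine ⟨A, g, ?_, h5⟩
      have : p * q + q = 3 * (k * q) := by nlinarith
      omega
  · obtain ⟨h1, h2⟩ := f_typeII h
    by_cases h9 : 9 ∣ n
    · obtain ⟨k, hk⟩ := h9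
      obtain rfl : n = 3 * k * 3 := by omega
      obtain ⟨A, g, h4, h5⟩ := lower_nine k (by omega)
      rw [if_pos (by omega)] at h2
      exact ⟨A, g, by omega, h5⟩
    · rw [if_neg h9] at h2
      obtain ⟨A, g, h4, h5⟩ := lower_interval n (f n - 1) (by omega) (by omega) (by omega)
      exact ⟨A, g, by omega, h5⟩

end Pool.Agent.Lib.MP_7ad46c_co
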