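import Pool.Agent.Lib.MP_7ad46c_co.Pair

set_option autoImplicit false

namespace Pool.Agent.Lib.MP_7ad46c_co

open Finset MvPolynomial

/-- the exponent vector `(i, j, l)` -/
noncomputable def T3 (i j l : ℕ) : Fin 3 →₀ ℕ :=
  Finsupp.single 0 i + Finsupp.single 1 j + Finsupp.single 2 l

lemma T3_0 (i j l : ℕ) : T3 i j l 0 = i := by simp [T3]
lemma T3_1 (i j l : ℕ) : T3 i j l 1 = j := by simp [T3]
lemma T3_2 (i j l : ℕ) : T3 i j l 2 = l := by simp [T3]

variable {R : Type} [CommRing R]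

lemma cX0 (i j l : ℕ) (Q : MvPolynomial (Fin 3) R) :
    coeff (T3 (i + 1) j l) (Q * X 0) = coeff (T3 i j l) Q := by
  rw [← coeff_mul_X (T3 i j l) 0 Q]; congr 1; simp only [T3, Finsupp.single_add]; abel
lemma cX1 (i j l : ℕ) (Q : MvPolynomial (Fin 3) R) :
    coeff (T3 i (j + 1) l) (Q * X 1) = coeff (T3 i j l) Q := by
  rw [← coeff_mul_X (T3 i j l) 1 Q]; congr 1; simp only [T3, Finsupp.single_add]; abel
lemma cX2 (i j l : ℕ) (Q : MvPolynomial (Fin 3) R) :
    coeff (T3 i j (l + 1)) (Q * X 2) = coeff (T3 i j l) Q := by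
  rw [← coeff_mul_X (T3 i j l) 2 Q]; congr 1; simp only [T3, Finsupp.single_add]; abel

lemma T3_degree (i j l : ℕ) : (T3 i j l).degree = i + j + l := by
  simp [T3]

lemma coeff_pow (i j l N : ℕ) (h : i + j + l = N) :
    ((i.factorial : R) * j.factorial * l.factorial) *
      coeff (T3 i j l) ((∑ k, X k : MvPolynomial (Fin 3) R) ^ N) = N.factorial := by
  rw [coeff_sum_X_pow_of_fintype, if_pos]
  · rw [Finsupp.multinomial_eq_of_support_subset (Finset.subset_univ _)]
    have := Nat.multinomial_spec (univ : Finset (Fin 3)) (T3 i j l)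
    rw [Fin.prod_univ_three, Fin.sum_univ_three, T3_0, T3_1, T3_2, h] at this
    exact_mod_cast congrArg (Nat.cast : ℕ → R) this
  · rw [Finsupp.sum_fintype _ _ (fun _ => rfl), Fin.sum_univ_three, T3_0, T3_1, T3_2, h]

lemma coeff_V (a b c N : ℕ) (h : a + b + c + 3 = N) :
    (((a + 2).factorial : R) * (b + 2).factorial * (c + 2).factorial) *
      coeff (T3 (a + 2) (b + 2) (c + 2)) ((∑ k, X k : MvPolynomial (Fin 3) R) ^ N *
        ((X 0 - X 1) * (X 0 - X 2) * (X 1 - X 2)))
      = N.factorial * (((a : R) - b) * (a - c) * (b - c)) := by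
  set Q := (∑ k, X k : MvPolynomial (Fin 3) R) ^ N with hQ
  have e : Q * ((X 0 - X 1) * (X 0 - X 2) * (X 1 - X 2))
      = Q * X 1 * X 0 * X 0 - Q * X 2 * X 0 * X 0 + Q * X 2 * X 1 * X 1 - Q * X 0 * X 1 * X 1
        + Q * X 0 * X 2 * X 2 - Q * X 1 * X 2 * X 2 := by ring
  rw [e]
  simp only [coeff_add, coeff_sub, cX0, cX1, cX2]
  have h1 := coeff_pow (R := R) a (b + 1) (c + 2) N (by omega)
  have h2 := coeff_pow (R := R) a (b + 2) (c + 1) N (by omega)
  have h3 := coeff_pow (R := R) (a + 2) b (c + 1) N (by omega)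
  have h4 := coeff_pow (R := R) (a + 1) b (c + 2) N (by omega)
  have h5 := coeff_pow (R := R) (a + 1) (b + 2) c N (by omega)
  have h6 := coeff_pow (R := R) (a + 2) (b + 1) c N (by omega)
  rw [← hQ] at h1 h2 h3 h4 h5 h6
  simp only [Nat.factorial_succ] at h1 h2 h3 h4 h5 h6 ⊢
  push_cast at h1 h2 h3 h4 h5 h6 ⊢
  linear_combination ((a : R) + 2) * (a + 1) * (b + 2) * h1 - ((a : R) + 2) * (a + 1) * (c + 2) * h2
    + ((b : R) + 2) * (b + 1) * (c + 2) * h3 - ((a : R) + 2) * (b + 2) * (b + 1) * h4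
    + ((a : R) + 2) * (c + 2) * (c + 1) * h5 - ((b : R) + 2) * (c + 2) * (c + 1) * h6

/-- Dias da Silva–Hamidoune for three summands, in the form needed here. -/
theorem prime_bd (p : ℕ) (hp : p.Prime) (h7 : 7 ≤ p) (A : Finset (ZMod p)) (g : ZMod p)
    (hg : g ∉ rsum3 A) : 3 * A.card ≤ p + 7 := by
  classical
  by_contra hc
  have : Fact p.Prime := ⟨hp⟩
  have hp3 : p % 3 ≠ 0 := fun h => by
    have := (Nat.prime_dvd_prime_iff_eq Nat.prime_three hp).1 (Nat.dvd_of_mod_eq_zero h)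
    omega
  have hp8 : p ≠ 8 := by rintro rfl; exact absurd hp (by norm_num)
  obtain ⟨b, c, hbc, hcb, hA⟩ : ∃ b c : ℕ, (b + 1) + b + c + 3 = p - 1 ∧ c < b ∧
      b + 3 < A.card := ⟨(p + 10) / 3 - 4, p - 5 - 2 * ((p + 10) / 3 - 4), by omega, by omega,
        by omega⟩
  have nz : ∀ m : ℕ, 0 < m → m < p → (m : ZMod p) ≠ 0 := by
    intro m h1 h2 h
    rw [ZMod.natCast_eq_zero_iff] at h
    exact absurd (Nat.le_of_dvd h1 h) (by omega)
  have fz : ∀ m : ℕ, m < p → (m.factorial : ZMod p) ≠ 0 := by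
    intro m h1 h
    rw [ZMod.natCast_eq_zero_iff, hp.dvd_factorial] at h
    omega
  obtain ⟨e, he⟩ : ∃ e : ZMod p, e + e + e = g := by
    refine ⟨g / 3, ?_⟩
    have : (3 : ZMod p) ≠ 0 := by exact_mod_cast nz 3 (by omega) (by omega)
    field_simp; ring
  set V : MvPolynomial (Fin 3) (ZMod p) := (X 0 - X 1) * (X 0 - X 2) * (X 1 - X 2) with hV
  set Q : MvPolynomial (Fin 3) (ZMod p) := (∑ k, X k) ^ (p - 1) with hQ
  have dX : ∀ i j : Fin 3, (X i - X j : MvPolynomial (Fin 3) (ZMod p)).totalDegree ≤ 1 := by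
    intro i j
    refine (totalDegree_sub _ _).trans ?_
    simp
  have dV : V.totalDegree ≤ 3 := by
    have a1 := totalDegree_mul (X 0 - X 1 : MvPolynomial (Fin 3) (ZMod p)) (X 0 - X 2)
    have a2 := totalDegree_mul ((X 0 - X 1 : MvPolynomial (Fin 3) (ZMod p)) * (X 0 - X 2))
      (X 1 - X 2)
    have := dX 0 1; have := dX 0 2; have := dX 1 2
    rw [hV]; omega
  have dQ : Q.totalDegree ≤ p - 1 := by
    refine (totalDegree_pow _ _).trans ?_
    have : (∑ k, X k : MvPolynomial (Fin 3) (ZMod p)).totalDegree ≤ 1 :=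
      totalDegree_finsetSum_le fun i _ => by simp
    calc _ ≤ (p - 1) * 1 := Nat.mul_le_mul_left _ this
      _ = _ := mul_one _
  have dP : (Q * V - V).totalDegree ≤ p + 2 := by
    refine (totalDegree_sub _ _).trans (max_le ?_ (by omega))
    have := totalDegree_mul Q V
    omega
  set t := T3 (b + 1 + 2) (b + 2) (c + 2) with ht
  have hdeg : t.degree = p + 2 := by rw [ht, T3_degree]; omega
  have cV : coeff t V = 0 := by
    apply coeff_eq_zero_of_totalDegree_lt
    have : ∑ i ∈ t.support, t i = t.degree := rfl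
    omega
  have cP : coeff t (Q * V - V) ≠ 0 := by
    rw [coeff_sub, cV, sub_zero]
    intro h0
    have := coeff_V (R := ZMod p) (b + 1) b c (p - 1) hbc
    rw [← hQ, ← hV, ← ht, h0, mul_zero] at this
    have h1 : (((b + 1 : ℕ) : ZMod p) - b) ≠ 0 := by simp
    have h2 : (((b + 1 : ℕ) : ZMod p) - c) ≠ 0 := by
      rw [← Nat.cast_sub (by omega)]; exact nz _ (by omega) (by omega)
    have h3 : ((b : ZMod p) - c) ≠ 0 := by
      rw [← Nat.cast_sub (by omega)]; exact nz _ (by omega) (by omega)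
    exact mul_ne_zero (fz _ (by omega)) (mul_ne_zero (mul_ne_zero h1 h2) h3) this.symm
  have dP' : (Q * V - V).totalDegree = t.degree := by
    refine le_antisymm (hdeg ▸ dP) ?_
    exact le_totalDegree (mem_support_iff.2 cP)
  have cS : (A.image fun a => a - e).card = A.card :=
    Finset.card_image_of_injective _ (fun x y h => by simpa using h)
  obtain ⟨s, hs, hev⟩ := combinatorial_nullstellensatz_exists_eval_nonzero (Q * V - V) t cP dP'
    (fun _ => A.image fun a => a - e) (by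
      intro i
      rw [cS]
      fin_cases i
      · show t 0 < _; rw [ht, T3_0]; omega
      · show t 1 < _; rw [ht, T3_1]; omega
      · show t 2 < _; rw [ht, T3_2]; omega)
  obtain ⟨x, hx, ex⟩ := Finset.mem_image.1 (hs 0)
  obtain ⟨y, hy, ey⟩ := Finset.mem_image.1 (hs 1)
  obtain ⟨z, hz, ez⟩ := Finset.mem_image.1 (hs 2)
  simp only [hQ, hV, map_sub, map_mul, map_pow, map_sum, eval_X, Fin.sum_univ_three, map_add,
    ← ex, ← ey, ← ez] at hev
  apply hg
  refine ⟨x, hx, y, hy, z, hz, ?_, ?_, ?_, ?_⟩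
  · rintro rfl; simp at hev
  · rintro rfl; simp at hev
  · rintro rfl; simp at hev
  · by_contra hne
    apply hev
    have : x - e + (y - e) + (z - e) ≠ 0 := by
      intro h; apply hne; rw [← he]; linear_combination h
    rw [ZMod.pow_card_sub_one_eq_one this]; ring

end Pool.Agent.Lib.MP_7ad46c_co
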