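import Pool.Agent.Lib.MP_7ad46c_co.Even
import Pool.Agent.Lib.MP_7ad46c_co.Lower
import Pool.Agent.Lib.MP_7ad46c_co.Prime

set_option autoImplicit false

namespace Pool.Agent.Lib.MP_7ad46c_co

open Finset

/-- the statement proved by the Fourier-analytic and computational part -/
def ArcAt (n : ℕ) : Prop :=
  (∀ h : ℕ, h ∣ n → h < n → Bd (ZMod h) (Fb h)) →
    ∀ (A : Finset (ZMod n)) (g : ZMod n), f n ≤ A.card → g ∉ rsum3 A →
      ∃ d k t : ℕ, 1 < d ∧ d ∣ n ∧ Nat.Coprime k d ∧ ∀ a ∈ A, 2 * ((k * a.val + t) % d) < d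

lemma Fb_big {h : ℕ} (h16 : 16 ≤ h) : Fb h = f h - 1 := by
  unfold Fb
  rw [if_neg (by omega), if_neg (by omega), if_neg (by omega), if_neg (by omega),
    if_neg (by omega)]

lemma Fb_cases {h : ℕ} (ho : Odd h) : (h = 1 ∧ Fb h = 1) ∨ (h = 3 ∧ Fb h = 3) ∨
    (h = 5 ∧ Fb h = 4) ∨ (h = 7 ∧ Fb h = 4) ∨ (h = 9 ∧ Fb h = 6) ∨ (h = 11 ∧ Fb h = 6) ∨
    (h = 13 ∧ Fb h = 6) ∨ (h = 15 ∧ Fb h = 9) ∨ (17 ≤ h ∧ Fb h + 1 = f h) := by
  obtain ⟨k, hk⟩ := ho
  by_cases h17 : 17 ≤ h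
  · have := (f_lower h17 ⟨k, hk⟩).1
    have := Fb_big (show 16 ≤ h by omega)
    omega
  · unfold Fb
    split_ifs <;> omega

lemma f_upper {h : ℕ} (h17 : 17 ≤ h) (ho : Odd h) : 5 * f h ≤ 2 * h + 15 := by
  by_cases hP : (P2 h).Nonempty
  · obtain ⟨p, q, -, hp, h3, hq, -, hf⟩ := f_typeI hP
    have hpo : Odd p := (Nat.odd_mul.1 (hq ▸ ho)).1
    obtain ⟨j, hj⟩ := hpo
    have h5 : 5 ≤ p := by omega
    have : 5 * q ≤ p * q := Nat.mul_le_mul_right _ h5
    split_ifs at hf <;> omega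
  · obtain ⟨h1, h2⟩ := f_typeII hP
    split_ifs at h2 <;> omega

lemma outc_lt {d h m : ℕ} (hd1 : 1 < d) (hdo : Odd d) (ho : Odd h) (hn : 17 ≤ d * h)
    (H : Outc d h (Fb h) m) : m < f (d * h) := by
  have hno : Odd (d * h) := hdo.mul ho
  obtain ⟨l1, l2, l3, l4⟩ := f_lower hn hno
  have hmod : (d * h) % 3 = (d % 3 * (h % 3)) % 3 := Nat.mul_mod _ _ _
  obtain ⟨j, hj⟩ := hdo
  have five : ∀ e, h = 5 * e → d * h + d * e + 3 ≤ 3 * f (d * h) := by
    rintro e rfl
    exact f_div (d := 5) (by ring) (by omega) rfl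
  rcases H with H | ⟨H1, H⟩ | ⟨H1, H⟩ | ⟨H1, H2, H⟩ | ⟨H1, H⟩
  · omega
  · have := f_div (n := d * h) rfl (by omega) H1
    omega
  · rw [H1, one_mul] at hmod
    have h9 : 9 ∣ h → 9 ∣ d * h := fun h => h.mul_left d
    have c := Fb_cases ho
    have f3 := five 3
    by_cases h17 : 17 ≤ h
    · have e : Fb h + 1 = f h := by omega
      by_cases hP : (P2 h).Nonempty
      · obtain ⟨p, q, -, hp, h3, hq, -, hf⟩ := f_typeI hP
        have := f_div (n := d * h) (d := p) (h := d * q) (by rw [hq]; ring) (by omega) h3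
        have h7 : 7 * q ≤ d * q := Nat.mul_le_mul_right _ (by omega)
        have : 0 < q := Nat.pos_of_ne_zero (by rintro rfl; omega)
        split_ifs at hf <;> omega
      · obtain ⟨h1, h2⟩ := f_typeII hP
        split_ifs at h2 <;> omega
    · omega
  · rw [H1, zero_mul] at hmod
    by_cases h3 : h % 3 = 0
    · have : 9 ∣ d * h := Nat.mul_dvd_mul (a := 3) (c := 3) (by omega) (by omega)
      omega
    · have c := Fb_cases ho
      have f1 := five 1
      by_cases h17 : 17 ≤ h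
      · have := f_upper h17 ho
        omega
      · by_cases h5 : h = 5
        · subst h5; omega
        · omega
  · subst H1
    have := l4 (Dvd.intro h rfl)
    omega

lemma bd_small {h : ℕ} (ho : Odd h) (h17 : h < 17) : Bd (ZMod h) (Fb h) := by
  classical
  intro A g hg
  have : NeZero h := ⟨ho.pos.ne'⟩
  have h1 := bd_half (zmod_two_inj ho) hg
  have h2 := Finset.card_le_univ A
  rw [ZMod.card] at h1 h2
  have h3 : h.Prime → 7 ≤ h → 3 * A.card ≤ h + 7 := fun a b => prime_bd h a b A g hg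
  rcases Fb_cases ho with c | c | c | c | c | c | c | c | c
  · omega
  · omega
  · omega
  · have := h3 (c.1 ▸ by norm_num) (by omega); omega
  · omega
  · have := h3 (c.1 ▸ by norm_num) (by omega); omega
  · have := h3 (c.1 ▸ by norm_num) (by omega); omega
  · omega
  · omega

/-- from the arc condition to the bound -/
lemma bd_of_arc {n : ℕ} (hn : 17 ≤ n) (ho : Odd n)
    (IH : ∀ h : ℕ, h ∣ n → h < n → Bd (ZMod h) (Fb h))
    (A : Finset (ZMod n)) (g : ZMod n) (hg : g ∉ rsum3 A) (d k t : ℕ) (hd1 : 1 < d) (hd : d ∣ n)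
    (hk : Nat.Coprime k d) (hA : ∀ a ∈ A, 2 * ((k * a.val + t) % d) < d) : A.card < f n := by
  classical
  obtain ⟨h, rfl⟩ := hd
  have : NeZero (d * h) := ⟨by omega⟩
  have : NeZero d := ⟨by omega⟩
  obtain ⟨hdo, hho⟩ := Nat.odd_mul.1 ho
  have hpos := hho.pos
  set π : ZMod (d * h) →+ ZMod d := (AddMonoidHom.mulLeft (k : ZMod d)).comp
    (ZMod.castHom (Dvd.intro h rfl) (ZMod d)).toAddMonoidHom with hπ
  have hv : ∀ a, π a = (k : ZMod d) * ((a.val : ℕ) : ZMod d) := by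
    intro a; simp [hπ]
  have hs : Function.Surjective π := by
    have hu : IsUnit (k : ZMod d) := (ZMod.isUnit_iff_coprime k d).2 hk
    intro c
    obtain ⟨u, hu⟩ := hu
    obtain ⟨a, ha⟩ := ZMod.castHom_surjective (Dvd.intro h rfl : d ∣ d * h) (↑u⁻¹ * c)
    refine ⟨a, ?_⟩
    have : π a = (k : ZMod d) * ZMod.castHom (Dvd.intro h rfl : d ∣ d * h) (ZMod d) a := rfl
    rw [this, ha, ← hu]; simp
  have cK : Nat.card π.ker = h := by
    refine Eq.trans ?_ (card_fib π hs (h := h) (ZMod.card _) 0)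
    rw [Nat.card_eq_fintype_card, Fintype.card_subtype]
    congr 1
    ext a
    simp only [mem_filter, mem_univ, true_and, AddMonoidHom.mem_ker]
  have hF : Bd π.ker (Fb h) := by
    have hc : IsAddCyclic π.ker := inferInstance
    have e : ZMod h ≃+ π.ker :=
      (ZMod.ringEquivCongr cK.symm).toAddEquiv.trans (zmodAddCyclicAddEquiv hc)
    intro B g' hg'
    exact (IH h (Dvd.intro_left d rfl) (by nlinarith)).of_hom e.toAddMonoidHom e.injective
      (c := 0) hg' (fun a _ => e.surjective _) (e.surjective _)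
  refine outc_lt hd1 hdo hho hn (end_analysis hd1 hdo hho hn π hs (ZMod.card _)
    (zmod_two_inj ho) hF hg (t : ZMod d) ?_)
  intro a ha
  rw [hv, ← Nat.cast_mul, ← Nat.cast_add, ZMod.val_natCast]
  exact hA a ha

lemma bd_prime {p : ℕ} (hp : p.Prime) (h17 : 17 ≤ p) : Bd (ZMod p) (Fb p) := by
  intro A g hg
  have h1 := prime_bd p hp (by omega) A g hg
  have h2 := (f_lower h17 (hp.odd_of_ne_two (by omega))).1
  rw [Fb_big (by omega)]
  omega

/-- the upper bound for odd `n`, given the arc statement for the composite divisors -/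
theorem bd_odd (n : ℕ) (ho : Odd n)
    (harc : ∀ m, m ∣ n → 17 ≤ m → ¬ m.Prime → ArcAt m) : Bd (ZMod n) (Fb n) := by
  induction n using Nat.strong_induction_on with
  | _ n ih =>
    by_cases h17 : n < 17
    · exact bd_small ho h17
    by_cases hp : n.Prime
    · exact bd_prime hp (by omega)
    have IH : ∀ h : ℕ, h ∣ n → h < n → Bd (ZMod h) (Fb h) := fun h h1 h2 =>
      ih h h2 (ho.of_dvd_nat h1) fun m hm => harc m (hm.trans h1)
    intro A g hg
    rw [Fb_big (by omega)]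
    by_contra hc
    obtain ⟨d, k, t, a, b, c, e⟩ := harc n dvd_rfl (by omega) hp IH A g (by omega) hg
    have := bd_of_arc (by omega) ho IH A g hg d k t a b c e
    omega

lemma f_even {h : ℕ} (h8 : 8 ≤ h) : f (2 * h) = h + 1 := by
  obtain ⟨p, q, -, hp, h3, hq, hmin, hf⟩ :=
    f_typeI (n := 2 * h) ⟨2, Nat.prime_two, Dvd.intro h rfl, rfl⟩
  have := hmin 2 Nat.prime_two (Dvd.intro h rfl) rfl
  have := hp.two_le
  obtain rfl : p = 2 := by omega
  split_ifs at hf <;> omega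

theorem isLeast_of_bd (n : ℕ) (hn : 16 ≤ n) (H : Bd (ZMod n) (f n - 1)) :
    IsLeast {m : ℕ | ∀ A : Finset (ZMod n), A.card = m → rsum3 A = Set.univ} (f n) := by
  obtain ⟨A0, g0, h1, h2⟩ := lower n hn
  refine ⟨fun A hA => Set.eq_univ_of_forall fun g => ?_, fun m hm => ?_⟩
  · by_contra hg
    have := H A g hg
    omega
  · by_contra hc
    obtain ⟨B, hB, hcard⟩ := Finset.exists_subset_card_eq (s := A0) (n := m) (by omega)
    have : g0 ∈ rsum3 B := by rw [hm B hcard]; trivial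
    obtain ⟨a, ha, b, hb, c, hc, h⟩ := this
    exact h2 ⟨a, hB ha, b, hB hb, c, hB hc, h⟩

theorem main_of_arc (n : ℕ) (hn : 16 ≤ n)
    (harc : ∀ m, m ∣ n → 17 ≤ m → Odd m → ¬ m.Prime → ArcAt m) :
    IsLeast {m : ℕ | ∀ A : Finset (ZMod n), A.card = m → rsum3 A = Set.univ} (f n) := by
  refine isLeast_of_bd n hn ?_
  rcases Nat.even_or_odd n with ⟨h, hh⟩ | ho
  · obtain rfl : n = 2 * h := by omega
    rw [f_even (by omega)]
    exact even_bd h (by omega)
  · rw [← Fb_big hn]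
    exact bd_odd n ho fun m a b c => harc m a b (ho.of_dvd_nat a) c

end Pool.Agent.Lib.MP_7ad46c_co
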