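import Pool.Agent.Lib.MP_7ad46c_co.Basic

set_option autoImplicit false

namespace Pool.Agent.Lib.MP_7ad46c_co

open Finset

section general
variable {G : Type} [AddCommGroup G] [DecidableEq G]

omit [DecidableEq G] in
/-- if `a0, a, g - a0 - a` all lie in `A` then two of them coincide -/
lemma not_distinct {A : Finset G} {g a0 a : G} (hg : g ∉ rsum3 A) (h0 : a0 ∈ A) (ha : a ∈ A)
    (hb : g - a0 - a ∈ A) : a = a0 ∨ a = g - a0 - a0 ∨ a + a = g - a0 := by
  by_contra hc
  push Not at hc
  refine hg ⟨a0, h0, a, ha, _, hb, hc.1.symm, ?_, ?_, by abel⟩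
  · intro h; apply hc.2.1; rw [eq_sub_iff_add_eq, add_comm, ← eq_sub_iff_add_eq]; exact h
  · intro h; apply hc.2.2; rw [← eq_sub_iff_add_eq]; exact h

/-- Window lemma: a set `W` stable under the reflection `a ↦ g - a0 - a`. -/
lemma win {A W : Finset G} {g a0 : G} (hg : g ∉ rsum3 A) (h0 : a0 ∈ A)
    (hW : ∀ a ∈ W, g - a0 - a ∈ W) (k : ℕ)
    (hk : (W.filter fun a => a + a = g - a0).card ≤ k) :
    2 * (A ∩ W).card ≤ W.card + 2 + k := by
  set B := A ∩ W with hB
  set B' := B.image fun a => g - a0 - a with hB'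
  have c1 : B'.card = B.card :=
    Finset.card_image_of_injective _ (fun a b h => by simpa using h)
  have c2 : (B ∪ B').card ≤ W.card := by
    refine Finset.card_le_card (Finset.union_subset Finset.inter_subset_right ?_)
    intro x hx
    obtain ⟨a, ha, rfl⟩ := Finset.mem_image.1 hx
    exact hW a (Finset.mem_inter.1 ha).2
  have c3 : B ∩ B' ⊆ insert a0 (insert (g - a0 - a0) (W.filter fun a => a + a = g - a0)) := by
    intro x hx
    obtain ⟨h1, h2⟩ := Finset.mem_inter.1 hx
    obtain ⟨a, ha, hax⟩ := Finset.mem_image.1 h2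
    have h3 : g - a0 - x ∈ A := by
      rw [← hax, sub_sub_cancel]; exact (Finset.mem_inter.1 ha).1
    rcases not_distinct hg h0 (Finset.mem_inter.1 h1).1 h3 with h | h | h
    · simp [h]
    · simp [h]
    · simp [h, (Finset.mem_inter.1 h1).2]
  have c4 := Finset.card_le_card c3
  have c5 := Finset.card_insert_le a0
    (insert (g - a0 - a0) (W.filter fun a => a + a = g - a0))
  have c6 := Finset.card_insert_le (g - a0 - a0) (W.filter fun a => a + a = g - a0)
  have c7 := Finset.card_union_add_card_inter B B'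
  omega

lemma filter_le_one (h2 : ∀ a b : G, a + a = b + b → a = b) (W : Finset G) (x : G) :
    (W.filter fun a => a + a = x).card ≤ 1 := by
  rw [Finset.card_le_one]
  intro a ha b hb
  exact h2 a b ((Finset.mem_filter.1 ha).2.trans (Finset.mem_filter.1 hb).2.symm)

/-- Pair lemma: the reflection maps `U` into `V`, `U` is disjoint from `V` and misses `a0`. -/
lemma pair {A U V : Finset G} {g a0 : G} (hg : g ∉ rsum3 A) (h0 : a0 ∈ A)
    (hW : ∀ a ∈ U, g - a0 - a ∈ V) (hUV : ∀ a ∈ U, a ∉ V) (ha0 : a0 ∉ U) :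
    (A ∩ U).card + (A ∩ V).card ≤ V.card + 1 := by
  set B' := (A ∩ U).image fun a => g - a0 - a with hB'
  have c1 : B'.card = (A ∩ U).card :=
    Finset.card_image_of_injective _ (fun a b h => by simpa using h)
  have c2 : (B' ∪ A ∩ V).card ≤ V.card := by
    refine Finset.card_le_card (Finset.union_subset ?_ Finset.inter_subset_right)
    intro x hx
    obtain ⟨a, ha, rfl⟩ := Finset.mem_image.1 hx
    exact hW a (Finset.mem_inter.1 ha).2
  have c3 : B' ∩ (A ∩ V) ⊆ {a0} := by
    intro x hx
    obtain ⟨h1, h2⟩ := Finset.mem_inter.1 hx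
    obtain ⟨a, ha, rfl⟩ := Finset.mem_image.1 h1
    obtain ⟨haA, haU⟩ := Finset.mem_inter.1 ha
    rcases not_distinct hg h0 haA (Finset.mem_inter.1 h2).1 with h | h | h
    · exact absurd (h ▸ haU) ha0
    · rw [h]; simp
    · exfalso
      apply hUV a haU
      have := hW a haU
      rwa [← h, add_sub_cancel_right] at this
  have c4 := Finset.card_le_card c3
  have c7 := Finset.card_union_add_card_inter B' (A ∩ V)
  rw [Finset.card_singleton] at c4
  omega

/-- `F ≤ (|G| + 3) / 2` in a group without 2-torsion -/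
lemma bd_half [Fintype G] (h2 : ∀ a b : G, a + a = b + b → a = b) {A : Finset G} {g : G}
    (hg : g ∉ rsum3 A) : 2 * A.card ≤ Fintype.card G + 3 := by
  rcases A.eq_empty_or_nonempty with rfl | ⟨a0, h0⟩
  · simp
  · have := win (W := univ) hg h0 (fun _ _ => mem_univ _) 1 (filter_le_one h2 _ _)
    simpa using this

end general

/-- transfer of `Bd` along an injective homomorphism with translation: a set contained in a
translate of the image. -/
lemma Bd.of_hom {H G : Type} [AddCommGroup H] [AddCommGroup G] {F : ℕ} (hF : Bd H F)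
    (φ : H →+ G) (hφ : Function.Injective φ) {A : Finset G} {g c : G} (hg : g ∉ rsum3 A)
    (hA : ∀ a ∈ A, a - c ∈ φ.range) (hc : g - (c + c + c) ∈ φ.range) : A.card ≤ F := by
  classical
  obtain ⟨g', hg'⟩ := hc
  set ψ : H → G := fun x => φ x + c with hψ
  have hinj : Function.Injective ψ := fun x y h => hφ (add_right_cancel h)
  have hcard : (A.preimage ψ hinj.injOn).card = A.card := by
    rw [Finset.card_preimage]
    congr 1
    refine Finset.filter_true_of_mem fun a ha => ?_
    obtain ⟨x, hx⟩ := hA a ha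
    exact ⟨x, by simp [hψ, hx]⟩
  rw [← hcard]
  refine hF _ g' ?_
  rintro ⟨x, hx, y, hy, z, hz, h1, h2, h3, h4⟩
  rw [Finset.mem_preimage] at hx hy hz
  refine hg ⟨_, hx, _, hy, _, hz, hinj.ne h1, hinj.ne h2, hinj.ne h3, ?_⟩
  have : φ x + φ y + φ z = g - (c + c + c) := by rw [← hg', ← h4]; simp
  simp only [hψ]
  rw [eq_sub_iff_add_eq] at this
  rw [← this]; abel

lemma zmod_two_inj {n : ℕ} (hn : Odd n) (a b : ZMod n) (h : a + a = b + b) : a = b := by
  have hu : IsUnit (2 : ZMod n) := by
    have : IsUnit ((2 : ℕ) : ZMod n) :=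
      (ZMod.isUnit_iff_coprime 2 n).2 (Nat.coprime_two_left.2 hn)
    simpa using this
  apply hu.mul_left_cancel
  rw [two_mul, two_mul, h]

end Pool.Agent.Lib.MP_7ad46c_co
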