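import Pool.Agent.Lib.MP_7ad46c_co.Defs
import Pool.Agent.Lib.MP_7ad46c_co.Anal1

/-!
Fibres, the pairing constraint and the strip argument.
-/

set_option autoImplicit false

namespace Pool.Agent.Lib.MP_7ad46c_co

open Finset

def fib {n : ℕ} (d : ℕ) (x : ZMod n) : ℕ := x.val % d

def cnt {n : ℕ} (d : ℕ) (A : Finset (ZMod n)) (p : ℕ) : ℕ := #{x ∈ A | fib d x = p}

lemma fib_lt {n d : ℕ} (hd : 0 < d) (x : ZMod n) : fib d x < d := Nat.mod_lt _ hd

lemma fib_add {n d : ℕ} [NeZero n] (hdn : d ∣ n) (x y : ZMod n) :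
    fib d (x + y) = (fib d x + fib d y) % d := by
  unfold fib
  rw [ZMod.val_add, Nat.mod_mod_of_dvd _ hdn, ← Nat.add_mod]

lemma fib_sub {n d : ℕ} [NeZero n] (hdn : d ∣ n) (hd : 0 < d) {x y : ZMod n} {k : ℕ} (hk : k < d)
    (h : (k + fib d y) % d = fib d x) : fib d (x - y) = k := by
  have h1 := fib_add hdn (x - y) y
  rw [sub_add_cancel, ← h] at h1
  exact ((Nat.ModEq.add_right_cancel' (fib d y) h1).eq_of_lt_of_lt hk (fib_lt hd _)).symm

lemma card_win {n d h l : ℕ} [NeZero n] (hn : n = d * h) (S : Finset (ZMod n)) (T : Finset ℕ)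
    (hT : #T = l) (hS : ∀ x ∈ S, fib d x ∈ T) : #S ≤ l * h := by
  have := card_le_card_of_injOn (s := S) (t := T ×ˢ range h) (fun x => (fib d x, x.val / d))
    (fun x hx => by
      simp only [coe_product, Set.mem_prod, mem_coe, mem_range]
      exact ⟨hS x hx, Nat.div_lt_of_lt_mul (hn ▸ ZMod.val_lt x)⟩)
    (fun x _ y _ hxy => by
      simp only [Prod.mk.injEq] at hxy
      apply ZMod.val_injective n
      rw [← Nat.div_add_mod x.val d, ← Nat.div_add_mod y.val d, hxy.2]
      exact congrArg _ hxy.1)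
  rwa [card_product, hT, card_range] at this

lemma card_fibre {n d h p : ℕ} [NeZero n] (hn : n = d * h) (S : Finset (ZMod n))
    (hS : ∀ x ∈ S, fib d x = p) : #S ≤ h := by
  have := card_win hn S {p} (card_singleton p) fun x hx => mem_singleton.2 (hS x hx)
  rwa [one_mul] at this

lemma two_inj {n : ℕ} (hodd : Odd n) {x y : ZMod n} (h : x + x = y + y) : x = y := by
  have hu : IsUnit ((2 : ℕ) : ZMod n) :=
    (ZMod.isUnit_iff_coprime 2 n).2 (Nat.coprime_two_left.2 hodd)
  refine hu.mul_left_cancel ?_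
  push_cast
  rw [two_mul, two_mul, h]

lemma coll {G : Type} [AddCommGroup G] {A : Finset G} {g a b c : G} (hg : g ∉ rsum3 A)
    (ha : a ∈ A) (hb : b ∈ A) (hc : c ∈ A) (h : a + b + c = g) : a = b ∨ a = c ∨ b = c := by
  by_contra hcon
  rw [not_or, not_or] at hcon
  exact hg ⟨a, ha, b, hb, c, hc, hcon.1, hcon.2.1, hcon.2.2, h⟩

lemma card_ind {α : Type} (S : Finset α) (P : Prop) [Decidable P] (h1 : ∀ x ∈ S, P)
    (h2 : ∀ x ∈ S, ∀ y ∈ S, x = y) : #S ≤ if P then 1 else 0 := by
  split_ifs with h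
  · exact card_le_one.2 h2
  · rw [Nat.le_zero, card_eq_zero]
    exact eq_empty_of_forall_notMem fun x hx => h (h1 x hx)

lemma reps_le {n : ℕ} (hodd : Odd n) {A : Finset (ZMod n)} {g c : ZMod n} (hg : g ∉ rsum3 A)
    (hc : c ∈ A) (S : Finset (ZMod n)) (hS : ∀ x ∈ S, x ∈ A ∧ g - c - x ∈ A)
    (P1 P2 P3 : Prop) [Decidable P1] [Decidable P2] [Decidable P3]
    (h1 : c ∈ S → P1) (h2 : ∀ x ∈ S, g - c - x = c → P2) (h3 : ∀ x ∈ S, x = g - c - x → P3) :
    #S ≤ (if P1 then 1 else 0) + (if P2 then 1 else 0) + (if P3 then 1 else 0) := by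
  have hsub : S ⊆ ({x ∈ S | x = c} ∪ {x ∈ S | g - c - x = c}) ∪ {x ∈ S | x = g - c - x} := by
    intro x hx
    simp only [mem_union, mem_filter]
    rcases coll hg (hS x hx).1 (hS x hx).2 hc (by ring) with h | h | h
    · exact Or.inr ⟨hx, h⟩
    · exact Or.inl (Or.inl ⟨hx, h⟩)
    · exact Or.inl (Or.inr ⟨hx, h⟩)
  refine (card_le_card hsub).trans ((card_union_le _ _).trans (Nat.add_le_add
    ((card_union_le _ _).trans (Nat.add_le_add ?_ ?_)) ?_))
  · refine card_ind _ _ (fun x hx => ?_) fun x hx y hy => ?_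
    · rw [mem_filter] at hx; exact h1 (hx.2 ▸ hx.1)
    · rw [mem_filter] at hx hy; rw [hx.2, hy.2]
  · refine card_ind _ _ (fun x hx => ?_) fun x hx y hy => ?_
    · rw [mem_filter] at hx; exact h2 x hx.1 hx.2
    · rw [mem_filter] at hx hy; linear_combination hy.2 - hx.2
  · refine card_ind _ _ (fun x hx => ?_) fun x hx y hy => ?_
    · rw [mem_filter] at hx; exact h3 x hx.1 hx.2
    · rw [mem_filter] at hx hy
      exact two_inj hodd (by linear_combination hx.2 - hy.2)

lemma reps_three {n : ℕ} (hodd : Odd n) {A : Finset (ZMod n)} {g c : ZMod n} (hg : g ∉ rsum3 A)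
    (hc : c ∈ A) : #{x ∈ A | g - c - x ∈ A} ≤ 3 := by
  have := reps_le hodd hg hc {x ∈ A | g - c - x ∈ A} (fun x hx => mem_filter.1 hx) True True True
    (fun _ => trivial) (fun _ _ _ => trivial) (fun _ _ _ => trivial)
  simpa using this

lemma cnt_pair {n d h r : ℕ} [NeZero n] (hn : n = d * h) (hodd : Odd n) {A : Finset (ZMod n)}
    {g : ZMod n} (hg : g ∉ rsum3 A) (hr : (fib d g + r) % d = 0) (c i j : ℕ) (hi : i < d)
    (hc : 1 ≤ cnt d A c) (hs : (i + j + c + r) % d = 0) :
    cnt d A i + cnt d A j ≤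
      h + (if i = c then 1 else 0) + (if j = c then 1 else 0) + (if i = j then 1 else 0) := by
  obtain ⟨c0, hc0⟩ := card_pos.1 hc
  rw [mem_filter] at hc0
  have hdn : d ∣ n := ⟨h, hn⟩
  have hd : 0 < d := by omega
  have hinj : Function.Injective fun y : ZMod n => g - c0 - y := sub_right_injective
  have e1 := card_union_add_card_inter {x ∈ A | fib d x = i}
    (({x ∈ A | fib d x = j}).image fun y => g - c0 - y)
  rw [card_image_of_injective _ hinj] at e1
  have e2 : #({x ∈ A | fib d x = i} ∪ ({x ∈ A | fib d x = j}).image fun y => g - c0 - y) ≤ h := by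
    refine card_fibre (p := i) hn _ fun x hx => ?_
    rcases mem_union.1 hx with h1 | h1
    · exact (mem_filter.1 h1).2
    · obtain ⟨y, hy, rfl⟩ := mem_image.1 h1
      have a1 := fib_add hdn (g - c0 - y + y) c0
      rw [fib_add hdn (g - c0 - y) y, (mem_filter.1 hy).2, hc0.2,
        show g - c0 - y + y + c0 = g by ring, Nat.mod_add_mod] at a1
      rw [a1, Nat.mod_add_mod] at hr
      refine mod_cancel (z := j + c + r) (fib_lt hd _) hi ?_ ?_
      · rw [← hr]; congr 1; ring
      · rw [← hs]; congr 1; ring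
  have e4 : ∀ x ∈ ({x ∈ A | fib d x = i} ∩ ({x ∈ A | fib d x = j}).image fun y => g - c0 - y),
      (x ∈ A ∧ g - c0 - x ∈ A) ∧ fib d x = i ∧ fib d (g - c0 - x) = j := by
    intro x hx
    rw [mem_inter, mem_filter] at hx
    obtain ⟨y, hy, rfl⟩ := mem_image.1 hx.2
    rw [mem_filter] at hy
    rw [sub_sub_cancel]
    exact ⟨⟨hx.1.1, hy.1⟩, hx.1.2, hy.2⟩
  have e3 := reps_le hodd hg hc0.1 _ (fun x hx => (e4 x hx).1) (i = c) (j = c) (i = j)
    (fun h1 => (e4 _ h1).2.1.symm.trans hc0.2)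
    (fun x hx h1 => by rw [← (e4 x hx).2.2, h1, hc0.2])
    (fun x hx h1 => by rw [← (e4 x hx).2.2, ← h1, (e4 x hx).2.1])
  unfold cnt
  omega

theorem strip {n d h l : ℕ} [NeZero n] (hn : n = d * h) (hodd : Odd n) {A : Finset (ZMod n)}
    {g x1 : ZMod n} (hg : g ∉ rsum3 A) (hd : 0 < d) (h0 : 0 ∈ A) (h1 : x1 ∈ A) (hl : fib d x1 = l)
    (hA : ∀ a ∈ A, fib d a ≤ l) (hm : (l + 2) * h + 7 ≤ 2 * #A) : 2 * l < d := by
  by_contra hcon
  have hdn : d ∣ n := ⟨h, hn⟩
  have hld : l < d := hl ▸ fib_lt hd x1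
  have hQ : ∀ S : Finset (ZMod n), (∀ x ∈ S, fib d x < l) → #S ≤ l * h := fun S hS =>
    card_win hn S (range l) (card_range l) fun x hx => mem_range.2 (hS x hx)
  set B := {x ∈ A | fib d x < l} with hB
  have hB1 : #A ≤ #B + h := by
    have a1 := card_filter_add_card_filter_not (s := A) (fun x => fib d x < l)
    have a2 := card_fibre (p := l) hn {x ∈ A | ¬ fib d x < l} fun x hx => by
      rw [mem_filter] at hx
      have := hA x hx.1
      omega
    rw [← hB] at a1
    omega
  have hm' : l * h + 2 * h + 7 ≤ 2 * #A := by rw [← add_mul]; exact hm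
  have claim : ∀ q : ZMod n, fib d q < l → g - q ∈ A → g - (q + x1) ∈ A → False := by
    intro q hq c1 c2
    let ρ : ZMod n → ZMod n := fun z => if fib d z ≤ fib d q then q - z else q + x1 - z
    have f1 : ∀ z, fib d z ≤ fib d q → fib d (q - z) = fib d q - fib d z := fun z hz =>
      fib_sub hdn hd (by omega) (by rw [Nat.sub_add_cancel hz, Nat.mod_eq_of_lt (by omega)])
    have f2 : ∀ z, fib d z < l → ¬ fib d z ≤ fib d q →
        fib d (q + x1 - z) = fib d q + l - fib d z := fun z hz hz' =>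
      fib_sub hdn hd (by omega) (by rw [Nat.sub_add_cancel (by omega), fib_add hdn, hl])
    have hinj : Set.InjOn ρ B := by
      intro z hz w hw hzw
      have hz' := (mem_filter.1 hz).2
      have hw' := (mem_filter.1 hw).2
      simp only [ρ] at hzw
      split_ifs at hzw with a1 a2 a2
      · exact sub_right_injective hzw
      · have := f1 z a1
        rw [hzw, f2 w hw' a2] at this
        omega
      · have := f1 w a2
        rw [← hzw, f2 z hz' a1] at this
        omega
      · exact sub_right_injective hzw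
    have e1 := card_union_add_card_inter B (B.image ρ)
    rw [card_image_of_injOn hinj] at e1
    have e2 := hQ (B ∪ B.image ρ) fun x hx => by
      rcases mem_union.1 hx with a1 | a1
      · exact (mem_filter.1 a1).2
      · obtain ⟨z, hz, rfl⟩ := mem_image.1 a1
        have hz' := (mem_filter.1 hz).2
        simp only [ρ]
        split_ifs with a2
        · rw [f1 z a2]; omega
        · rw [f2 z hz' a2]; omega
    have e3 : B ∩ B.image ρ ⊆
        {x ∈ A | g - (g - q) - x ∈ A} ∪ {x ∈ A | g - (g - (q + x1)) - x ∈ A} := by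
      intro x hx
      rw [mem_inter] at hx
      obtain ⟨z, hz, rfl⟩ := mem_image.1 hx.2
      have a1 := (mem_filter.1 hx.1).1
      have a2 := (mem_filter.1 hz).1
      rw [mem_union, mem_filter, mem_filter, sub_sub_cancel, sub_sub_cancel]
      simp only [ρ] at a1 ⊢
      split_ifs at a1 ⊢
      · left; exact ⟨a1, by rwa [sub_sub_cancel]⟩
      · right; exact ⟨a1, by rwa [sub_sub_cancel]⟩
    have e4 := (card_le_card e3).trans (card_union_le _ _)
    have e5 := reps_three hodd hg c1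
    have e6 := reps_three hodd hg c2
    omega
  let τ : ZMod n → ZMod n := fun c => if fib d (g - c) < l then g - c else g - c - x1
  have f3 : ∀ c, fib d (τ c) < l := by
    intro c
    simp only [τ]
    split_ifs with a1
    · exact a1
    · have a2 := fib_lt hd (g - c)
      rw [fib_sub (k := fib d (g - c) - l) hdn hd (by omega)
        (by rw [hl, Nat.sub_add_cancel (by omega), Nat.mod_eq_of_lt a2])]
      omega
  have hinj : Set.InjOn τ A := by
    intro z hz w hw hzw
    simp only [τ] at hzw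
    split_ifs at hzw with a1 a2 a2
    · exact sub_right_injective hzw
    · exact (claim (g - z) a1 (by rwa [sub_sub_cancel])
        (by rwa [hzw, sub_add_cancel, sub_sub_cancel])).elim
    · exact (claim (g - w) a2 (by rwa [sub_sub_cancel])
        (by rwa [← hzw, sub_add_cancel, sub_sub_cancel])).elim
    · exact sub_right_injective (sub_left_injective hzw)
  have e1 := card_union_add_card_inter B (A.image τ)
  rw [card_image_of_injOn hinj] at e1
  have e2 := hQ (B ∪ A.image τ) fun x hx => by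
    rcases mem_union.1 hx with a1 | a1
    · exact (mem_filter.1 a1).2
    · obtain ⟨z, _, rfl⟩ := mem_image.1 a1
      exact f3 z
  have e3 : B ∩ A.image τ ⊆ {x ∈ A | g - 0 - x ∈ A} ∪ {x ∈ A | g - x1 - x ∈ A} := by
    intro x hx
    rw [mem_inter] at hx
    obtain ⟨z, hz, rfl⟩ := mem_image.1 hx.2
    have a1 := (mem_filter.1 hx.1).1
    rw [mem_union, mem_filter, mem_filter]
    simp only [τ] at a1 ⊢
    split_ifs at a1 ⊢
    · left; exact ⟨a1, by rwa [sub_zero, sub_sub_cancel]⟩
    · right; exact ⟨a1, by rwa [show g - x1 - (g - z - x1) = z by ring]⟩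
  have e4 := (card_le_card e3).trans (card_union_le _ _)
  have e5 := reps_three hodd hg h0
  have e6 := reps_three hodd hg h1
  omega

lemma affine_miss {n : ℕ} {A : Finset (ZMod n)} {g u : ZMod n} (t : ZMod n) (hu : IsUnit u)
    (hg : g ∉ rsum3 A) : u * g + 3 * t ∉ rsum3 (A.image fun x => u * x + t) := by
  rintro ⟨a, ha, b, hb, c, hc, h1, h2, h3, h4⟩
  obtain ⟨a, ha', rfl⟩ := mem_image.1 ha
  obtain ⟨b, hb', rfl⟩ := mem_image.1 hb
  obtain ⟨c, hc', rfl⟩ := mem_image.1 hc
  refine hg ⟨a, ha', b, hb', c, hc', fun h => h1 (by rw [h]), fun h => h2 (by rw [h]),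
    fun h => h3 (by rw [h]), hu.mul_left_cancel (by linear_combination h4)⟩

lemma affine_inj {n : ℕ} {u : ZMod n} (t : ZMod n) (hu : IsUnit u) :
    Function.Injective fun x => u * x + t := fun _ _ h => hu.mul_left_cancel (add_right_cancel h)

theorem arc_of_concl {n d h : ℕ} [NeZero n] (hn : n = d * h) (hodd : Odd n) {A : Finset (ZMod n)}
    {g : ZMod n} (hg : g ∉ rsum3 A) (hd : 0 < d) (hne : A.Nonempty)
    (hc : Concl d h (cnt d A) #A) : ∃ t : ℕ, ∀ a ∈ A, 2 * ((a.val + t) % d) < d := by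
  have hdn : d ∣ n := ⟨h, hn⟩
  obtain ⟨lo, L, hw, hL⟩ := hc
  have hw' : ∀ a ∈ A, lo ≤ fib d a ∧ fib d a < lo + L := fun a ha =>
    hw _ (fib_lt hd a) (card_pos.2 ⟨a, mem_filter.2 ⟨ha, rfl⟩⟩)
  obtain ⟨x0, hx0, hmin⟩ := exists_min_image A (fib d) hne
  obtain ⟨x1, hx1, hmax⟩ := exists_max_image A (fib d) hne
  have f1 : ∀ a ∈ A, fib d (a - x0) = fib d a - fib d x0 := fun a ha =>
    fib_sub hdn hd (by have := fib_lt hd a; omega)
      (by rw [Nat.sub_add_cancel (hmin a ha), Nat.mod_eq_of_lt (fib_lt hd a)])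
  have a0 := hw' x0 hx0
  have a1 := hw' x1 hx1
  have key : 2 * (fib d x1 - fib d x0) < d := by
    rcases hL with hL | hL
    · omega
    · refine strip hn hodd (affine_miss (-x0) isUnit_one hg) hd (x1 := x1 - x0)
        (mem_image.2 ⟨x0, hx0, by ring⟩) (mem_image.2 ⟨x1, hx1, by ring⟩) (f1 x1 hx1) ?_ ?_
      · intro a ha
        obtain ⟨b, hb, rfl⟩ := mem_image.1 ha
        rw [show 1 * b + -x0 = b - x0 by ring, f1 b hb]
        have := hmax b hb
        omega
      · rw [card_image_of_injective _ (affine_inj _ isUnit_one)]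
        have := Nat.mul_le_mul_right h (show fib d x1 - fib d x0 + 2 ≤ L + 1 by omega)
        omega
  refine ⟨d - fib d x0, fun a ha => ?_⟩
  have b1 := hmin a ha
  have b2 := hmax a ha
  have b3 := fib_lt hd a
  have : (a.val + (d - fib d x0)) % d = fib d a - fib d x0 := by
    rw [← Nat.mod_add_mod]
    change (fib d a + (d - fib d x0)) % d = _
    rw [show fib d a + (d - fib d x0) = fib d a - fib d x0 + d by omega, Nat.add_mod_right,
      Nat.mod_eq_of_lt (by omega)]
  omega

end Pool.Agent.Lib.MP_7ad46c_co
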